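import Pool.Agent.Lib.HUK.DDefs
import Pool.Agent.Lib.H9U.Z4
import Pool.Agent.Lib.H96U.Defs

/-!
# Project ASY: the asymptotic formula with a power-saving exceptional set (definitions)

See `PROOF.md` in this folder.
-/

open Finset Filter

namespace Pool.Agent.H9A

open Pool.Agent.H9U
open Pool.Agent.Lib.H59P (bx pr)

noncomputable section

/-- The number of the `n < L` for which all values at `n0 + n` are primes. -/
def NPr {k d : ℕ} (S : Sys k d) (b : Fin k → ℤ) (t : Fin d → ℤ) (n0 : ℤ) (L : ℕ) : ℕ :=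
  ((range L).filter (fun n : ℕ => ∀ i, (S.val b (n0 + n) t i).toNat.Prime)).card

/-- The expected density of the `n` near which all values are primes, the values being about `X`: the singular series over
the primes up to `X`, divided by `(log X)^k`. -/
def Dn {k d : ℕ} (S : Sys k d) (b : Fin k → ℤ) (t : Fin d → ℤ) (X : ℕ) : ℝ := SSS S b t (pr X) / (Real.log X) ^ k

open Classical in
/-- The asymptotic formula for all but few `t`, for all `X` in the intervals `[M, M^A]` with `M` good, `M` arbitrarily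
large. -/
def ACore {k d : ℕ} (S : Sys k d) : Prop :=
  ∀ C0 A : ℕ, 1 ≤ C0 → 1 ≤ A → ∀ ε : ℝ, 0 < ε → ∃ κ : ℝ, 0 < κ ∧ ∀ M0 : ℕ, ∃ M : ℕ, M0 ≤ M ∧ ∀ X : ℕ, M ≤ X → X ≤ M ^ A →
    ∀ Xs : Fin k → ℕ, (∀ i, X ≤ Xs i ∧ Xs i ≤ C0 * X) → ∀ (b : Fin k → ℤ) (L T : ℕ), X ≤ L → L ≤ C0 * X → T ≤ C0 * X →
    (∀ i, ∀ n ∈ range L, ∀ t ∈ bx d T, S.val b n (iv t) i ∈ JJ (Xs i)) →
    (((bx d T).filter (fun t => S.Adm b (iv t) ∧
      ε * (L * Dn S b (iv t) X) < |(NPr S b (iv t) 0 L : ℝ) - L * Dn S b (iv t) X|)).card : ℝ) ≤ (X : ℝ) ^ (d - κ)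

/-- `t` is admissible, and the asymptotic formula fails for `n` in `[n0, n0 + X)`. -/
def Bad {k d : ℕ} (S : Sys k d) (b : Fin k → ℤ) (n0 : ℤ) (X : ℕ) (ε : ℝ) (t : Fin d → ℕ) : Prop :=
  S.Adm b (iv t) ∧ ε * (X * Dn S b (iv t) X) < |(NPr S b (iv t) n0 X : ℝ) - X * Dn S b (iv t) X|

/-- All minors at `t` are non-zero, and at most `X^3`. -/
def NZ {k d : ℕ} (S : Sys k d) (b : Fin k → ℤ) (t : Fin d → ℤ) (X : ℕ) : Prop :=
  ∀ i j, i ≠ j → S.minr b t i j ≠ 0 ∧ |S.minr b t i j| ≤ (X : ℤ) ^ 3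

end

end Pool.Agent.H9A
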