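import Pool.Agent.Lib.H9A.N0
import Pool.Agent.Lib.H9U.A3
import Pool.Agent.Lib.H59P.A7

/-!
# ASY, chunk N1 (M): arbitrarily large levels without exceptional zero
-/

open Finset

namespace Pool.Agent.H9A

open Pool.Agent.H9U
open Pool.Agent.Lib.H68T Pool.Agent.Lib.H18Q Pool.Agent.Lib.H59P

/-- Proof. `c` from `good_levels` (`H68T/PAGE2.lean`), `K, C` from `mdb_good c` (`H9U/A1.lean`). `kp : ℕ`, `kp ≥ max K |K'| + 1`, `C exp(-(kp/C)) ≤ E/2` (compare the choice of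
`kp` in `A3S`). `Cr = A kp + 1`. Given `M0` take `Q` good with `Q ≥ max(M0, C0, 2)` and so large that `max K |K'| + 1 ≤ log log Q`, `(max K |K'| + 1) (log Cr + log log Q) ≤ log Q` and `Q^(-1/4) ≤ E/2`
(`good_levels` gives `Q` above any bound). `M = Q^kp`. For `M ≤ Y ≤ C0 M^A ≤ Q^(A kp + 1)`: `kp log Q ≤ log Y ≤ Cr log Q`, so `RegP (max K |K'| + 1) Q Y`; `RegP.mono`; `mdb_good` and
`C exp(-(kp/C)) + Q^(-1/4) ≤ E` (enlarge the bound in `MdB.cf` as in `A3S`, first case). -/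
theorem N1_level (C0 A : ℕ) (hC0 : 1 ≤ C0) (hA : 1 ≤ A) (E K' : ℝ) (hE : 0 < E) : ∃ Cr : ℝ, 1 ≤ Cr ∧
    ∀ M0 : ℕ, ∃ M Q : ℕ, M0 ≤ M ∧ ∀ Y : ℕ, M ≤ Y → Y ≤ C0 * M ^ A →
      RegP K' Q Y ∧ Real.log Y ≤ Cr * Real.log Q ∧ MdB Q Y 1 E p0 (fun _ => 0) := by
  obtain ⟨c, hc, hgl⟩ := good_levels
  obtain ⟨K, C, hK, hC, hgood⟩ := mdb_good c hc
  obtain ⟨E1, hE1⟩ : ∃ E1 : ℝ, E1 = E / 2 := ⟨_, rfl⟩
  have hE1p : 0 < E1 := by rw [hE1]; positivity
  obtain ⟨Kr, hKr⟩ : ∃ Kr : ℝ, Kr = |K'| + K + 1 := ⟨_, rfl⟩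
  have haK := abs_nonneg K'
  have hleK := le_abs_self K'
  have hKr1 : 1 ≤ Kr := by rw [hKr]; linarith
  have hKrK : K ≤ Kr := by rw [hKr]; linarith
  have hKrK' : K' ≤ Kr := by rw [hKr]; linarith
  obtain ⟨kp, hkpr, hkpe⟩ : ∃ kp : ℕ, Kr ≤ (kp : ℝ) ∧ C * Real.exp (-((kp : ℝ) / C)) ≤ E1 := by
    refine ⟨⌈max Kr (C * (C / E1))⌉₊, (le_max_left _ _).trans (Nat.le_ceil _), ?_⟩
    have h0 : max Kr (C * (C / E1)) ≤ (⌈max Kr (C * (C / E1))⌉₊ : ℝ) := Nat.le_ceil _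
    obtain ⟨kp, hkp⟩ : ∃ kp : ℝ, kp = (⌈max Kr (C * (C / E1))⌉₊ : ℝ) := ⟨_, rfl⟩
    rw [← hkp] at h0 ⊢
    have hCp : 0 < C := by linarith
    have h1 : C / E1 ≤ kp / C := by
      rw [le_div_iff₀ hCp]
      calc C / E1 * C = C * (C / E1) := by ring
        _ ≤ kp := (le_max_right _ _).trans h0
    have h2 : C / E1 ≤ Real.exp (kp / C) := by
      have := Real.add_one_le_exp (kp / C)
      linarith
    rw [Real.exp_neg, ← div_eq_mul_inv, div_le_iff₀ (Real.exp_pos _)]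
    rw [div_le_iff₀ hE1p] at h2
    linarith
  have hkp1 : (1 : ℝ) ≤ kp := hKr1.trans hkpr
  have hkp1' : 1 ≤ kp := by exact_mod_cast hkp1
  have hA' : (1 : ℝ) ≤ A := by exact_mod_cast hA
  obtain ⟨Cr, hCr⟩ : ∃ Cr : ℝ, Cr = A * kp + 1 := ⟨_, rfl⟩
  have hCr1 : 1 ≤ Cr := by
    rw [hCr]
    have : 0 ≤ (A : ℝ) * kp := by positivity
    linarith
  have hlogCr : 0 ≤ Real.log Cr := Real.log_nonneg hCr1
  have hlogC0 : 0 ≤ Real.log (C0 : ℝ) := Real.log_nonneg (by exact_mod_cast hC0)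
  have hlogE : 0 ≤ Real.log (1 / E1 + 1) := Real.log_nonneg (by
    have : 0 < 1 / E1 := by positivity
    linarith)
  refine ⟨Cr, hCr1, fun M0 => ?_⟩
  obtain ⟨L0, hL0⟩ := Filter.eventually_atTop.mp ((ev_log (2 * Kr) 1 one_pos).and
    (Filter.eventually_ge_atTop (Real.exp Kr + Real.log C0 + 2 * Kr * Real.log Cr +
      4 * Real.log (1 / E1 + 1))))
  obtain ⟨Q, hQ, hQg⟩ := hgl (max M0 ⌈Real.exp (max L0 1)⌉₊)
  have hQM0 : M0 ≤ Q := (le_max_left _ _).trans hQ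
  have hQe' : ⌈Real.exp (max L0 1)⌉₊ ≤ Q := (le_max_right _ _).trans hQ
  have hQe : Real.exp (max L0 1) ≤ (Q : ℝ) := (Nat.le_ceil _).trans (by exact_mod_cast hQe')
  have hQ0 : (0 : ℝ) < Q := lt_of_lt_of_le (Real.exp_pos _) hQe
  obtain ⟨q, hq⟩ : ∃ q, q = Real.log Q := ⟨_, rfl⟩
  have hqge : max L0 1 ≤ q := by
    rw [hq, Real.le_log_iff_exp_le hQ0]; exact hQe
  have hq1 : 1 ≤ q := (le_max_right _ _).trans hqge
  obtain ⟨e1, e2⟩ := hL0 q ((le_max_left _ _).trans hqge)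
  rw [Real.rpow_one] at e1
  have p1 : 0 < Real.exp Kr := Real.exp_pos _
  have p2 : 0 ≤ 2 * Kr * Real.log Cr := by positivity
  have hqa : Real.exp Kr ≤ q := by linarith
  have hqb : Real.log C0 ≤ q := by linarith
  have hqc : 2 * Kr * Real.log Cr ≤ q := by linarith
  have hqd : 4 * Real.log (1 / E1 + 1) ≤ q := by linarith
  have hQ1 : 1 ≤ Q := by exact_mod_cast (by exact_mod_cast hQ0 : 0 < Q)
  have hMQ : Q ≤ Q ^ kp := by
    calc Q = Q ^ 1 := (pow_one Q).symm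
      _ ≤ Q ^ kp := Nat.pow_le_pow_right hQ1 hkp1'
  refine ⟨Q ^ kp, Q, hQM0.trans hMQ, fun Y hY1 hY2 => ?_⟩
  have hM0 : (0 : ℝ) < (Q : ℝ) ^ kp := by positivity
  have hY1' : (Q : ℝ) ^ kp ≤ Y := by exact_mod_cast hY1
  have hY2' : (Y : ℝ) ≤ C0 * ((Q : ℝ) ^ kp) ^ A := by exact_mod_cast hY2
  have hY0 : (0 : ℝ) < Y := lt_of_lt_of_le hM0 hY1'
  have hC0' : (0 : ℝ) < C0 := by exact_mod_cast hC0
  have g1 : kp * q ≤ Real.log Y := by
    have := Real.log_le_log hM0 hY1'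
    rwa [Real.log_pow, ← hq] at this
  have g2 : Real.log Y ≤ Cr * q := by
    have := Real.log_le_log hY0 hY2'
    rw [Real.log_mul hC0'.ne' (by positivity), Real.log_pow, Real.log_pow, ← hq] at this
    have h3 : Cr * q = A * (kp * q) + q := by rw [hCr]; ring
    linarith
  have g3 : q ≤ Real.log Y := by
    have : 1 * q ≤ kp * q := mul_le_mul_of_nonneg_right hkp1 (by linarith)
    linarith
  have hlY : 0 < Real.log Y := by linarith
  have hreg : RegP Kr Q Y := by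
    refine ⟨?_, ?_, ?_⟩
    · rw [Real.le_log_iff_exp_le hlY]
      linarith
    · have k1 : Real.log (Real.log Y) ≤ Real.log Cr + Real.log q := by
        have := Real.log_le_log hlY g2
        rwa [Real.log_mul (by linarith) (by linarith)] at this
      have k2 : Kr * Real.log (Real.log Y) ≤ Kr * (Real.log Cr + Real.log q) :=
        mul_le_mul_of_nonneg_left k1 (by linarith)
      rw [← hq]
      have k3 : Kr * (Real.log Cr + Real.log q) = (2 * Kr * Real.log Cr) / 2 + (2 * Kr * Real.log q) / 2 := by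
        ring
      linarith
    · rw [← hq]
      exact (mul_le_mul_of_nonneg_right hkpr (by linarith)).trans g1
  refine ⟨hreg.mono (by linarith) hKrK', by rw [← hq]; exact g2, ?_⟩
  have h := hgood kp (hKrK.trans hkpr) Q Y (hreg.mono (by linarith) hKrK) (by rw [← hq]; exact g1) hQg
  have herr : C * Real.exp (-((kp : ℝ) / C)) + (Q : ℝ) ^ (-(1 / 4) : ℝ) ≤ E := by
    have g2 : (Q : ℝ) ^ (-(1 / 4) : ℝ) ≤ E1 := by
      rw [Real.rpow_def_of_pos hQ0, ← hq]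
      have g3 : Real.exp (q * -(1 / 4)) ≤ Real.exp (-Real.log (1 / E1 + 1)) :=
        Real.exp_le_exp.2 (by linarith)
      refine g3.trans ?_
      have g4 : 0 < 1 / E1 + 1 := by positivity
      rw [Real.exp_neg, Real.exp_log g4, inv_eq_one_div, div_le_iff₀ g4]
      have g5 : E1 * (1 / E1 + 1) = 1 + E1 := by field_simp
      linarith
    rw [hE1] at hkpe g2
    linarith
  refine ⟨h.eta_pos, h.eta_le, h.mem, h.real, h.triv, h.nonneg, h.le, ?_⟩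
  obtain ⟨eb, b1, b2, b3⟩ := h.cf
  exact ⟨eb, b1, b2.trans (by linarith), b3⟩

end Pool.Agent.H9A
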