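import Pool.Agent.Lib.H9A.N0
import Pool.Agent.Lib.H96U.G1
import Pool.Agent.Lib.H9U.T1
import Pool.Agent.Lib.H59.SchinzelCount

/-!
# ASY, chunk N10a (M): the quantities of the problem
-/

open Finset Filter Polynomial

namespace Pool.Agent.H9A

open Pool.Agent.H9U
open Pool.Agent.H96U (gsys g1_val0 g1_valS)
open Pool.Agent.Lib.H59
open Pool.Agent.Lib.H59P (bx pr)

/-- The constant term `b_i + ∑_j c_ij t_j`. -/
def shiftA {g d : ℕ} (c : Fin g → Fin d → ℤ) (b : Fin g → ℤ) (t : Fin d → ℕ) (i : Fin g) : ℤ :=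
  b i + ∑ j, c i j * t j

/-- The polynomials `F_i = f_i x + b_i + ∑_j c_ij t_j`. -/
noncomputable def familyA {g d : ℕ} (f : Fin g → ℤ) (c : Fin g → Fin d → ℤ) (b : Fin g → ℤ) (t : Fin d → ℕ) :
    Fin g → ℤ[X] :=
  fun i => C (f i) * X + C (shiftA c b t i)

/-- The asymptotic formula of Q1 (all degrees `1`) at `N` up to the factor `1 ± ε`, with the complete singular series. -/
def AsymA {g : ℕ} (F : Fin g → ℤ[X]) (G : ℤ[X]) (N : ℕ) (ε : ℝ) : Prop :=
  ∃ s : ℝ, Tendsto (fun z : ℕ => seriesTrunc F G N z) atTop (nhds s) ∧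
    |(primeCount F G N : ℝ) - argCount G N / Real.log (argCount G N) ^ (g + 1) * s| ≤
      ε * (argCount G N / Real.log (argCount G N) ^ (g + 1) * s)

/-- values of the polynomials -/
theorem n10a_ev {g d : ℕ} (f : Fin g → ℤ) (c : Fin g → Fin d → ℤ) (b : Fin g → ℤ) (t : Fin d → ℕ) (i : Fin g) (n : ℤ) :
    (familyA f c b t i).eval n = f i * n + (b i + ∑ j, c i j * t j) := by
  unfold familyA shiftA
  rw [eval_add, eval_mul, eval_C, eval_X, eval_C]

/-- a value is a prime -/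
theorem n10a_prime (z : ℤ) : z.toNat.Prime ↔ ∃ q : ℕ, q.Prime ∧ z = q := by
  constructor
  · intro h
    have h1 := h.pos
    exact ⟨z.toNat, h, by omega⟩
  · rintro ⟨q, hq, rfl⟩
    rwa [Int.toNat_natCast]

/-- the values of the system at `n` are all primes -/
theorem n10a_all {g d : ℕ} (γ : ℕ) (γ0 : ℤ) (f : Fin g → ℤ) (c : Fin g → Fin d → ℤ) (b : Fin g → ℤ) (t : Fin d → ℕ) (N : ℕ)
    (G : ℤ[X]) (hGe : ∀ n : ℤ, G.eval n = γ * n + γ0) (n : ℤ) :
    (∀ i, ((gsys γ f c).val (Fin.cons ((N : ℤ) - γ0) b) n (iv t) i).toNat.Prime) ↔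
      (∀ i, ∃ q : ℕ, q.Prime ∧ (familyA f c b t i).eval n = q) ∧ ∃ q : ℕ, q.Prime ∧ (N : ℤ) - G.eval n = q := by
  have e0 : (N : ℤ) - G.eval n = (N : ℤ) - γ0 - γ * n := by
    rw [hGe]
    ring
  rw [Fin.forall_fin_succ, g1_val0, n10a_prime, e0, and_comm]
  refine and_congr (forall_congr' fun i => ?_) Iff.rfl
  rw [g1_valS, n10a_prime, n10a_ev]
  rfl

/-- `p` divides one of the values -/
theorem n10a_dvd {g d : ℕ} (γ : ℕ) (γ0 : ℤ) (f : Fin g → ℤ) (c : Fin g → Fin d → ℤ) (b : Fin g → ℤ) (t : Fin d → ℕ) (N : ℕ)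
    (G : ℤ[X]) (hGe : ∀ n : ℤ, G.eval n = γ * n + γ0) (n : ℤ) (p : ℕ) (hp : p.Prime) :
    (p : ℤ) ∣ ((∏ i, familyA f c b t i) * (C (N : ℤ) - G)).eval n ↔
      ∃ i, (p : ℤ) ∣ (gsys γ f c).val (Fin.cons ((N : ℤ) - γ0) b) n (iv t) i := by
  have hp' : Prime (p : ℤ) := Nat.prime_iff_prime_int.1 hp
  have e0 : (N : ℤ) - G.eval n = (N : ℤ) - γ0 - γ * n := by
    rw [hGe]
    ring
  rw [eval_mul, eval_prod, eval_sub, eval_C, e0, hp'.dvd_mul, hp'.dvd_finsetProd_iff, Fin.exists_fin_succ, g1_val0, or_comm]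
  refine or_congr Iff.rfl ?_
  constructor
  · rintro ⟨i, -, h⟩
    refine ⟨i, ?_⟩
    rw [g1_valS]
    rw [n10a_ev] at h
    exact h
  · rintro ⟨i, h⟩
    refine ⟨i, mem_univ i, ?_⟩
    rw [g1_valS] at h
    rw [n10a_ev]
    exact h

/-- the number of arguments -/
theorem n10a_arg (G : ℤ[X]) (γ : ℕ) (hγ : 0 < γ) (γ0 : ℤ) (hGe : ∀ n : ℤ, G.eval n = γ * n + γ0) (N : ℕ) :
    argCount G N = (((N : ℤ) - γ0 - 1) / γ).toNat := by
  have hγ' : (0 : ℤ) < γ := by exact_mod_cast hγ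
  have h1 : argSet G N = ((Icc 1 (((N : ℤ) - γ0 - 1) / γ).toNat : Finset ℕ) : Set ℕ) := by
    ext n
    rw [mem_coe, mem_Icc]
    have h2 : (n : ℤ) ≤ ((N : ℤ) - γ0 - 1) / γ ↔ (n : ℤ) * γ ≤ (N : ℤ) - γ0 - 1 := Int.le_ediv_iff_mul_le hγ'
    have e0 : (γ : ℤ) * n = n * γ := mul_comm _ _
    constructor
    · rintro ⟨h3, h4⟩
      rw [hGe, e0] at h4
      have h5 := h2.2 (by linarith)
      omega
    · rintro ⟨h3, h4⟩
      have h5 := h2.1 (by omega)
      refine ⟨by omega, ?_⟩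
      rw [hGe, e0]
      linarith
  unfold argCount
  rw [h1, Set.ncard_coe_finset, Nat.card_Icc]
  omega

/-- Translation of the three quantities of the problem, `G = γ x + γ0`.

Proof. `G.eval n = γ n + γ0` (`eq_X_add_C_of_natDegree_le_one`, as in `H96U/TestG.lean`). `primeCount`: the `n ≥ 1` with `N - γ0 - γ n > 0` (so `n ≤ N + |γ0|`) and all values prime; a value `z : ℤ` is a prime iff `z.toNat.Prime`; `n = 1 + m`,
`m < N + |γ0|`. `seriesTrunc F G N (z + 1) = SSS (pr z)`: `Nat.primesBelow (z + 1) = pr z`, `T0S_tp`, `omegaN F G N p = nuS`, (`p ∣ (∏ F_i) (N - G)` at `a` iff `p` divides one of the values, `p` prime),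
`((1 - 1/p)^(g+1))⁻¹ = (p/(p-1))^(g+1)`. `argCount`: `n ≥ 1` with `γ n < N - γ0`: `|argCount - N/γ| ≤ |γ0| + 1`. -/
theorem N10_trans {g d : ℕ} (G : ℤ[X]) (γ : ℕ) (hγ : 0 < γ) (γ0 : ℤ) (hGe : ∀ n : ℤ, G.eval n = γ * n + γ0)
    (f : Fin g → ℤ) (c : Fin g → Fin d → ℤ) (b : Fin g → ℤ) (t : Fin d → ℕ) (N : ℕ) :
    primeCount (familyA f c b t) G N = NPr (gsys γ f c) (Fin.cons ((N : ℤ) - γ0) b) (iv t) 1 (N + γ0.natAbs) ∧
    (∀ z : ℕ, seriesTrunc (familyA f c b t) G N (z + 1) =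
      SSS (gsys γ f c) (Fin.cons ((N : ℤ) - γ0) b) (iv t) (pr z)) ∧
    |(argCount G N : ℝ) - N / γ| ≤ γ0.natAbs + 1 := by
  classical
  have hγ' : (0 : ℤ) < γ := by exact_mod_cast hγ
  refine ⟨?_, fun z => ?_, ?_⟩
  · unfold primeCount NPr
    have e1 : {n : ℕ | n ∈ argSet G N ∧ (∀ i, ∃ q : ℕ, q.Prime ∧ (familyA f c b t i).eval (n : ℤ) = q) ∧
        ∃ q : ℕ, q.Prime ∧ (N : ℤ) - G.eval (n : ℤ) = q} =
        ((((range (N + γ0.natAbs)).filter (fun n : ℕ => ∀ i, ((gsys γ f c).val (Fin.cons ((N : ℤ) - γ0) b) (1 + n) (iv t) i).toNat.Prime)).image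
          (fun n => 1 + n) : Finset ℕ) : Set ℕ) := by
      ext n
      rw [Set.mem_ofPred_eq, mem_coe, mem_image]
      constructor
      · rintro ⟨⟨h1, h2⟩, h3⟩
        refine ⟨n - 1, ?_, by omega⟩
        have e2 : (1 : ℤ) + ((n - 1 : ℕ) : ℤ) = n := by omega
        rw [mem_filter, mem_range, e2]
        refine ⟨?_, (n10a_all γ γ0 f c b t N G hGe n).2 h3⟩
        rw [hGe] at h2
        have h5 : (n : ℤ) ≤ γ * n := by nlinarith [Int.natCast_nonneg n]
        omega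
      · rintro ⟨m, hm, rfl⟩
        rw [mem_filter] at hm
        have h3 := (n10a_all γ γ0 f c b t N G hGe (1 + m)).1 hm.2
        have e2 : ((1 + m : ℕ) : ℤ) = 1 + m := by push_cast; rfl
        rw [e2]
        refine ⟨⟨by omega, ?_⟩, h3⟩
        rw [e2]
        obtain ⟨q, hq, h4⟩ := h3.2
        rw [h4]
        exact_mod_cast hq.pos
    rw [e1, Set.ncard_coe_finset, card_image_of_injective _ (fun a b h => by
      have h' : 1 + a = 1 + b := h
      omega)]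
  · unfold seriesTrunc SSS
    have e1 : Nat.primesBelow (z + 1) = pr z := by
      ext p
      unfold Nat.primesBelow pr
      rw [mem_filter, mem_filter, mem_range, mem_Icc]
      constructor
      · rintro ⟨h1, h2⟩
        exact ⟨⟨h2.one_lt.le, by omega⟩, h2⟩
      · rintro ⟨h1, h2⟩
        exact ⟨by omega, h2⟩
    rw [e1]
    refine prod_congr rfl fun p hp => ?_
    have hp' : p.Prime := (mem_filter.1 hp).2
    rw [T0S_tp _ _ _ p hp']
    have e2 : omegaN (familyA f c b t) G N p = nuS (gsys γ f c) (Fin.cons ((N : ℤ) - γ0) b) (iv t) p := by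
      unfold omegaN nuS
      refine congrArg card ?_
      ext a
      rw [mem_filter, mem_filter, n10a_dvd γ γ0 f c b t N G hGe a p hp']
    rw [e2]
    have h1 : (1 : ℝ) < p := by exact_mod_cast hp'.one_lt
    have h0 : (p : ℝ) ≠ 0 := by linarith
    have h2 : (p : ℝ) - 1 ≠ 0 := by linarith
    congr 1
    rw [← inv_pow]
    congr 1
    rw [one_sub_div h0, inv_div]
  · rw [n10a_arg G γ hγ γ0 hGe N]
    have hγr : (1 : ℝ) ≤ γ := by exact_mod_cast hγ
    have hab : |(γ0 : ℝ)| = γ0.natAbs := by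
      rw [← Int.cast_abs, Int.abs_eq_natAbs, Int.cast_natCast]
    have hab2 := abs_le.1 (le_of_eq hab)
    obtain ⟨a, ha⟩ : ∃ a : ℝ, a = (γ0.natAbs : ℝ) := ⟨_, rfl⟩
    rw [← ha] at hab2 ⊢
    have ha0 : 0 ≤ a := by
      rw [ha]
      exact Nat.cast_nonneg _
    rcases le_or_gt ((N : ℤ) - γ0 - 1) 0 with h | h
    · have h1 : (((N : ℤ) - γ0 - 1) / γ).toNat = 0 := by
        have h2 : ((N : ℤ) - γ0 - 1) / γ ≤ 0 := by
          have h3 := Int.ediv_le_ediv hγ' h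
          rwa [Int.zero_ediv] at h3
        omega
      rw [h1, Nat.cast_zero, zero_sub, abs_neg, abs_of_nonneg (by positivity)]
      have h4 : (N : ℝ) ≤ γ0 + 1 := by
        have h5 : (N : ℤ) ≤ γ0 + 1 := by linarith
        exact_mod_cast h5
      calc (N : ℝ) / γ ≤ N := div_le_self (Nat.cast_nonneg _) hγr
        _ ≤ a + 1 := by linarith
    · obtain ⟨q, hq⟩ : ∃ q : ℤ, q = ((N : ℤ) - γ0 - 1) / γ := ⟨_, rfl⟩
      have hq0 : 0 ≤ q := by
        rw [hq]
        exact Int.ediv_nonneg h.le hγ'.le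
      have h1 : ((q.toNat : ℕ) : ℝ) = q := by
        have : ((q.toNat : ℕ) : ℤ) = q := Int.toNat_of_nonneg hq0
        exact_mod_cast this
      rw [← hq, h1]
      have h2 : q * γ ≤ (N : ℤ) - γ0 - 1 := (Int.le_ediv_iff_mul_le hγ').1 hq.le
      have h3 : (N : ℤ) - γ0 - 1 < (q + 1) * γ := by
        have h4 := Int.lt_ediv_add_one_mul_self ((N : ℤ) - γ0 - 1) hγ'
        rwa [← hq] at h4
      have h2' : (q : ℝ) * γ ≤ N - γ0 - 1 := by exact_mod_cast h2
      have h3' : (N : ℝ) - γ0 - 1 < (q + 1) * γ := by exact_mod_cast h3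
      have hγ0 : (0 : ℝ) < γ := by linarith
      have h4' : (N : ℤ) - γ0 ≤ (q + 1) * γ := by omega
      have h4 : (N : ℝ) - γ0 ≤ (q + 1) * γ := by exact_mod_cast h4'
      rw [abs_le]
      constructor
      · have h5 : (N : ℝ) / γ ≤ q + 1 + a := by
          rw [div_le_iff₀ hγ0]
          nlinarith
        linarith
      · have h5 : (q : ℝ) - a ≤ N / γ := by
          rw [le_div_iff₀ hγ0]
          nlinarith
        linarith

end Pool.Agent.H9A
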