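import Pool.Agent.Lib.H9A.N9
import Pool.Agent.Lib.H9A.N10a
import Pool.Agent.Lib.H96U.Final
import Pool.Agent.Lib.H59.SchinzelCount
import Pool.Agent.Lib.HUK.D14

/-!
# ASY, chunk N10 (M): the asymptotic formula in terms of the problem
-/

open Finset Filter Polynomial

namespace Pool.Agent.H9A

open Pool.Agent.H9U
open Pool.Agent.H96U (gsys g1_val0 g1_valS Fin2 fin_gsys)
open Pool.Agent.Lib.H59
open Pool.Agent.Lib.H59P (bx pr)

/-- replacing `N / γ` by the number `x` of the arguments, `log N` by `log x` -/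
theorem n10_ratio (γ K k : ℕ) (hγ : 0 < γ) (e : ℝ) (he : 0 < e) : ∃ N1 : ℕ, ∀ N : ℕ, N1 ≤ N → ∀ x : ℕ,
    |(x : ℝ) - N / γ| ≤ K → 0 < (N : ℝ) / γ / Real.log N ^ k ∧
      |(x : ℝ) / Real.log x ^ k - N / γ / Real.log N ^ k| ≤ e * (N / γ / Real.log N ^ k) := by
  have hc : ContinuousAt (fun p : ℝ × ℝ => p.1 * p.2 ^ k) (1, 1) := by fun_prop
  have h1 : ∀ᶠ p : ℝ × ℝ in nhds (1, 1), |p.1 * p.2 ^ k - 1| < e := by
    have h2 := Metric.continuousAt_iff.1 hc e he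
    obtain ⟨δ, hδ, h3⟩ := h2
    refine Metric.eventually_nhds_iff.2 ⟨δ, hδ, fun p hp => ?_⟩
    have h4 := h3 hp
    rw [Real.dist_eq] at h4
    simpa using h4
  obtain ⟨δ, hδ, h2⟩ := Metric.eventually_nhds_iff.1 h1
  have hγ1 : (1 : ℝ) ≤ γ := by exact_mod_cast hγ
  have hγ0 : (0 : ℝ) < γ := by linarith
  obtain ⟨L, hL⟩ : ∃ L : ℝ, L = Real.log (2 * γ) := ⟨_, rfl⟩
  have hL0 : 0 < L := by
    rw [hL]
    exact Real.log_pos (by linarith)
  have hN : Tendsto (fun N : ℕ => (N : ℝ)) atTop atTop := tendsto_natCast_atTop_atTop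
  have hlN : Tendsto (fun N : ℕ => Real.log (N : ℝ)) atTop atTop := Real.tendsto_log_atTop.comp hN
  have e1 := hN.eventually_gt_atTop (K * γ / δ)
  have e2 := hN.eventually_gt_atTop (2 * γ * K)
  have e3 := hlN.eventually_gt_atTop (L + L / δ)
  have e4 := hN.eventually_gt_atTop 1
  obtain ⟨N1, hN1⟩ := Filter.eventually_atTop.1 (e1.and (e2.and (e3.and e4)))
  refine ⟨N1, fun N hNN x hx => ?_⟩
  obtain ⟨f1, f2, f3, f4⟩ := hN1 N hNN
  have hK0 : (0 : ℝ) ≤ K := Nat.cast_nonneg K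
  obtain ⟨Y, hY⟩ : ∃ Y : ℝ, Y = (N : ℝ) / γ := ⟨_, rfl⟩
  have hYγ : Y * γ = N := by
    rw [hY]
    exact div_mul_cancel₀ _ hγ0.ne'
  have hY0 : 0 < Y := by
    rw [hY]
    exact div_pos (by linarith) hγ0
  have hlogN : 0 < Real.log N := Real.log_pos f4
  rw [← hY] at hx ⊢
  refine ⟨div_pos hY0 (pow_pos hlogN k), ?_⟩
  have hx2 := abs_le.1 hx
  have hKY : 2 * (K : ℝ) < Y := by
    by_contra hcon
    push Not at hcon
    have : Y * γ ≤ 2 * (K : ℝ) * γ := mul_le_mul_of_nonneg_right hcon hγ0.le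
    linarith
  have hxlow : (N : ℝ) / (2 * γ) ≤ x := by
    rw [div_le_iff₀ (by linarith)]
    have h5 : Y ≤ 2 * x := by linarith
    have h6 : Y * γ ≤ 2 * x * γ := mul_le_mul_of_nonneg_right h5 hγ0.le
    linarith
  have hxup : (x : ℝ) ≤ N * (2 * γ) := by
    have h5 : (x : ℝ) ≤ 2 * Y := by linarith
    have h6 : Y ≤ N := by
      rw [← hYγ]
      exact le_mul_of_one_le_right hY0.le hγ1
    have h7 : (N : ℝ) * 2 ≤ N * (2 * γ) := by
      have := mul_le_mul_of_nonneg_left hγ1 (show (0 : ℝ) ≤ N * 2 by linarith)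
      linarith
    linarith
  have hx0 : (0 : ℝ) < x := lt_of_lt_of_le (div_pos (by linarith) (by linarith)) hxlow
  have hl1 : Real.log N - L ≤ Real.log x := by
    rw [hL, ← Real.log_div (by linarith) (by linarith)]
    exact Real.log_le_log (div_pos (by linarith) (by linarith)) hxlow
  have hl2 : Real.log x ≤ Real.log N + L := by
    rw [hL, ← Real.log_mul (by linarith) (by linarith)]
    exact Real.log_le_log hx0 hxup
  have hLδ : 0 < L / δ := div_pos hL0 hδ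
  have hlx : L / δ < Real.log x := by linarith
  have hlx0 : 0 < Real.log x := by linarith
  obtain ⟨u, hu⟩ : ∃ u : ℝ, u = x / Y := ⟨_, rfl⟩
  obtain ⟨v, hv⟩ : ∃ v : ℝ, v = Real.log N / Real.log x := ⟨_, rfl⟩
  have hu1 : |u - 1| < δ := by
    have h5 : u - 1 = (x - Y) / Y := by
      rw [hu]
      field_simp
    rw [h5, abs_div, abs_of_pos hY0, div_lt_iff₀ hY0]
    refine lt_of_le_of_lt hx ?_
    rw [div_lt_iff₀ hδ] at f1
    by_contra hcon
    push Not at hcon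
    have h6 := mul_le_mul_of_nonneg_right hcon hγ0.le
    have h7 : δ * Y * γ = N * δ := by
      rw [← hYγ]
      ring
    linarith
  have hv1 : |v - 1| < δ := by
    have h5 : v - 1 = (Real.log N - Real.log x) / Real.log x := by
      rw [hv]
      field_simp
    rw [h5, abs_div, abs_of_pos hlx0, div_lt_iff₀ hlx0]
    have h6 : |Real.log N - Real.log x| ≤ L := abs_le.2 ⟨by linarith, by linarith⟩
    rw [div_lt_iff₀ hδ] at hlx
    linarith
  have h5 := h2 (show dist (u, v) ((1 : ℝ), (1 : ℝ)) < δ by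
    rw [Prod.dist_eq, Real.dist_eq, Real.dist_eq]
    exact max_lt hu1 hv1)
  have h6 : (x : ℝ) / Real.log x ^ k - Y / Real.log N ^ k = (u * v ^ k - 1) * (Y / Real.log N ^ k) := by
    rw [hu, hv, div_pow]
    field_simp
  rw [h6, abs_mul, abs_of_pos (div_pos hY0 (pow_pos hlogN k))]
  exact mul_le_mul_of_nonneg_right h5.le (div_pos hY0 (pow_pos hlogN k)).le

/-- the last comparison -/
theorem n10_calc (P A B s e ε : ℝ) (hA : 0 < A) (hs : 0 < s) (he : 0 < e) (he1 : 8 * e ≤ 1) (heε : 8 * e ≤ ε)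
    (h1 : |P - A * s| ≤ e * (A * s)) (h2 : |B - A| ≤ e * A) : |P - B * s| ≤ ε * (B * s) := by
  have h3 := abs_le.1 h1
  have h4 := abs_le.1 h2
  have h5 : 0 < A * s := mul_pos hA hs
  have h6 : |B * s - A * s| ≤ e * (A * s) := by
    rw [← sub_mul, abs_mul, abs_of_pos hs, ← mul_assoc]
    exact mul_le_mul_of_nonneg_right h2 hs.le
  have h7 := abs_le.1 h6
  have h8 : A * s ≤ 2 * (B * s) := by nlinarith
  have h9 : 0 < B * s := by linarith
  have h10 : e * (A * s) ≤ e * (2 * (B * s)) := mul_le_mul_of_nonneg_left h8 he.le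
  have h11 : 8 * e * (B * s) ≤ ε * (B * s) := mul_le_mul_of_nonneg_right heε h9.le
  have h12 : 0 < e * (B * s) := mul_pos he h9
  rw [abs_le]
  constructor <;> linarith

/-- Proof. `γ, γ0` the coefficients of `G` (as in `TestG`), `MinP (gsys γ f c)` from `fin_gsys`. `N9b_main` with `ε' = min ε 1 / 8`; `N10_trans`; the series: `z` against `z + 1` (`tendsto_add_atTop_iff_nat 1`); with `x = argCount G N`,
`x / (log x)^(g+1)` is `(N/γ)/(log N)^(g+1)` up to a factor `1 ± ε'` for `N` large (`x/(N/γ) → 1`, `log x/log N → 1`). The `t` of `Adm`: as in `TestG` (`h3.2`). The set of the theorem is contained in the set of `N9b_main`. -/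
theorem N10_main {g d : ℕ} (hd : 1 ≤ d) (G : ℤ[X]) (hG : G.natDegree = 1)
    (hG0 : 0 < G.leadingCoeff) (f : Fin g → ℤ) (hf : ∀ i, 0 < f i) (c : Fin g → Fin d → ℤ)
    (h0 : ∀ i, c i ≠ 0) (hc : ∀ i j, i ≠ j → f i • c j ≠ f j • c i)
    (hA : ∀ γ : ℕ, 0 < γ → ACore (gsys γ f c)) (C A : ℕ) (hA1 : 1 ≤ A) (ε : ℝ) (hε : 0 < ε) :
    ∃ η : ℝ, 0 < η ∧ ∀ M₀ : ℕ, ∃ M : ℕ, M₀ ≤ M ∧ ∀ N : ℕ, M ≤ N → N ≤ M ^ A → ∀ b : Fin g → ℤ, (∀ i, |b i| ≤ C * N) →
      (({t : Fin d → ℕ | (∀ j, t j ≤ N) ∧ (∀ i, 0 ≤ shiftA c b t i) ∧ Admissible (familyA f c b t) G N ∧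
        ¬ AsymA (familyA f c b t) G N ε}.ncard : ℕ) : ℝ) ≤ (N : ℝ) ^ (d - η) := by
  classical
  have hlc : G.leadingCoeff = G.coeff 1 := by
    unfold Polynomial.leadingCoeff
    rw [hG]
  obtain ⟨γ, hγ⟩ : ∃ γ : ℕ, (γ : ℤ) = G.coeff 1 := by
    refine ⟨(G.coeff 1).toNat, Int.toNat_of_nonneg ?_⟩
    omega
  have hγ0 : 0 < (γ : ℤ) := by
    rw [hγ, ← hlc]
    exact hG0
  have hγ1 : 0 < γ := by exact_mod_cast hγ0
  have hGe : ∀ n : ℤ, G.eval n = γ * n + G.coeff 0 := by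
    intro n
    have h1 := Polynomial.eq_X_add_C_of_natDegree_le_one (show G.natDegree ≤ 1 by omega)
    rw [h1, hγ]
    simp
  have hfin := fin_gsys (γ : ℤ) hγ0 f hf c h0 hc
  have hM : Pool.Agent.HUK.MinP (gsys (γ : ℤ) f c) := by
    intro i j hij
    obtain ⟨l, hl⟩ := hfin.2 i j hij
    exact ⟨l, sub_ne_zero.2 hl⟩
  obtain ⟨e, he⟩ : ∃ e : ℝ, e = min ε 1 / 8 := ⟨_, rfl⟩
  have he0 : 0 < e := by
    rw [he]
    have : 0 < min ε 1 := lt_min hε one_pos
    linarith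
  have he1 : 8 * e ≤ 1 := by
    rw [he]
    have := min_le_right ε 1
    linarith
  have heε : 8 * e ≤ ε := by
    rw [he]
    have := min_le_left ε 1
    linarith
  obtain ⟨N1, hN1⟩ := n10_ratio γ ((G.coeff 0).natAbs + 1) (g + 1) hγ1 e he0
  obtain ⟨η, hη, h⟩ := N9b_main hd γ hγ1 (G.coeff 0) f hf c (hA γ hγ1) hM C A hA1 e he0
  refine ⟨η, hη, fun M₀ => ?_⟩
  obtain ⟨M, hM0, h'⟩ := h (M₀ + N1)
  refine ⟨M, by omega, fun N hMN hNM b hb => ?_⟩
  refine le_trans (Nat.cast_le.2 ?_) (h' N hMN hNM b fun i => by push_cast; exact hb i)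
  rw [← Set.ncard_coe_finset]
  refine Set.ncard_le_ncard ?_ (Finset.finite_toSet _)
  rintro t ⟨h1, h2, h3, h4⟩
  have hfe : ∀ i (n : ℤ), (familyA f c b t i).eval n = f i * n + (b i + ∑ j, c i j * t j) := by
    intro i n
    unfold familyA shiftA
    rw [eval_add, eval_mul, eval_C, eval_X, eval_C]
  obtain ⟨t1, t2, t3⟩ := N10_trans G γ hγ1 (G.coeff 0) hGe f c b t N
  refine mem_coe.2 (mem_filter.2 ⟨?_, h2, ?_, ?_⟩)
  · unfold Pool.Agent.Lib.H59P.bx
    rw [Fintype.mem_piFinset]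
    intro j
    rw [mem_range]
    have := h1 j
    omega
  · intro l hl
    have h5 := h3.2 l hl
    push Not at h5
    obtain ⟨n, hn⟩ := h5
    refine ⟨n, fun i hi => hn ?_⟩
    rw [eval_mul, eval_prod]
    revert hi
    refine Fin.cases ?_ (fun i => ?_) i
    · intro hi
      rw [Pool.Agent.H96U.g1_val0] at hi
      refine Dvd.dvd.mul_left ?_ _
      rw [eval_sub, eval_C, hGe]
      have e1 : (N : ℤ) - (γ * n + G.coeff 0) = N - G.coeff 0 - γ * n := by ring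
      rw [e1]
      exact hi
    · intro hi
      rw [Pool.Agent.H96U.g1_valS] at hi
      refine Dvd.dvd.mul_right ?_ _
      refine Dvd.dvd.trans ?_ (Finset.dvd_prod_of_mem _ (mem_univ i))
      rw [hfe]
      exact hi
  · rintro ⟨s, hs, h5, h6⟩
    refine h4 ⟨s, ?_, ?_⟩
    · refine (tendsto_add_atTop_iff_nat 1).1 ?_
      refine h5.congr fun z => ?_
      rw [t2 z]
    · obtain ⟨r1, r2⟩ := hN1 N (by omega) (argCount G N) (by push_cast; exact t3)
      refine n10_calc _ _ _ s e ε r1 hs he0 he1 heε ?_ r2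
      rw [t1]
      have e2 : (N : ℝ) / γ / Real.log N ^ (g + 1) * s = N / γ * (s / Real.log N ^ (g + 1)) := by ring
      rw [e2]
      exact h6

end Pool.Agent.H9A
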