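import Pool.Agent.Lib.H9A.N0
import Pool.Agent.Lib.H9U.Z3

/-!
# ASY, chunk N2 (M): the main term of a cell without exceptional character
-/

open Finset

namespace Pool.Agent.H9A

open Pool.Agent.H9U
open Pool.Agent.Lib.H68T (PC p0)
open Pool.Agent.Lib.H18Q (gk KS SG)
open Pool.Agent.Lib.H59P (Ch SF bx TS Rp MX pr cj uu)

theorem n2_prod {ι : Type*} (s : Finset ι) (a b : ι → ℂ) :
    ‖∏ i ∈ s, (a i + b i) - ∏ i ∈ s, a i‖ ≤ ∏ i ∈ s, (‖a i‖ + ‖b i‖) - ∏ i ∈ s, ‖a i‖ := by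
  classical
  induction s using Finset.induction_on with
  | empty => simp
  | insert j s hj ih =>
    rw [Finset.prod_insert hj, Finset.prod_insert hj, Finset.prod_insert hj, Finset.prod_insert hj]
    have e : (a j + b j) * ∏ i ∈ s, (a i + b i) - a j * ∏ i ∈ s, a i =
        (a j + b j) * (∏ i ∈ s, (a i + b i) - ∏ i ∈ s, a i) + b j * ∏ i ∈ s, a i := by ring
    rw [e]
    refine (norm_add_le _ _).trans ?_
    rw [norm_mul, norm_mul (b j), norm_prod]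
    have h2 : ‖a j + b j‖ * ‖∏ i ∈ s, (a i + b i) - ∏ i ∈ s, a i‖ ≤
        (‖a j‖ + ‖b j‖) * (∏ i ∈ s, (‖a i‖ + ‖b i‖) - ∏ i ∈ s, ‖a i‖) :=
      mul_le_mul (norm_add_le _ _) ih (norm_nonneg _) (by positivity)
    refine (add_le_add h2 le_rfl).trans (le_of_eq ?_)
    ring

open Classical in
theorem n2_MX (p : Ch) : MX p0 (fun _ => 0) 0 p = (if p = p0 then 1 else 0 : ℂ) := by
  unfold MX
  by_cases h : p = p0
  · rw [if_pos h, if_pos h]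
  · rw [if_neg h, if_neg h, if_neg h]

/-- Pointwise bound, as `c3_pt` (`H59P/C3.lean`) for `px = p0`, `th = 0`, with a small error.

Proof. `MX p0 (fun _ => 0) 0 p` is `1` if `p = p0` and `0` else; write `δ` for it. The tuple `(p0, …, p0)` is in `TS k Q D1 p0` (`Rp = 1 ≤ D1`, `1 ≤ Q`) and `cj p0 m = 1`, so
`∑_{p ∈ TS} ∏ δ(p_i) cj(p_i)(m_i) = 1`. The difference is at most `∑_{p ∈ TS} |∏ (δ(p_i) + e_i(p_i)) - ∏ δ(p_i)| ≤ ∑_{p ∈ ∏ PC Q} (∏ (δ(p_i) + ‖e_i(p_i)‖) - ∏ δ(p_i))`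
(`‖cj‖ ≤ 1`; expand the products: `‖∏ (a_i + e_i) - ∏ a_i‖ ≤ ∏ (a_i + ‖e_i‖) - ∏ a_i` for `a_i ≥ 0`, by induction or `Finset.prod_add`), and this is
`∏_i (1 + ∑_p ‖e_i(p)‖) - 1 ≤ (1 + E0)^k - 1` (`Finset.prod_univ_sum`). -/
theorem N2_pt {k : ℕ} (Q D1 : ℕ) (hQ : 1 ≤ Q) (hD1 : 1 ≤ D1) (E0 : ℝ)
    (e : Fin k → Ch → ℂ) (he : ∀ i, ∑ p ∈ PC Q, ‖e i p‖ ≤ E0) (m : Fin k → ℤ) :
    ‖∑ p ∈ TS k Q D1 p0, ∏ i, ((MX p0 (fun _ => 0) 0 (p i) + e i (p i)) * cj (p i) (m i)) - 1‖ ≤ (1 + E0) ^ k - 1 := by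
  classical
  have hp0 : p0 ∈ PC Q := Pool.Agent.Lib.H68T.p0_mem hQ
  obtain ⟨a, ha⟩ : ∃ a : Ch → ℂ, a = fun p => if p = p0 then 1 else 0 := ⟨_, rfl⟩
  obtain ⟨b, hb⟩ : ∃ b : Fin k → Ch → ℂ, b = fun i p => e i p * cj p (m i) := ⟨_, rfl⟩
  have ha1 : a p0 = 1 := by rw [ha]; exact if_pos rfl
  have ha0 : ∀ p, p ≠ p0 → a p = 0 := fun p hp => by rw [ha]; exact if_neg hp
  have e1 : ∀ p : Fin k → Ch, ∏ i, ((MX p0 (fun _ => 0) 0 (p i) + e i (p i)) * cj (p i) (m i)) = ∏ i, (a (p i) + b i (p i)) := by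
    intro p
    refine Finset.prod_congr rfl fun i _ => ?_
    rw [n2_MX, add_mul, hb]
    by_cases h : p i = p0
    · rw [if_pos h, h, ha1, one_mul]
      change cj p0 (m i) + e i p0 * cj p0 (m i) = 1 + e i p0 * cj p0 (m i)
      rw [Pool.Agent.Lib.H59P.c3_cj_p0]
    · rw [if_neg h, zero_mul, ha0 _ h]
  have hc : (fun _ => p0 : Fin k → Ch) ∈ TS k Q D1 p0 := by
    unfold TS
    rw [Finset.mem_filter]
    refine ⟨Fintype.mem_piFinset.2 fun _ => hp0, ?_⟩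
    have h1 : Rp p0 (fun _ : Fin k => p0) ∣ 1 := by
      unfold Rp
      exact Nat.lcm_dvd (one_dvd _) (Finset.lcm_dvd fun i _ => one_dvd _)
    exact (Nat.le_of_dvd one_pos h1).trans hD1
  have hne : ∀ p : Fin k → Ch, p ≠ (fun _ => p0) → ∏ i, a (p i) = 0 := by
    intro p hp
    have h1 : ∃ i, p i ≠ p0 := by
      by_contra hcon
      push Not at hcon
      exact hp (funext hcon)
    obtain ⟨i, hi⟩ := h1
    exact Finset.prod_eq_zero (Finset.mem_univ i) (ha0 _ hi)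
  have hsum : ∑ p ∈ TS k Q D1 p0, ∏ i, a (p i) = 1 := by
    rw [Finset.sum_eq_single (fun _ => p0 : Fin k → Ch) (fun p _ hp => hne p hp) (fun h => absurd hc h)]
    simp only [ha1, Finset.prod_const_one]
  have hdiff : ∑ p ∈ TS k Q D1 p0, ∏ i, ((MX p0 (fun _ => 0) 0 (p i) + e i (p i)) * cj (p i) (m i)) - 1 =
      ∑ p ∈ TS k Q D1 p0, (∏ i, (a (p i) + b i (p i)) - ∏ i, a (p i)) := by
    rw [Finset.sum_sub_distrib, hsum]
    simp only [e1]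
  have hnn : ∀ p : Fin k → Ch, 0 ≤ ∏ i, (‖a (p i)‖ + ‖b i (p i)‖) - ∏ i, ‖a (p i)‖ := fun p =>
    (norm_nonneg _).trans (n2_prod Finset.univ (fun i => a (p i)) (fun i => b i (p i)))
  have hall : ∑ p ∈ Fintype.piFinset (fun _ : Fin k => PC Q), (∏ i, (‖a (p i)‖ + ‖b i (p i)‖) - ∏ i, ‖a (p i)‖) =
      ∏ i : Fin k, ∑ q ∈ PC Q, (‖a q‖ + ‖b i q‖) - ∏ _i : Fin k, ∑ q ∈ PC Q, ‖a q‖ := by
    rw [Finset.sum_sub_distrib, Finset.prod_univ_sum, Finset.prod_univ_sum]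
  have hsa : ∑ q ∈ PC Q, ‖a q‖ = 1 := by
    rw [Finset.sum_eq_single p0 (fun q _ hq => by rw [ha0 q hq, norm_zero]) (fun h => absurd hp0 h), ha1, norm_one]
  have hsb : ∀ i, ∑ q ∈ PC Q, ‖b i q‖ ≤ E0 := by
    intro i
    refine (Finset.sum_le_sum fun q _ => ?_).trans (he i)
    rw [hb, norm_mul]
    exact mul_le_of_le_one_right (norm_nonneg _) (Pool.Agent.Lib.H59P.c3_cj_norm q (m i))
  rw [hdiff]
  refine (norm_sum_le _ _).trans ?_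
  refine (Finset.sum_le_sum fun p _ => n2_prod Finset.univ (fun i => a (p i)) (fun i => b i (p i))).trans ?_
  have hsub : TS k Q D1 p0 ⊆ Fintype.piFinset (fun _ : Fin k => PC Q) := by
    intro p hp
    unfold TS at hp
    exact (Finset.mem_filter.mp hp).1
  refine (Finset.sum_le_sum_of_subset_of_nonneg hsub fun p _ _ => hnn p).trans ?_
  rw [hall, hsa, Finset.prod_const_one]
  refine sub_le_sub_right ?_ 1
  have h3 : ∏ i : Fin k, ∑ q ∈ PC Q, (‖a q‖ + ‖b i q‖) ≤ ∏ _i : Fin k, (1 + E0) := by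
    refine Finset.prod_le_prod (fun i _ => Finset.sum_nonneg fun q _ => add_nonneg (norm_nonneg _) (norm_nonneg _)) fun i _ => ?_
    rw [Finset.sum_add_distrib, hsa]
    exact add_le_add le_rfl (hsb i)
  refine h3.trans (le_of_eq ?_)
  rw [Finset.prod_const, Finset.card_univ, Fintype.card_fin]

/-- Proof. `z3_trunc` (`H9U/Z3.lean`) with `px = p0` gives the second term. The complete sum `∑_{p ∈ TS} (∏ c_i(p_i)) MQS p` against `SSS`: as in `Z3S` replace `c_i` by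
`MX p0 _ 0 + e_i` (`e_i p = c_i p - MX p` if `p.1 ≤ D1`, else `0`), and as in `C3S` (`H9U/C3.lean`) both sides are means over `n < Q!` of `∏_i uu (pr Q) (val i) ≥ 0` times the two sides of `N2_pt`
(`M5S_SS` for the mean of `∏ uu`). -/
theorem N2_cell {k d : ℕ} (S : Sys k d) (b : Fin k → ℤ) (t : Fin d → ℤ) (Q D D1 : ℕ) (hQ : 1 ≤ Q)
    (hDQ : D ≤ Q) (hD1 : D1 ≤ D) (hD11 : 1 ≤ D1) (E0 : ℝ) (M : ℝ)
    (c : Fin k → Ch → ℂ) (hc : ∀ i, ∑ p ∈ PC Q, ‖c i p‖ ≤ M) (eb : Fin k → Ch → ℝ)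
    (heb0 : ∀ i, ∀ p ∈ PC Q, 0 ≤ eb i p) (heb : ∀ i, ∑ p ∈ PC Q, eb i p ≤ E0)
    (hce : ∀ i, ∀ p ∈ PC Q, p.1 ≤ D1 → ‖c i p - MX p0 (fun _ => 0) 0 p‖ ≤ eb i p) (τ : ℝ)
    (hτ : ∀ R : ℕ, 1 ≤ R → R ≤ D1 →
      |∑ e ∈ SF (D / R) R, tdS S b t e - SSS S b t ((pr Q).filter (fun l : ℕ => ¬ l ∣ R))| ≤ τ) :
    ‖MCS S b t Q D D1 p0 c - ((SSS S b t (pr Q) : ℝ) : ℂ)‖ ≤
      ((1 + E0) ^ k - 1) * SSS S b t (pr Q) + (2 * M * (1 + Real.log Q)) ^ k * τ := by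
  classical
  have hp0 : p0 ∈ PC Q := Pool.Agent.Lib.H68T.p0_mem hQ
  have z1 := z3_trunc S b t Q D D1 hDQ hD1 p0 hp0 hD11 M c hc τ hτ
  let e : Fin k → Ch → ℂ := fun i p => if p.1 ≤ D1 then c i p - MX p0 (fun _ => 0) 0 p else 0
  have he : ∀ i, ∑ p ∈ PC Q, ‖e i p‖ ≤ E0 := by
    intro i
    refine (Finset.sum_le_sum fun p hp => ?_).trans (heb i)
    show ‖if p.1 ≤ D1 then c i p - MX p0 (fun _ => 0) 0 p else 0‖ ≤ eb i p
    split_ifs with h1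
    · exact hce i p hp h1
    · rw [norm_zero]
      exact heb0 i p hp
  have hS : ∑ p ∈ TS k Q D1 p0, (∏ i, (MX p0 (fun _ => 0) 0 (p i) + e i (p i))) * MQS S b t Q p =
      ∑ p ∈ TS k Q D1 p0, (∏ i, c i (p i)) * MQS S b t Q p := by
    refine Finset.sum_congr rfl fun p hp => ?_
    obtain ⟨hR0, hRle, hd, -, -⟩ := z3_Rp Q D1 p0 hp0 p hp
    congr 1
    refine Finset.prod_congr rfl fun i _ => ?_
    have h1 : (p i).1 ≤ D1 := (Nat.le_of_dvd hR0 (hd i)).trans hRle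
    show MX p0 (fun _ => 0) 0 (p i) + (if (p i).1 ≤ D1 then c i (p i) - MX p0 (fun _ => 0) 0 (p i) else 0) = c i (p i)
    rw [if_pos h1]
    ring
  have hQ0 : (0 : ℝ) < (Q.factorial : ℝ) := by exact_mod_cast Nat.factorial_pos Q
  have hU : ∀ n : ℤ, 0 ≤ ∏ i : Fin k, uu (pr Q) (S.val b n t i) := fun n =>
    Finset.prod_nonneg fun i _ => Pool.Agent.Lib.H59P.M3a_uu_nonneg _ (Pool.Agent.Lib.H59P.c3_pr Q) _
  have h1 : ∑ p ∈ TS k Q D1 p0, (∏ i, (MX p0 (fun _ => 0) 0 (p i) + e i (p i))) * MQS S b t Q p =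
      (∑ n ∈ range Q.factorial, ((∏ i : Fin k, uu (pr Q) (S.val b (n : ℤ) t i) : ℝ) : ℂ) *
        ∑ p ∈ TS k Q D1 p0, ∏ i, ((MX p0 (fun _ => 0) 0 (p i) + e i (p i)) * cj (p i) (S.val b (n : ℤ) t i))) /
        ((Q.factorial : ℝ) : ℂ) := by
    unfold MQS mn
    rw [Finset.sum_div]
    simp only [Finset.mul_sum, Finset.sum_div, mul_div_assoc']
    rw [Finset.sum_comm]
    refine Finset.sum_congr rfl fun n _ => ?_
    refine Finset.sum_congr rfl fun p _ => ?_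
    unfold PhV
    rw [Finset.prod_mul_distrib, Finset.prod_mul_distrib, Complex.ofReal_prod]
    push_cast
    ring
  have z2 : ‖∑ p ∈ TS k Q D1 p0, (∏ i, c i (p i)) * MQS S b t Q p - ((SSS S b t (pr Q) : ℝ) : ℂ)‖ ≤
      ((1 + E0) ^ k - 1) * SSS S b t (pr Q) := by
    rw [← hS, h1, ← M5S_SS S b t Q]
    rw [Complex.ofReal_div, ← sub_div, norm_div, Complex.norm_real, Real.norm_eq_abs, abs_of_pos hQ0, mul_div_assoc']
    refine div_le_div_of_nonneg_right ?_ hQ0.le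
    rw [Complex.ofReal_sum, ← Finset.sum_sub_distrib, Finset.mul_sum]
    refine (norm_sum_le _ _).trans (Finset.sum_le_sum fun n _ => ?_)
    have e2 : ∀ U V : ℂ, U * V - U = U * (V - 1) := fun U V => by ring
    rw [e2, norm_mul, Complex.norm_real, Real.norm_eq_abs, abs_of_nonneg (hU n)]
    have hpt := N2_pt Q D1 hQ hD11 E0 e he (fun i => S.val b (n : ℤ) t i)
    refine (mul_le_mul_of_nonneg_left hpt (hU n)).trans (le_of_eq ?_)
    ring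
  have e3 : MCS S b t Q D D1 p0 c - ((SSS S b t (pr Q) : ℝ) : ℂ) =
      (∑ p ∈ TS k Q D1 p0, (∏ i, c i (p i)) * MQS S b t Q p - ((SSS S b t (pr Q) : ℝ) : ℂ)) +
      (MCS S b t Q D D1 p0 c - ∑ p ∈ TS k Q D1 p0, (∏ i, c i (p i)) * MQS S b t Q p) := by ring
  rw [e3]
  exact (norm_add_le _ _).trans (add_le_add z2 z1)

end Pool.Agent.H9A
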