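import Pool.Agent.Lib.H9A.N2
import Pool.Agent.Lib.H9U.Z4B

/-!
# ASY, chunk N3 (M): the main terms of all cells, for every good `t`
-/

open Finset

namespace Pool.Agent.H9A

open Pool.Agent.H9U
open Pool.Agent.Lib.H68T (lp Lk PC p0)
open Pool.Agent.Lib.H18Q (gk KS SG Bc RegP)
open Pool.Agent.Lib.H59P (Ch SF bx TS Rp MX pr)

theorem n3_pr {Q l : ℕ} (hl : l ∈ pr Q) : l.Prime := by
  unfold pr at hl
  exact (mem_filter.1 hl).2

/-- Proof. Copy `Z4B_low` (`H9U/Z4B.lean`). `E0` with `(1 + E0)^k - 1 ≤ ε/4` (for example `E0 = min 1 (ε / (4 k 2^k))`); `K = max K1 16`, `K1` of `UM_mass`; `δ3 = 1/5`.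
`H = X / Q^8`. For each cell `j` the point `m_i = val b (jH) t i` is in `[Xs i, 4 Xs i]`. `N2_cell` with `Q := Q'`, `D = Q'`, `D1 = √Q'` rounded down, `c i p = Bc Q (Xs i) p m_i`, `M` from `UM_mass`, `eb` from `MdB.cf`
(restricted to `PC Q' ⊆ PC Q`; the sum is at most `1 * E0`; `MX p0 (fun _ => 0) m p` does not depend on `m`), `τ = X^(-θ/40)`: for `1 ≤ R ≤ D1`, `D/R ≥ D1 ≥ Q'^(1/5) ≥ X^(θ/5)` (`core_case1` in `H9U/CORE.lean` with `r = 1`),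
`T4S_tail` with exponent `θ/40`. The error `(2M(1+log Q'))^k τ` is at most `(ε/4) exp(-4k) ≤ (ε/4) SSS` for `X` large (`z4b_log`, `T1S_low`). So each cell is `H SSS` up to `(ε/2) H SSS`, and
`0 ≤ L - H (L/H) ≤ H ≤ X/Q^8 ≤ (ε/2) L` for `X` large. -/
theorem N3_range {k d : ℕ} (hk : 1 ≤ k) (S : Sys k d) (ha : ∀ i, S.a i ≠ 0) (ε : ℝ) (hε : 0 < ε) : ∃ K E0 : ℝ, 1 ≤ K ∧ 0 < E0 ∧
    ∀ Cr θ : ℝ, 1 ≤ Cr → 0 < θ → ∀ C0 : ℕ, ∃ X0 : ℕ, ∀ Q Q' X : ℕ, X0 ≤ X →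
    ∀ Xs : Fin k → ℕ, (∀ i, X ≤ Xs i ∧ Xs i ≤ C0 * X) → (∀ i, Rgm K Cr θ Q Q' (Xs i)) →
    (∀ i, MdB Q (Xs i) 1 E0 p0 (fun _ => 0)) →
    ∀ (b : Fin k → ℤ) (L : ℕ) (t : Fin d → ℤ), X ≤ L → S.Adm b t →
    (∀ i j, i ≠ j → S.minr b t i j ≠ 0) → (∀ i, ∀ n ∈ range L, S.val b n t i ∈ JJ (Xs i)) →
    ‖∑ j ∈ range (L / (X / Q ^ 8)), ((X / Q ^ 8 : ℕ) : ℂ) * MCS S b t Q' Q' (Nat.sqrt Q') p0
        (fun i p => Bc Q (Xs i) p (S.val b ((j * (X / Q ^ 8) : ℕ) : ℤ) t i)) - ((L * SSS S b t (pr Q') : ℝ) : ℂ)‖ ≤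
      ε * (L * SSS S b t (pr Q')) := by
  obtain ⟨K1, C1, hK1, hC1, hmass⟩ := Pool.Agent.Lib.H59T.UM_mass
  have hkr : (0 : ℝ) < k := by exact_mod_cast hk
  obtain ⟨E0, hE0⟩ : ∃ E0 : ℝ, E0 = Real.log (1 + ε / 4) / k := ⟨_, rfl⟩
  have hE00 : 0 < E0 := by
    rw [hE0]
    exact div_pos (Real.log_pos (by linarith)) hkr
  have hE0k : (1 + E0) ^ k - 1 ≤ ε / 4 := by
    have h1 : (1 + E0) ^ k ≤ Real.exp E0 ^ k := by
      refine pow_le_pow_left₀ (by linarith) ?_ k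
      have := Real.add_one_le_exp E0
      linarith
    have h2 : Real.exp E0 ^ k = 1 + ε / 4 := by
      rw [← Real.exp_nat_mul, hE0, mul_div_cancel₀ _ hkr.ne', Real.exp_log (by linarith)]
    linarith
  refine ⟨max K1 16, E0, hK1.trans (le_max_left _ _), hE00, fun Cr θ hCr hθ C0 => ?_⟩
  obtain ⟨XT, hXT⟩ := T4S_tail S ha (θ / 16) (by positivity)
  obtain ⟨XL, hXL⟩ := z4b_log C1 hC1 k (θ / 32) (by positivity)
  have hev1 := ((tendsto_rpow_neg_atTop (show 0 < θ / 32 by positivity)).comp tendsto_natCast_atTop_atTop).eventually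
    (eventually_le_nhds (show (0 : ℝ) < ε / 2 by positivity))
  obtain ⟨XE, hXE⟩ := Filter.eventually_atTop.1 hev1
  have hev2 := ((tendsto_rpow_atTop hθ).comp tendsto_natCast_atTop_atTop).eventually (Filter.eventually_ge_atTop (2 / ε))
  obtain ⟨XG, hXG⟩ := Filter.eventually_atTop.1 hev2
  obtain ⟨A, hA⟩ : ∃ A : ℕ, ∀ i, |S.a i| ≤ (A : ℤ) := by
    refine ⟨∑ i, (S.a i).natAbs, fun i => ?_⟩
    rw [Int.abs_eq_natAbs]
    exact_mod_cast Finset.single_le_sum (f := fun i => (S.a i).natAbs) (fun _ _ => Nat.zero_le _) (mem_univ i)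
  refine ⟨max (max (max XT XL) (max XE XG)) (max (C0 + 2) (8 * A * C0)), ?_⟩
  intro Q Q' X hX Xs hXs hR hM b L t hL hAdm hmin hJ
  have hXT' : XT ≤ X := ((le_max_left _ _).trans ((le_max_left _ _).trans (le_max_left _ _))).trans hX
  have hXL' : XL ≤ X := ((le_max_right _ _).trans ((le_max_left _ _).trans (le_max_left _ _))).trans hX
  have hXE' : XE ≤ X := ((le_max_left _ _).trans ((le_max_right _ _).trans (le_max_left _ _))).trans hX
  have hXG' : XG ≤ X := ((le_max_right _ _).trans ((le_max_right _ _).trans (le_max_left _ _))).trans hX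
  have hXC : C0 + 2 ≤ X := ((le_max_left _ _).trans (le_max_right _ _)).trans hX
  have hXA : 8 * A * C0 ≤ X := ((le_max_right _ _).trans (le_max_right _ _)).trans hX
  have hX2 : 2 ≤ X := (Nat.le_add_left _ _).trans hXC
  have hXr : (1 : ℝ) ≤ X := by exact_mod_cast (by omega : 1 ≤ X)
  have hXp : (0 : ℝ) < X := by linarith
  let i0 : Fin k := ⟨0, hk⟩
  have hreg : RegP 16 Q (Xs i0) := (hR i0).reg.mono (by positivity) (le_max_right _ _)
  have hQ16 : (16 : ℝ) ≤ Q := hreg.Q_ge (by norm_num)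
  have hQn : 16 ≤ Q := by exact_mod_cast hQ16
  have hXs0 : 0 < Xs i0 := by
    have := (hXs i0).1
    omega
  have hlog : Real.log (Xs i0) ≤ 2 * Real.log X := by
    have h1 : ((Xs i0 : ℕ) : ℝ) ≤ (X : ℝ) * X := by
      have h2 : Xs i0 ≤ X * X := (hXs i0).2.trans (Nat.mul_le_mul_right X (by omega))
      exact_mod_cast h2
    have h2 := Real.log_le_log (by exact_mod_cast hXs0) h1
    rw [Real.log_mul hXp.ne' hXp.ne'] at h2
    linarith
  have hQX : Q ^ 8 ≤ X := by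
    have h1 := hreg.logQ_le (by norm_num)
    have h2 : Real.log ((Q : ℝ) ^ 8) ≤ Real.log X := by
      rw [Real.log_pow]
      push_cast
      linarith
    have h3 : (Q : ℝ) ^ 8 ≤ X := (Real.log_le_log_iff (by positivity) hXp).1 h2
    exact_mod_cast h3
  obtain ⟨H, hH⟩ : ∃ H : ℕ, H = X / Q ^ 8 := ⟨_, rfl⟩
  have hQ8 : 0 < Q ^ 8 := by positivity
  have hH1 : 1 ≤ H := by
    rw [hH]
    exact Nat.div_pos hQX hQ8
  rw [← hH]
  -- bounds for the levels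
  have hQ'1 : 1 ≤ Q' := by
    have h1 := (hR i0).low
    have h2 : (0 : ℝ) < ((Xs i0 : ℕ) : ℝ) ^ θ := Real.rpow_pos_of_pos (by exact_mod_cast hXs0) θ
    have h3 : (0 : ℝ) < Q' := lt_of_lt_of_le h2 h1
    exact_mod_cast h3
  have hQ'Q : Q' ≤ Q := (hR i0).le
  have hQQ8 : Q ≤ Q ^ 8 := by
    calc Q = Q ^ 1 := (pow_one Q).symm
      _ ≤ Q ^ 8 := Nat.pow_le_pow_right (by omega) (by norm_num)
  have hQ'X : Q' ≤ X := hQ'Q.trans (hQQ8.trans hQX)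
  have hXQ' : (X : ℝ) ^ θ ≤ Q' := by
    refine le_trans ?_ (hR i0).low
    exact Real.rpow_le_rpow hXp.le (by exact_mod_cast (hXs i0).1) hθ.le
  have hHL : (H : ℝ) ≤ ε / 2 * L := by
    have h1 : 2 / ε ≤ (X : ℝ) ^ θ := hXG X hXG'
    have h2 : (Q' : ℝ) ≤ ((Q ^ 8 : ℕ) : ℝ) := by exact_mod_cast hQ'Q.trans hQQ8
    have h3 : 2 / ε ≤ ((Q ^ 8 : ℕ) : ℝ) := h1.trans (hXQ'.trans h2)
    have h4 : (H : ℝ) * ((Q ^ 8 : ℕ) : ℝ) ≤ X := by
      rw [hH]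
      exact_mod_cast Nat.div_mul_le_self X (Q ^ 8)
    have h5 : (X : ℝ) ≤ L := by exact_mod_cast hL
    have h6 : (0 : ℝ) ≤ H := Nat.cast_nonneg _
    have h7 : (H : ℝ) * (2 / ε) ≤ L := (mul_le_mul_of_nonneg_left h3 h6).trans (h4.trans h5)
    have h8 : (H : ℝ) = ε / 2 * (H * (2 / ε)) := by
      field_simp
    rw [h8]
    exact mul_le_mul_of_nonneg_left h7 (by positivity)
  obtain ⟨D1, hD1⟩ : ∃ D1 : ℕ, D1 = Nat.sqrt Q' := ⟨_, rfl⟩
  rw [← hD1]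
  have hDD : D1 * D1 ≤ Q' := by
    rw [hD1]
    exact Nat.sqrt_le Q'
  have hD11 : 1 ≤ D1 := by
    rw [hD1]
    exact Nat.sqrt_pos.2 hQ'1
  have hD1D : D1 ≤ Q' := (Nat.le_mul_of_pos_left D1 hD11).trans hDD
  have hXD : (X : ℝ) ^ (θ / 2) ≤ 2 * D1 := by
    have h1 : Q' < (D1 + 1) * (D1 + 1) := by
      rw [hD1]
      exact Nat.lt_succ_sqrt Q'
    have h2 : (Q' : ℝ) ≤ (2 * D1) ^ 2 := by
      have h3 : Q' ≤ (2 * D1) ^ 2 := by nlinarith
      exact_mod_cast h3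
    have h4 : ((X : ℝ) ^ (θ / 2)) ^ 2 = (X : ℝ) ^ θ := by
      rw [← Real.rpow_natCast, ← Real.rpow_mul hXp.le]
      congr 1
      push_cast
      ring
    have h5 : ((X : ℝ) ^ (θ / 2)) ^ 2 ≤ (2 * D1) ^ 2 := by
      rw [h4]
      exact hXQ'.trans h2
    exact le_of_sq_le_sq h5 (by positivity)
  have hPC : PC Q' ⊆ PC Q := by
    intro p hp
    have h1 := Pool.Agent.Lib.H68T.mem_PC.1 hp
    exact Pool.Agent.Lib.H68T.mem_PC.2 ⟨h1.1, h1.2.1.trans hQ'Q, h1.2.2⟩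
  -- the values
  have hval : ∀ i, ∀ n ∈ range L, (Xs i : ℤ) ≤ S.val b n t i ∧ S.val b n t i ≤ 4 * Xs i := by
    intro i n hn
    have h1 := hJ i n hn
    unfold JJ at h1
    rw [mem_Ico] at h1
    omega
  have h0L : 0 ∈ range L := mem_range.2 (by omega)
  have hmin' : ∀ i j, i ≠ j → S.minr b t i j ≠ 0 ∧ |S.minr b t i j| ≤ (X : ℤ) ^ 3 := by
    intro i j hij
    refine ⟨hmin i j hij, ?_⟩
    have hv : ∀ i, |S.val b 0 t i| ≤ 4 * (C0 : ℤ) * X := by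
      intro i
      have h1 := hval i 0 h0L
      have h2 : (Xs i : ℤ) ≤ C0 * X := by exact_mod_cast (hXs i).2
      rw [Nat.cast_zero] at h1
      rw [abs_le]
      constructor
      · have h3 : (0 : ℤ) ≤ Xs i := Int.natCast_nonneg _
        nlinarith
      · linarith
    have hA0 : (0 : ℤ) ≤ A := Int.natCast_nonneg A
    have h3 : |S.minr b t i j| ≤ A * (4 * (C0 : ℤ) * X) + A * (4 * (C0 : ℤ) * X) := by
      unfold Sys.minr
      refine (abs_sub _ _).trans (add_le_add ?_ ?_)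
      · rw [abs_mul]
        exact mul_le_mul (hA i) (hv j) (abs_nonneg _) hA0
      · rw [abs_mul]
        exact mul_le_mul (hA j) (hv i) (abs_nonneg _) hA0
    have h4 : (8 * A * C0 : ℤ) ≤ X := by exact_mod_cast hXA
    have h5 : (1 : ℤ) ≤ X := by exact_mod_cast (by omega : 1 ≤ X)
    calc |S.minr b t i j| ≤ A * (4 * (C0 : ℤ) * X) + A * (4 * (C0 : ℤ) * X) := h3
      _ = (8 * A * C0 : ℤ) * X := by ring
      _ ≤ X * X := mul_le_mul_of_nonneg_right h4 (by linarith)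
      _ ≤ (X : ℤ) ^ 3 := by nlinarith [mul_nonneg (by linarith : (0 : ℤ) ≤ X) (by linarith : (0 : ℤ) ≤ X)]
  -- the tail of the singular series
  have hτ : ∀ R : ℕ, 1 ≤ R → R ≤ D1 →
      |∑ e ∈ SF (Q' / R) R, tdS S b t e - SSS S b t ((Pool.Agent.Lib.H59P.pr Q').filter (fun l : ℕ => ¬ l ∣ R))| ≤
        2 * (X : ℝ) ^ (-(θ / 16)) := by
    intro R hR1 hRD
    have h1 : D1 ≤ Q' / R := by
      rw [Nat.le_div_iff_mul_le hR1]
      exact (Nat.mul_le_mul_left D1 hRD).trans hDD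
    have h2 : 1 ≤ Q' / R := hD11.trans h1
    have h3 : Q' / R ≤ Q' := Nat.div_le_self _ _
    refine (hXT X Q' hXT' hQ'X b t hmin' R (Q' / R) h2 h3).trans ?_
    have hXt : (0 : ℝ) < (X : ℝ) ^ (θ / 2) := Real.rpow_pos_of_pos hXp _
    have h4 : (X : ℝ) ^ (θ / 2) / 2 ≤ ((Q' / R : ℕ) : ℝ) := by
      have h5 : (D1 : ℝ) ≤ ((Q' / R : ℕ) : ℝ) := by exact_mod_cast h1
      linarith
    have h5 : ((Q' / R : ℕ) : ℝ) ^ (-(1 / 4) : ℝ) ≤ ((X : ℝ) ^ (θ / 2) / 2) ^ (-(1 / 4) : ℝ) :=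
      Real.rpow_le_rpow_of_nonpos (by positivity) h4 (by norm_num)
    have h6 : ((X : ℝ) ^ (θ / 2) / 2) ^ (-(1 / 4) : ℝ) ≤ 2 * (X : ℝ) ^ (-(θ / 8)) := by
      rw [div_eq_mul_inv, Real.mul_rpow hXt.le (by norm_num), ← Real.rpow_mul hXp.le, Real.inv_rpow (by norm_num), ← Real.rpow_neg (by norm_num), neg_neg]
      have h7 : (2 : ℝ) ^ ((1 : ℝ) / 4) ≤ 2 := by
        calc (2 : ℝ) ^ ((1 : ℝ) / 4) ≤ (2 : ℝ) ^ (1 : ℝ) := Real.rpow_le_rpow_of_exponent_le (by norm_num) (by norm_num)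
          _ = 2 := Real.rpow_one 2
      have h8 : θ / 2 * (-(1 / 4) : ℝ) = -(θ / 8) := by ring
      rw [h8, mul_comm]
      exact mul_le_mul_of_nonneg_right h7 (by positivity)
    calc ((Q' / R : ℕ) : ℝ) ^ (-(1 / 4) : ℝ) * (X : ℝ) ^ (θ / 16)
        ≤ (2 * (X : ℝ) ^ (-(θ / 8))) * (X : ℝ) ^ (θ / 16) :=
          mul_le_mul_of_nonneg_right (h5.trans h6) (by positivity)
      _ = 2 * (X : ℝ) ^ (-(θ / 16)) := by
          rw [mul_assoc, ← Real.rpow_add hXp]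
          ring_nf
  obtain ⟨SS, hSS⟩ : ∃ SS : ℝ, SS = SSS S b t (pr Q') := ⟨_, rfl⟩
  have hSSlow : Real.exp (-(4 * k : ℝ)) ≤ SS := by
    rw [hSS]
    exact T1S_low S b t hAdm (pr Q') (fun l hl => n3_pr hl)
  have hSS0 : 0 < SS := (Real.exp_pos _).trans_le hSSlow
  have herr : (2 * C1 * (1 + Real.log Q')) ^ k * (2 * (X : ℝ) ^ (-(θ / 16))) ≤ ε / 4 * SS := by
    have h1 := hXL X hXL'
    have hlQ : Real.log Q' ≤ Real.log X := Real.log_le_log (by exact_mod_cast hQ'1) (by exact_mod_cast hQ'X)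
    have hlQ0 : 0 ≤ Real.log Q' := Real.log_nonneg (by exact_mod_cast hQ'1)
    have h2 : (2 * C1 * (1 + Real.log Q')) ^ k ≤ (2 * C1 * (1 + Real.log X)) ^ k := by
      gcongr
    have h3 : (X : ℝ) ^ (-(θ / 32)) ≤ ε / 2 := hXE X hXE'
    have h4 : Real.exp (4 * k) * Real.exp (-(4 * k : ℝ)) = 1 := by
      rw [← Real.exp_add, add_neg_cancel, Real.exp_zero]
    have h5 : (X : ℝ) ^ (θ / 32) * (X : ℝ) ^ (-(θ / 16)) = (X : ℝ) ^ (-(θ / 32)) := by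
      rw [← Real.rpow_add hXp]
      ring_nf
    have hx8 : (0 : ℝ) < (X : ℝ) ^ (-(θ / 16)) := Real.rpow_pos_of_pos hXp _
    have he : (0 : ℝ) < Real.exp (-(4 * k : ℝ)) := Real.exp_pos _
    calc (2 * C1 * (1 + Real.log Q')) ^ k * (2 * (X : ℝ) ^ (-(θ / 16)))
        ≤ (2 * C1 * (1 + Real.log X)) ^ k * (2 * (X : ℝ) ^ (-(θ / 16))) := mul_le_mul_of_nonneg_right h2 (by positivity)
      _ = ((2 * C1 * (1 + Real.log X)) ^ k * (4 * Real.exp (4 * k))) * (X : ℝ) ^ (-(θ / 16)) * Real.exp (-(4 * k : ℝ)) / 2 := by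
          linear_combination (-(2 * (2 * C1 * (1 + Real.log X)) ^ k * (X : ℝ) ^ (-(θ / 16)))) * h4
      _ ≤ (X : ℝ) ^ (θ / 32) * (X : ℝ) ^ (-(θ / 16)) * Real.exp (-(4 * k : ℝ)) / 2 := by
          gcongr
      _ ≤ ε / 2 * Real.exp (-(4 * k : ℝ)) / 2 := by
          rw [h5]
          gcongr
      _ ≤ ε / 4 * SS := by
          nlinarith [mul_le_mul_of_nonneg_left hSSlow hε.le]
  -- one cell
  have hcell : ∀ j ∈ range (L / H),
      ‖MCS S b t Q' Q' D1 p0 (fun i p => Bc Q (Xs i) p (S.val b ((j * H : ℕ) : ℤ) t i)) - ((SS : ℝ) : ℂ)‖ ≤ ε / 2 * SS := by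
    intro j hj
    rw [mem_range] at hj
    have hjL : j * H ∈ range L := by
      rw [mem_range]
      have h1 : (j + 1) * H ≤ L := (Nat.mul_le_mul_right H hj).trans (Nat.div_mul_le_self L H)
      have h2 : (j + 1) * H = j * H + H := by ring
      omega
    have hm := fun i => hval i (j * H) hjL
    choose mb hmb1 hmb2 hmb3 using fun i => hmass Q (Xs i) ((hR i).reg.mono (by positivity) (le_max_left _ _))
    choose eb heb1 heb2 heb3 using fun i => (hM i).cf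
    have hZ := N2_cell S b t Q' Q' D1 hQ'1 le_rfl hD1D hD11 E0 C1
      (fun i p => Bc Q (Xs i) p (S.val b ((j * H : ℕ) : ℤ) t i))
      (fun i => by
        refine (Finset.sum_le_sum fun p hp => hmb3 i _ (hm i).1 (hm i).2 p (hPC hp)).trans ?_
        exact (Finset.sum_le_sum_of_subset_of_nonneg hPC fun p hp _ => hmb1 i p hp).trans (hmb2 i))
      eb (fun i p hp => heb1 i p (hPC hp))
      (fun i => by
        refine (Finset.sum_le_sum_of_subset_of_nonneg hPC fun p hp _ => heb1 i p hp).trans ?_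
        have := heb2 i
        linarith)
      (fun i p hp _ => heb3 i _ (hm i).1 (hm i).2 p (hPC hp)) _ hτ
    rw [← hSS] at hZ
    refine hZ.trans ?_
    have h1 : ((1 + E0) ^ k - 1) * SS ≤ ε / 4 * SS := mul_le_mul_of_nonneg_right hE0k hSS0.le
    linarith
  rw [← hSS]
  have hLH : ((L / H : ℕ) : ℝ) * H ≤ L := by exact_mod_cast Nat.div_mul_le_self L H
  have hLH2 : (L : ℝ) ≤ ((L / H : ℕ) : ℝ) * H + H := by
    have h1 := Nat.div_add_mod L H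
    have h2 := Nat.mod_lt L hH1
    rw [mul_comm H] at h1
    have h3 : L ≤ L / H * H + H := by omega
    exact_mod_cast h3
  have hsplit : ∑ j ∈ range (L / H), ((H : ℕ) : ℂ) * MCS S b t Q' Q' D1 p0
        (fun i p => Bc Q (Xs i) p (S.val b ((j * H : ℕ) : ℤ) t i)) - ((L * SS : ℝ) : ℂ) =
      ∑ j ∈ range (L / H), ((H : ℕ) : ℂ) * (MCS S b t Q' Q' D1 p0
        (fun i p => Bc Q (Xs i) p (S.val b ((j * H : ℕ) : ℤ) t i)) - ((SS : ℝ) : ℂ)) -
        ((((L : ℝ) - ((L / H : ℕ) : ℝ) * H) * SS : ℝ) : ℂ) := by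
    simp only [mul_sub, Finset.sum_sub_distrib, Finset.sum_const, card_range, nsmul_eq_mul]
    push_cast
    ring
  rw [hsplit]
  refine (norm_sub_le _ _).trans ?_
  have h1 : ‖∑ j ∈ range (L / H), ((H : ℕ) : ℂ) * (MCS S b t Q' Q' D1 p0
        (fun i p => Bc Q (Xs i) p (S.val b ((j * H : ℕ) : ℤ) t i)) - ((SS : ℝ) : ℂ))‖ ≤
      ((L / H : ℕ) : ℝ) * (H * (ε / 2 * SS)) := by
    refine (norm_sum_le _ _).trans ?_
    calc ∑ j ∈ range (L / H), ‖((H : ℕ) : ℂ) * (MCS S b t Q' Q' D1 p0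
          (fun i p => Bc Q (Xs i) p (S.val b ((j * H : ℕ) : ℤ) t i)) - ((SS : ℝ) : ℂ))‖
        ≤ ∑ _j ∈ range (L / H), (H : ℝ) * (ε / 2 * SS) := by
          refine Finset.sum_le_sum fun j hj => ?_
          rw [norm_mul, Complex.norm_natCast]
          exact mul_le_mul_of_nonneg_left (hcell j hj) (Nat.cast_nonneg H)
      _ = ((L / H : ℕ) : ℝ) * (H * (ε / 2 * SS)) := by
          rw [sum_const, card_range, nsmul_eq_mul]
  have h2 : ‖((((L : ℝ) - ((L / H : ℕ) : ℝ) * H) * SS : ℝ) : ℂ)‖ ≤ H * SS := by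
    rw [Complex.norm_real, Real.norm_eq_abs, abs_of_nonneg (mul_nonneg (by linarith) hSS0.le)]
    exact mul_le_mul_of_nonneg_right (by linarith) hSS0.le
  have h3 : ((L / H : ℕ) : ℝ) * (H * (ε / 2 * SS)) ≤ L * (ε / 2 * SS) := by
    rw [← mul_assoc]
    exact mul_le_mul_of_nonneg_right hLH (by positivity)
  have h4 : (H : ℝ) * SS ≤ ε / 2 * L * SS := mul_le_mul_of_nonneg_right hHL hSS0.le
  calc _ ≤ ((L / H : ℕ) : ℝ) * (H * (ε / 2 * SS)) + H * SS := add_le_add h1 h2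
    _ ≤ L * (ε / 2 * SS) + ε / 2 * L * SS := add_le_add h3 h4
    _ = ε * (L * SS) := by ring

end Pool.Agent.H9A
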