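import Pool.Agent.Lib.H9A.N3
import Pool.Agent.Lib.HUK.D33
import Pool.Agent.Lib.H9U.CORE

/-!
# ASY, chunk N4 (M): few `t` without the asymptotic formula for the weighted sum, given data
-/

open Finset

namespace Pool.Agent.H9A

open Pool.Agent.H9U
open Pool.Agent.HUK (MinP TelP D31_minor D32_avg)
open Pool.Agent.Lib.H68T (lp Lk PC p0)
open Pool.Agent.Lib.H18Q (gk KS SG Bc RegP)
open Pool.Agent.Lib.H59P (Ch SF bx TS Rp MX pr)

open Classical in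
/-- Proof. Copy `D33_count` (`HUK/D33.lean`), `δ3 = 1/5`, with `D = Q'`, `D1 = √Q'` rounded down, `D2 = ⌈Q'^(1/5)⌉`, `px = p0` in `D32_avg` (`core_case1` in `H9U/CORE.lean` with `r = 1` for `p0.1 * D2 ≤ D1`; `p0 ∈ PC Q'`),
exponent `κ'`. If `T < Q'^(10 (k+1))` the count is at most `T^d ≤ X^(d-1/4)`. Otherwise let `E(t)` be the summand of `D32_avg`; by `N3_range` for `ε/2` every `t` of the set has a vanishing minor
(at most `k² T^(d-1)`, `D31_minor`) or `E(t) ≥ (ε/2) L SSS ≥ (ε/2) X exp(-4k)` (`T1S_low`), and the number of the latter is at most `(2/ε) e^(4k) X^(d-κ')`. `κ = min κ' 1/4`. -/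
theorem N4_count {k d : ℕ} (hk : 1 ≤ k) (hd : 1 ≤ d) (S : Sys k d) (ha : ∀ i, S.a i ≠ 0) (hM : MinP S) (hT : TelP S) (hL : LBig S)
    (ε : ℝ) (hε : 0 < ε) : ∃ K E0 : ℝ, 1 ≤ K ∧ 0 < E0 ∧
    ∀ Cr θ : ℝ, 1 ≤ Cr → 0 < θ → ∀ C0 : ℕ, ∃ κ : ℝ, 0 < κ ∧ ∃ X0 : ℕ, ∀ Q Q' X : ℕ, X0 ≤ X →
    ∀ Xs : Fin k → ℕ, (∀ i, X ≤ Xs i ∧ Xs i ≤ C0 * X) → (∀ i, Rgm K Cr θ Q Q' (Xs i)) → Q' ^ (20 * (k + 1)) ≤ Q →
    (∀ i, MdB Q (Xs i) 1 E0 p0 (fun _ => 0)) →
    ∀ (b : Fin k → ℤ) (L T : ℕ), X ≤ L → L ≤ C0 * X → T ≤ C0 * X →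
    (∀ i, ∀ n ∈ range L, ∀ t ∈ bx d T, S.val b n (iv t) i ∈ JJ (Xs i)) →
    (((bx d T).filter (fun t => S.Adm b (iv t) ∧ ε * (L * SSS S b (iv t) (pr Q')) <
      |∑ n ∈ range L, ∏ i, lp (S.val b n (iv t) i) - L * SSS S b (iv t) (pr Q')|)).card : ℝ) ≤ (X : ℝ) ^ (d - κ) := by
  obtain ⟨K1, hK1, H1⟩ := D32_avg hk S hT hL
  obtain ⟨K2, E0, hK2, hE0, H2⟩ := N3_range hk S ha (ε / 2) (by positivity)
  have hKm : 1 ≤ max K1 K2 := hK1.trans (le_max_left _ _)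
  refine ⟨max K1 K2, E0, hKm, hE0, ?_⟩
  intro Cr θ hCr hθ C0
  obtain ⟨κ', hκ', Xa, H1⟩ := H1 Cr θ (1 / 5) hCr hθ (by norm_num) C0
  obtain ⟨Xb, H2⟩ := H2 Cr θ hCr hθ C0
  have hk0 : (0 : ℝ) < k := by exact_mod_cast hk
  have hκ : 0 < min κ' 1 / 4 := by
    have := lt_min hκ' one_pos
    positivity
  have hκa : min κ' 1 / 4 ≤ 1 / 4 := by
    have := min_le_right κ' (1 : ℝ)
    linarith
  have hκb : min κ' 1 / 4 ≤ κ' / 2 := by
    have := min_le_left κ' (1 : ℝ)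
    linarith
  obtain ⟨Xc, hXc⟩ := z4_large (1 / 2) ((C0 : ℝ) ^ d) (by norm_num)
  obtain ⟨Xd, hXd⟩ := z4_large (1 / 2) (2 * (k * k * (C0 : ℝ) ^ (d - 1))) (by norm_num)
  obtain ⟨Xe, hXe⟩ := z4_large (κ' / 2) (4 / ε * Real.exp (4 * k : ℝ)) (by positivity)
  obtain ⟨Xf, hXf⟩ := z4_large (θ * (23 / 40)) 4 (by positivity)
  refine ⟨min κ' 1 / 4, hκ, max (max Xa Xb) (max (max Xc Xd) (max (max Xe Xf) 1)), ?_⟩
  intro Q Q' X hX Xs hXs hR hQQ hMd b L T hXL hL1 hT hJ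
  have g1 : Xa ≤ X := le_trans (le_trans (le_max_left _ _) (le_max_left _ _)) hX
  have g2 : Xb ≤ X := le_trans (le_trans (le_max_right _ _) (le_max_left _ _)) hX
  have g3 : Xc ≤ X := le_trans (le_trans (le_trans (le_max_left _ _) (le_max_left _ _)) (le_max_right _ _)) hX
  have g4 : Xd ≤ X := le_trans (le_trans (le_trans (le_max_right _ _) (le_max_left _ _)) (le_max_right _ _)) hX
  have g5 : Xe ≤ X := le_trans (le_trans (le_trans (le_trans (le_max_left _ _) (le_max_left _ _)) (le_max_right _ _)) (le_max_right _ _)) hX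
  have g6 : Xf ≤ X := le_trans (le_trans (le_trans (le_trans (le_max_right _ _) (le_max_left _ _)) (le_max_right _ _)) (le_max_right _ _)) hX
  have hX1 : 1 ≤ X := le_trans (le_trans (le_trans (le_max_right _ _) (le_max_right _ _)) (le_max_right _ _)) hX
  have hX0r : (0 : ℝ) < X := by exact_mod_cast hX1
  have hX1r : (1 : ℝ) ≤ X := by exact_mod_cast hX1
  have f1 := hXc X g3
  have f2 := hXd X g4
  have f3 := hXe X g5
  have f4 := hXf X g6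
  have i0 : Fin k := ⟨0, hk⟩
  by_cases hT1 : T < Q' ^ (10 * (k + 1))
  · -- small `T`
    refine z4_small hd C0 X T _ hX1 _ hκa ?_ ((card_filter_le _ _).trans (z4_card_bx d T).le) f1
    have h1 : T * T ≤ Q' ^ (20 * (k + 1)) := by
      calc T * T ≤ Q' ^ (10 * (k + 1)) * Q' ^ (10 * (k + 1)) := Nat.mul_le_mul hT1.le hT1.le
        _ = Q' ^ (20 * (k + 1)) := by
          rw [← pow_add]
          congr 1
          ring
    have h2 : Q ≤ Xs i0 := z4_QX (hR i0).reg hKm (lt_of_lt_of_le hX1 (hXs i0).1)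
    exact h1.trans (hQQ.trans (h2.trans (hXs i0).2))
  · have hT1 : Q' ^ (10 * (k + 1)) ≤ T := not_lt.1 hT1
    -- `T` is positive
    have hXQ' : (X : ℝ) ^ θ ≤ Q' := by
      have h2 : (X : ℝ) ≤ (Xs i0 : ℝ) := by exact_mod_cast (hXs i0).1
      exact (Real.rpow_le_rpow hX0r.le h2 hθ.le).trans (hR i0).low
    have hQ' : 0 < Q' := by
      have h3 : (0 : ℝ) < (Q' : ℝ) := lt_of_lt_of_le (Real.rpow_pos_of_pos hX0r θ) hXQ'
      exact_mod_cast h3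
    have hT0 : 0 < T := lt_of_lt_of_le (pow_pos hQ' _) hT1
    have hQ'1r : (1 : ℝ) ≤ (Q' : ℝ) := by exact_mod_cast hQ'
    have h4 : 4 ≤ (Q' : ℝ) ^ (23 / 40 : ℝ) := by
      refine f4.trans ?_
      rw [Real.rpow_mul hX0r.le]
      exact Real.rpow_le_rpow (Real.rpow_nonneg hX0r.le _) hXQ' (by norm_num)
    have hr1 : ((p0.1 : ℕ) : ℝ) ≤ (Q' : ℝ) ^ (1 / 80 : ℝ) := by
      have h5 : ((p0.1 : ℕ) : ℝ) = 1 := by simp [p0]
      rw [h5]
      exact Real.one_le_rpow hQ'1r (by norm_num)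
    obtain ⟨d1, d2⟩ := core_case1 Q' p0.1 h4 hQ' hr1
    have hRa : ∀ i, Rgm K1 Cr θ Q Q' (Xs i) := fun i =>
      z4_rgm (hR i) (by linarith) (le_max_left _ _)
    have hRb : ∀ i, Rgm K2 Cr θ Q Q' (Xs i) := fun i =>
      z4_rgm (hR i) (by linarith) (le_max_right _ _)
    have avg := H1 Q Q' X g1 Xs hXs hRa hQQ Q' (Nat.sqrt Q') ⌈(Q' : ℝ) ^ (1 / 5 : ℝ)⌉₊ p0 d1 d2 (Nat.sqrt_le_self _) le_rfl
      (Pool.Agent.Lib.H68T.p0_mem hQ') (Nat.le_ceil _) b L T hL1 hT hT1 hJ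
    obtain ⟨A, hA⟩ : ∃ A, A = (bx d T).filter (fun t => S.Adm b (iv t) ∧ ε * (L * SSS S b (iv t) (pr Q')) <
      |∑ n ∈ range L, ∏ i, lp (S.val b n (iv t) i) - L * SSS S b (iv t) (pr Q')|) := ⟨_, rfl⟩
    rw [← hA]
    obtain ⟨G, hG⟩ : ∃ G, G = A.filter (fun t => ¬ ∃ i j, i ≠ j ∧ S.minr b (iv t) i j = 0) := ⟨_, rfl⟩
    have hcard : A.card ≤ k * k * T ^ (d - 1) + G.card := by
      rw [← Finset.card_filter_add_card_filter_not (s := A) (fun t => ∃ i j, i ≠ j ∧ S.minr b (iv t) i j = 0), ← hG]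
      refine Nat.add_le_add_right ?_ _
      refine le_trans (Finset.card_le_card ?_) (D31_minor S hM hd b T hT0)
      intro t ht
      rw [Finset.mem_filter, hA, Finset.mem_filter] at ht
      exact Finset.mem_filter.2 ⟨ht.1.1, ht.2⟩
    -- the set `G`
    have hGb : (G.card : ℝ) * (ε / 2 * (X * Real.exp (-(4 * k : ℝ)))) ≤ (X : ℝ) ^ (1 + (d : ℝ) - κ') := by
      refine le_trans ?_ avg
      have hsub : G ⊆ bx d T := by
        intro t ht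
        rw [hG, Finset.mem_filter, hA, Finset.mem_filter] at ht
        exact ht.1.1
      refine le_trans ?_ (Finset.sum_le_sum_of_subset_of_nonneg hsub fun _ _ _ => norm_nonneg _)
      rw [← nsmul_eq_mul]
      refine Finset.card_nsmul_le_sum _ _ _ ?_
      intro t ht
      have ht' := ht
      rw [hG, Finset.mem_filter, hA, Finset.mem_filter] at ht'
      obtain ⟨⟨htb, hadm, hlt⟩, hmin⟩ := ht'
      have hmin' : ∀ i j, i ≠ j → S.minr b (iv t) i j ≠ 0 := fun i j hij h0 => hmin ⟨i, j, hij, h0⟩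
      have low := H2 Q Q' X g2 Xs hXs hRb hMd b L (iv t) hXL hadm hmin'
        (fun i n hn => hJ i n hn t htb)
      have hs := T1S_low S b (iv t) hadm (pr Q') (fun l hl => by
        first
        | exact Pool.Agent.Lib.H59P.prime_of_mem_pr hl
        | exact (Finset.mem_filter.1 hl).2)
      have hLX : (X : ℝ) ≤ L := by exact_mod_cast hXL
      have hSL : (X : ℝ) * Real.exp (-(4 * k : ℝ)) ≤ L * SSS S b (iv t) (pr Q') :=
        mul_le_mul hLX hs (Real.exp_pos _).le (Nat.cast_nonneg _)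
      have h1 : |∑ n ∈ range L, ∏ i, lp (S.val b n (iv t) i) - L * SSS S b (iv t) (pr Q')| =
          ‖((∑ n ∈ range L, ∏ i, lp (S.val b n (iv t) i) : ℝ) : ℂ) - ((L * SSS S b (iv t) (pr Q') : ℝ) : ℂ)‖ := by
        rw [← Complex.ofReal_sub, Complex.norm_real, Real.norm_eq_abs]
      have h2 := norm_sub_le_norm_sub_add_norm_sub ((∑ n ∈ range L, ∏ i, lp (S.val b n (iv t) i) : ℝ) : ℂ)
        (∑ j ∈ range (L / (X / Q ^ 8)), ((X / Q ^ 8 : ℕ) : ℂ) * MCS S b (iv t) Q' Q' (Nat.sqrt Q') p0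
        (fun i p => Bc Q (Xs i) p (S.val b ((j * (X / Q ^ 8) : ℕ) : ℤ) (iv t) i))) ((L * SSS S b (iv t) (pr Q') : ℝ) : ℂ)
      rw [← h1] at h2
      have h5 : ε / 2 * ((X : ℝ) * Real.exp (-(4 * k : ℝ))) ≤ ε / 2 * (L * SSS S b (iv t) (pr Q')) :=
        mul_le_mul_of_nonneg_left hSL (by positivity)
      linarith
    have hG2 : (G.card : ℝ) ≤ (X : ℝ) ^ ((d : ℝ) - κ' / 2) / 2 := by
      have e1 : (X : ℝ) ^ (1 + (d : ℝ) - κ') = X * ((X : ℝ) ^ ((d : ℝ) - κ' / 2) / (X : ℝ) ^ (κ' / 2)) := by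
        rw [← Real.rpow_sub hX0r]
        have h6 : (X : ℝ) * (X : ℝ) ^ ((d : ℝ) - κ' / 2 - κ' / 2) = (X : ℝ) ^ (1 : ℝ) * (X : ℝ) ^ ((d : ℝ) - κ' / 2 - κ' / 2) := by
          rw [Real.rpow_one]
        rw [h6, ← Real.rpow_add hX0r]
        congr 1
        ring
      have hP : 0 < (X : ℝ) ^ (κ' / 2) := Real.rpow_pos_of_pos hX0r _
      have hP2 : 0 < (X : ℝ) ^ ((d : ℝ) - κ' / 2) := Real.rpow_pos_of_pos hX0r _
      have hE := Real.exp_pos (4 * k : ℝ)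
      rw [e1, Real.exp_neg] at hGb
      have h7 : (G.card : ℝ) * (ε / 2 * (Real.exp (4 * k : ℝ))⁻¹) ≤ (X : ℝ) ^ ((d : ℝ) - κ' / 2) / (X : ℝ) ^ (κ' / 2) := by
        have h8 : (X : ℝ) * ((G.card : ℝ) * (ε / 2 * (Real.exp (4 * k : ℝ))⁻¹)) ≤ X * ((X : ℝ) ^ ((d : ℝ) - κ' / 2) / (X : ℝ) ^ (κ' / 2)) := by
          linarith [hGb]
        exact le_of_mul_le_mul_left h8 hX0r
      rw [le_div_iff₀ hP] at h7
      have h9 : (G.card : ℝ) * 2 ≤ (G.card : ℝ) * (ε / 2 * (Real.exp (4 * k : ℝ))⁻¹) * (X : ℝ) ^ (κ' / 2) := by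
        rw [mul_assoc]
        refine mul_le_mul_of_nonneg_left ?_ (Nat.cast_nonneg _)
        have h10 : ε / 2 * (Real.exp (4 * k : ℝ))⁻¹ * (4 / ε * Real.exp (4 * k : ℝ)) = 2 := by
          field_simp
          norm_num
        calc (2 : ℝ) = ε / 2 * (Real.exp (4 * k : ℝ))⁻¹ * (4 / ε * Real.exp (4 * k : ℝ)) := h10.symm
          _ ≤ ε / 2 * (Real.exp (4 * k : ℝ))⁻¹ * (X : ℝ) ^ (κ' / 2) := mul_le_mul_of_nonneg_left f3 (by positivity)
      linarith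
    have hG3 : (X : ℝ) ^ ((d : ℝ) - κ' / 2) ≤ (X : ℝ) ^ ((d : ℝ) - min κ' 1 / 4) :=
      Real.rpow_le_rpow_of_exponent_le hX1r (by linarith)
    have hB : ((k * k * T ^ (d - 1) : ℕ) : ℝ) ≤ (X : ℝ) ^ ((d : ℝ) - min κ' 1 / 4) / 2 := by
      have h1 : ((k * k * T ^ (d - 1) : ℕ) : ℝ) ≤ k * k * ((C0 : ℝ) * X) ^ (d - 1) := by
        push_cast
        refine mul_le_mul_of_nonneg_left ?_ (by positivity)
        exact pow_le_pow_left₀ (Nat.cast_nonneg T) (by exact_mod_cast hT) _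
      have h2 : (X : ℝ) ^ (d - 1 : ℕ) = (X : ℝ) ^ ((d : ℝ) - 1) := by
        rw [← Real.rpow_natCast]
        congr 1
        push_cast [hd]
        ring
      have h3 : (X : ℝ) ^ (1 / 2 : ℝ) * (X : ℝ) ^ ((d : ℝ) - 1) ≤ (X : ℝ) ^ ((d : ℝ) - min κ' 1 / 4) := by
        rw [← Real.rpow_add hX0r]
        exact Real.rpow_le_rpow_of_exponent_le hX1r (by linarith)
      rw [mul_pow, h2] at h1
      have h4 := mul_le_mul_of_nonneg_right f2 (Real.rpow_nonneg hX0r.le ((d : ℝ) - 1))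
      linarith
    have hfin : (A.card : ℝ) ≤ ((k * k * T ^ (d - 1) : ℕ) : ℝ) + (G.card : ℝ) := by exact_mod_cast hcard
    linarith

end Pool.Agent.H9A
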