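import Pool.Agent.Lib.H9A.N0
import Pool.Agent.Lib.H9U.CORE

/-!
# ASY, chunk N5a (S/M): from the weighted sum to the number
-/

open Finset

namespace Pool.Agent.H9A

open Pool.Agent.H9U
open Pool.Agent.Lib.H68T (lp Lk PC p0)

/-- From the weighted sum to the number, for one `t`.

Proof. `m = val b n t i ∈ JJ (Xs i)` satisfies `X ≤ m ≤ 4 C0 X`; `lp m = log m` if `m` is prime and `0` else. So `N (log X)^k ≤ ∑_n ∏ lp ≤ N (log (4 C0 X))^k`, `N = NPr S b t 0 L`, and `(log (4 C0 X))^k ≤ (1 + ε) (log X)^k`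
for `X` large. If `|∑ - L s| ≤ ε L s` then `N ≤ (1 + ε) L s/(log X)^k` and `N ≥ (1 - ε)/(1 + ε) L s/(log X)^k ≥ (1 - 2ε) L s/(log X)^k` (if `ε ≥ 1` nothing is to prove for the lower bound, `N ≥ 0`). -/
theorem N5_num {k d : ℕ} (S : Sys k d) (C0 : ℕ) (hC0 : 1 ≤ C0) (ε : ℝ) (hε : 0 < ε) : ∃ X0 : ℕ, ∀ X : ℕ, X0 ≤ X →
    ∀ Xs : Fin k → ℕ, (∀ i, X ≤ Xs i ∧ Xs i ≤ C0 * X) → ∀ (b : Fin k → ℤ) (t : Fin d → ℤ) (L : ℕ),
    (∀ i, ∀ n ∈ range L, S.val b n t i ∈ JJ (Xs i)) → ∀ s : ℝ, 0 ≤ s →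
    |∑ n ∈ range L, ∏ i, lp (S.val b n t i) - L * s| ≤ ε * (L * s) →
    |(NPr S b t 0 L : ℝ) - L * s / (Real.log X) ^ k| ≤ 2 * ε * (L * s / (Real.log X) ^ k) := by
  classical
  have hlim : Filter.Tendsto (fun X : ℕ => (1 + Real.log (4 * C0) / Real.log X) ^ k) Filter.atTop (nhds 1) := by
    have h1 : Filter.Tendsto (fun X : ℕ => Real.log X) Filter.atTop Filter.atTop :=
      Real.tendsto_log_atTop.comp tendsto_natCast_atTop_atTop
    have h2 : Filter.Tendsto (fun X : ℕ => Real.log (4 * C0) / Real.log X) Filter.atTop (nhds 0) := h1.const_div_atTop _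
    have h3 := (h2.const_add 1).pow k
    rwa [add_zero, one_pow] at h3
  obtain ⟨X1, hX1⟩ := Filter.eventually_atTop.mp (hlim.eventually_lt_const (show (1 : ℝ) < 1 + ε by linarith))
  refine ⟨max X1 3, ?_⟩
  intro X hX Xs hXs b t L hJ s hs hsum
  have hX3 : 3 ≤ X := (le_max_right _ _).trans hX
  have hXr : (0 : ℝ) < X := by
    have : 0 < X := by omega
    exact_mod_cast this
  have hl : 0 < Real.log X := by
    apply Real.log_pos
    have : 1 < X := by omega
    exact_mod_cast this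
  have hC0r : (0 : ℝ) < C0 := by exact_mod_cast hC0
  have hpow : (Real.log (4 * C0) + Real.log X) ^ k ≤ (1 + ε) * (Real.log X) ^ k := by
    have h1 := (hX1 X ((le_max_left _ _).trans hX)).le
    have h2 : Real.log (4 * C0) + Real.log X = (1 + Real.log (4 * C0) / Real.log X) * Real.log X := by
      field_simp
      ring
    rw [h2, mul_pow]
    exact mul_le_mul_of_nonneg_right h1 (by positivity)
  have hb : ∀ n ∈ range L, ∀ i, Real.log X ≤ Real.log (S.val b n t i) ∧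
      Real.log (S.val b n t i) ≤ Real.log (4 * C0) + Real.log X := by
    intro n hn i
    have h1 := hJ i n hn
    unfold JJ at h1
    rw [mem_Ico] at h1
    obtain ⟨h2, h3⟩ := h1
    obtain ⟨h4, h5⟩ := hXs i
    have h4' : (X : ℤ) ≤ Xs i := by exact_mod_cast h4
    have h5' : (Xs i : ℤ) ≤ C0 * X := by exact_mod_cast h5
    have h6 : (X : ℤ) ≤ S.val b n t i := by omega
    have h7 : S.val b n t i ≤ 4 * (C0 * X) := by omega
    have h6' : (X : ℝ) ≤ (S.val b n t i : ℝ) := by exact_mod_cast h6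
    have h7' : (S.val b n t i : ℝ) ≤ 4 * C0 * X := by
      have : (S.val b n t i : ℝ) ≤ 4 * (C0 * X) := by exact_mod_cast h7
      linarith
    refine ⟨Real.log_le_log hXr h6', ?_⟩
    rw [← Real.log_mul (by positivity) hXr.ne']
    exact Real.log_le_log (by linarith) h7'
  have hS : ∑ n ∈ range L, ∏ i, lp (S.val b n t i) =
      ∑ n ∈ (range L).filter (fun n : ℕ => ∀ i, (S.val b (0 + n) t i).toNat.Prime), ∏ i, Real.log (S.val b n t i) := by
    rw [Finset.sum_filter]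
    refine Finset.sum_congr rfl fun n _ => ?_
    split_ifs with h
    · refine Finset.prod_congr rfl fun i _ => ?_
      unfold Lib.H68T.lp
      have h1 := h i
      rw [zero_add] at h1
      rw [if_pos h1]
    · push Not at h
      obtain ⟨i, hi⟩ := h
      rw [zero_add] at hi
      refine Finset.prod_eq_zero (mem_univ i) ?_
      unfold Lib.H68T.lp
      rw [if_neg hi]
  rw [hS] at hsum
  have hN : (NPr S b t 0 L : ℝ) =
      (((range L).filter (fun n : ℕ => ∀ i, (S.val b (0 + n) t i).toNat.Prime)).card : ℝ) := by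
    unfold NPr
    rfl
  rw [hN]
  obtain ⟨W, hW⟩ : ∃ W : Finset ℕ, W = (range L).filter (fun n : ℕ => ∀ i, (S.val b (0 + n) t i).toNat.Prime) := ⟨_, rfl⟩
  rw [← hW] at hsum ⊢
  have hWr : ∀ n ∈ W, n ∈ range L := fun n hn => by
    rw [hW] at hn
    exact (mem_filter.mp hn).1
  have hlow : (W.card : ℝ) * (Real.log X) ^ k ≤ ∑ n ∈ W, ∏ i, Real.log (S.val b n t i) := by
    rw [← nsmul_eq_mul]
    refine Finset.card_nsmul_le_sum W _ _ fun n hn => ?_
    calc (Real.log X) ^ k = ∏ _i : Fin k, Real.log X := by rw [Finset.prod_const, Finset.card_univ, Fintype.card_fin]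
      _ ≤ ∏ i, Real.log (S.val b n t i) := Finset.prod_le_prod (fun _ _ => hl.le) fun i _ => (hb n (hWr n hn) i).1
  have hup : ∑ n ∈ W, ∏ i, Real.log (S.val b n t i) ≤ (W.card : ℝ) * ((1 + ε) * (Real.log X) ^ k) := by
    rw [← nsmul_eq_mul]
    refine Finset.sum_le_card_nsmul W _ _ fun n hn => ?_
    calc ∏ i, Real.log (S.val b n t i) ≤ ∏ _i : Fin k, (Real.log (4 * C0) + Real.log X) :=
          Finset.prod_le_prod (fun i _ => hl.le.trans (hb n (hWr n hn) i).1) fun i _ => (hb n (hWr n hn) i).2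
      _ = (Real.log (4 * C0) + Real.log X) ^ k := by rw [Finset.prod_const, Finset.card_univ, Fintype.card_fin]
      _ ≤ _ := hpow
  obtain ⟨Z, hZ⟩ : ∃ Z : ℝ, Z = ∑ n ∈ W, ∏ i, Real.log (S.val b n t i) := ⟨_, rfl⟩
  rw [← hZ] at hsum hlow hup
  obtain ⟨A, hA⟩ : ∃ A : ℝ, A = L * s := ⟨_, rfl⟩
  have hA0 : 0 ≤ A := by
    rw [hA]
    positivity
  rw [← hA] at hsum ⊢
  obtain ⟨q, hq⟩ : ∃ q : ℝ, q = (Real.log X) ^ k := ⟨_, rfl⟩
  have hq0 : 0 < q := by
    rw [hq]
    positivity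
  rw [← hq] at hlow hup ⊢
  rw [abs_le] at hsum
  obtain ⟨hs1, hs2⟩ := hsum
  have e1 : (W.card : ℝ) * q ≤ (1 + ε) * A := by linarith
  have e2 : (1 - ε) * A ≤ (1 + ε) * ((W.card : ℝ) * q) := by linarith
  have e3 : A - (W.card : ℝ) * q ≤ 2 * ε * A := by
    have h1 : (1 + ε) * (A - (W.card : ℝ) * q) ≤ 2 * ε * A := by linarith
    by_cases h2 : 0 ≤ A - (W.card : ℝ) * q
    · nlinarith
    · have : 0 ≤ 2 * ε * A := by positivity
      linarith
  have h3 : (W.card : ℝ) - A / q = ((W.card : ℝ) * q - A) / q := by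
    field_simp
  have h4 : 2 * ε * (A / q) = 2 * ε * A / q := by ring
  rw [h3, h4, abs_div, abs_of_pos hq0]
  refine div_le_div_of_nonneg_right ?_ hq0.le
  rw [abs_le]
  have : 0 ≤ ε * A := by positivity
  constructor <;> linarith

end Pool.Agent.H9A
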