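import Pool.Agent.Lib.H9A.N0
import Pool.Agent.Lib.H9U.T4

/-!
# ASY, chunk N6a (S/M): two truncations of the singular series
-/

open Finset

namespace Pool.Agent.H9A

open Pool.Agent.H9U
open Pool.Agent.Lib.H59P (Ch cj uu gl pr SF)

/-- Proof. `T4S_tail` with `ε := θ/16`, `R = 1` (`(pr z).filter (¬ l ∣ 1) = pr z`), `E = ⌊X^θ⌋ ≤ z, z'` (`E ≥ X^θ/2 ≥ 1`), for `Q := z` and `Q := z'`: the two truncations differ by at most
`2 E^(-1/4) X^(θ/16) ≤ 4 X^(-3θ/16) ≤ ε exp(-4k) ≤ ε SSS(z')` for `X` large (`T1S_low`; the elements of `pr z'` are primes, `Pool.Agent.Lib.H59P.c3_pr`). -/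
theorem N6_cmp {k d : ℕ} (S : Sys k d) (ha : ∀ i, S.a i ≠ 0) (ε θ : ℝ) (hε : 0 < ε) (hθ : 0 < θ) : ∃ X0 : ℕ, ∀ X : ℕ, X0 ≤ X →
    ∀ (b : Fin k → ℤ) (t : Fin d → ℤ), S.Adm b t → NZ S b t X →
    ∀ z z' : ℕ, (X : ℝ) ^ θ ≤ z → (X : ℝ) ^ θ ≤ z' → z ≤ X → z' ≤ X →
      |SSS S b t (pr z) - SSS S b t (pr z')| ≤ ε * SSS S b t (pr z') := by
  obtain ⟨X1, hX1⟩ := T4S_tail S ha (θ / 16) (by positivity)
  have hlim : Filter.Tendsto (fun X : ℕ => 4 * (X : ℝ) ^ (-(3 * θ / 16))) Filter.atTop (nhds 0) := by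
    have h1 : Filter.Tendsto (fun X : ℕ => (X : ℝ) ^ (-(3 * θ / 16))) Filter.atTop (nhds 0) :=
      (tendsto_rpow_neg_atTop (show 0 < 3 * θ / 16 by positivity)).comp tendsto_natCast_atTop_atTop
    have h2 := h1.const_mul 4
    rwa [mul_zero] at h2
  have hpos : (0 : ℝ) < ε * Real.exp (-(4 * k : ℝ)) := by positivity
  obtain ⟨X2, hX2⟩ := Filter.eventually_atTop.mp (hlim.eventually_lt_const hpos)
  refine ⟨max (max X1 X2) 1, ?_⟩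
  intro X hX b t hA hNZ z z' hz hz' hzX hzX'
  have hXX1 : X1 ≤ X := (le_max_left _ _).trans ((le_max_left _ _).trans hX)
  have hXX2 : X2 ≤ X := (le_max_right _ _).trans ((le_max_left _ _).trans hX)
  have hX0 : 1 ≤ X := (le_max_right _ _).trans hX
  have hXr : (1 : ℝ) ≤ X := by exact_mod_cast hX0
  have hXp : (0 : ℝ) < X := by linarith
  have hθ1 : (1 : ℝ) ≤ (X : ℝ) ^ θ := Real.one_le_rpow hXr hθ.le
  obtain ⟨E, hE⟩ : ∃ E : ℕ, E = ⌊(X : ℝ) ^ θ⌋₊ := ⟨_, rfl⟩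
  have hE1 : 1 ≤ E := by
    rw [hE]
    exact Nat.le_floor (by simpa using hθ1)
  have hEz : E ≤ z := by
    rw [hE]
    exact Nat.floor_le_of_le hz
  have hEz' : E ≤ z' := by
    rw [hE]
    exact Nat.floor_le_of_le hz'
  have hEr : (1 : ℝ) ≤ E := by exact_mod_cast hE1
  have hE2 : (X : ℝ) ^ θ / 2 ≤ E := by
    have h1 := Nat.lt_floor_add_one ((X : ℝ) ^ θ)
    rw [← hE] at h1
    linarith
  have hE3 : (E : ℝ) ^ (-(1 / 4) : ℝ) ≤ 2 * (X : ℝ) ^ (-(θ / 4)) := by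
    have h1 : (E : ℝ) ^ (-(1 / 4) : ℝ) ≤ ((X : ℝ) ^ θ / 2) ^ (-(1 / 4) : ℝ) :=
      Real.rpow_le_rpow_of_nonpos (by positivity) hE2 (by norm_num)
    refine h1.trans ?_
    rw [Real.div_rpow (by positivity) (by norm_num), ← Real.rpow_mul hXp.le]
    have h2 : θ * (-(1 / 4) : ℝ) = -(θ / 4) := by ring
    rw [h2, Real.rpow_neg (by norm_num : (0 : ℝ) ≤ 2), div_inv_eq_mul, mul_comm]
    refine mul_le_mul_of_nonneg_right ?_ (by positivity)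
    calc (2 : ℝ) ^ (1 / 4 : ℝ) ≤ (2 : ℝ) ^ (1 : ℝ) := Real.rpow_le_rpow_of_exponent_le (by norm_num) (by norm_num)
      _ = 2 := Real.rpow_one _
  have hfil : ∀ Q : ℕ, (pr Q).filter (fun l : ℕ => ¬ l ∣ 1) = pr Q := by
    intro Q
    refine Finset.filter_true_of_mem fun l hl => ?_
    intro hd
    exact (Pool.Agent.Lib.H59P.c3_pr Q l hl).one_lt.ne' (Nat.dvd_one.mp hd)
  have hX1z := hX1 X z hXX1 hzX b t hNZ 1 E hE1 hEz
  have hX1z' := hX1 X z' hXX1 hzX' b t hNZ 1 E hE1 hEz'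
  rw [hfil] at hX1z hX1z'
  have hb : (E : ℝ) ^ (-(1 / 4) : ℝ) * (X : ℝ) ^ (θ / 16) ≤ 2 * (X : ℝ) ^ (-(3 * θ / 16)) := by
    calc (E : ℝ) ^ (-(1 / 4) : ℝ) * (X : ℝ) ^ (θ / 16) ≤ (2 * (X : ℝ) ^ (-(θ / 4))) * (X : ℝ) ^ (θ / 16) :=
          mul_le_mul_of_nonneg_right hE3 (by positivity)
      _ = 2 * (X : ℝ) ^ (-(3 * θ / 16)) := by
          rw [mul_assoc, ← Real.rpow_add hXp]
          congr 2
          ring
  have hfin := hX2 X hXX2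
  have hlow := T1S_low S b t hA (pr z') (Pool.Agent.Lib.H59P.c3_pr z')
  have h5 : ε * Real.exp (-(4 * k : ℝ)) ≤ ε * SSS S b t (pr z') := mul_le_mul_of_nonneg_left hlow hε.le
  rw [abs_le] at hX1z hX1z' ⊢
  constructor <;> linarith [hX1z.1, hX1z.2, hX1z'.1, hX1z'.2]

end Pool.Agent.H9A
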