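import Pool.Agent.Lib.H9A.N1
import Pool.Agent.Lib.H9A.N4
import Pool.Agent.Lib.H9A.N5a
import Pool.Agent.Lib.H9A.N6a
import Pool.Agent.Lib.HUK.DFIN

/-!
# ASY, chunk N5 (M): the asymptotic formula for all but few `t`, in windows
-/

open Finset

namespace Pool.Agent.H9A

open Pool.Agent.H9U
open Pool.Agent.HUK (MinP TelP SysFin PK UCH)
open Pool.Agent.Lib.H68T (lp Lk PC p0)
open Pool.Agent.Lib.H18Q (gk KS SG Bc RegP)
open Pool.Agent.Lib.H59P (Ch SF bx TS Rp MX pr)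

/-- counting. -/
lemma n5_card {α : Type*} (s : Finset α) (P P1 P2 : α → Prop) {_ : DecidablePred P} {_ : DecidablePred P1} {_ : DecidablePred P2}
    (h : ∀ t ∈ s, P t → P1 t ∨ P2 t) : (s.filter P).card ≤ (s.filter P1).card + (s.filter P2).card := by
  classical
  refine (Finset.card_le_card ?_).trans (Finset.card_union_le _ _)
  intro t ht
  rw [Finset.mem_filter] at ht
  rw [Finset.mem_union, Finset.mem_filter, Finset.mem_filter]
  rcases h t ht.1 ht.2 with h1 | h1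
  · exact Or.inl ⟨ht.1, h1⟩
  · exact Or.inr ⟨ht.1, h1⟩

/-- the constants. -/
lemma n5_real (ε e N L s s' lk : ℝ) (hε : 0 < ε) (he : e = min ε 1 / 16) (hL : 0 ≤ L) (hs' : 0 ≤ s') (hlk : 0 < lk)
    (h1 : |s - s'| ≤ e * s') (h2 : |N - L * s / lk| ≤ 2 * e * (L * s / lk)) :
    |N - L * (s' / lk)| ≤ ε * (L * (s' / lk)) := by
  have he0 : 0 < e := by
    rw [he]
    have : 0 < min ε 1 := lt_min hε one_pos
    positivity
  have he1 : e ≤ 1 / 16 := by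
    rw [he]
    have := min_le_right ε 1
    linarith
  have he2 : e ≤ ε / 16 := by
    rw [he]
    have := min_le_left ε 1
    linarith
  obtain ⟨c, hc⟩ : ∃ c : ℝ, c = L / lk := ⟨_, rfl⟩
  have hc0 : 0 ≤ c := by rw [hc]; positivity
  have e1 : L * s / lk = c * s := by rw [hc]; ring
  have e2 : L * (s' / lk) = c * s' := by rw [hc]; ring
  rw [e1] at h2
  rw [e2]
  have h3 := abs_le.1 h1
  have h4 := abs_le.1 h2
  have h5 : c * s ≤ c * ((1 + e) * s') := mul_le_mul_of_nonneg_left (by linarith [h3.2]) hc0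
  have h6 : c * ((1 - e) * s') ≤ c * s := mul_le_mul_of_nonneg_left (by linarith [h3.1]) hc0
  have hD : 0 ≤ c * s' := mul_nonneg hc0 hs'
  have h7 : 2 * e * (c * s) ≤ 2 * e * (c * ((1 + e) * s')) := mul_le_mul_of_nonneg_left h5 (by linarith)
  have h8 : 2 * e * (c * ((1 + e) * s')) ≤ 3 * e * (c * s') := by
    have h9 : 2 * e * (c * ((1 + e) * s')) = (2 * e * (1 + e)) * (c * s') := by ring
    rw [h9]
    refine mul_le_mul_of_nonneg_right ?_ hD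
    nlinarith
  have h10 : 4 * e * (c * s') ≤ ε * (c * s') := mul_le_mul_of_nonneg_right (by linarith) hD
  have h11 : c * ((1 + e) * s') = c * s' + e * (c * s') := by ring
  have h12 : c * ((1 - e) * s') = c * s' - e * (c * s') := by ring
  rw [h11] at h5
  rw [h12] at h6
  rw [abs_le]
  constructor
  · linarith [h4.1]
  · linarith [h4.2]

/-- the minors are small. -/
lemma n5_minr {k d : ℕ} (S : Sys k d) (B : ℕ) (hB : ∀ i, |S.a i| ≤ (B : ℤ)) (C0 X : ℕ) (hX1 : 1 ≤ X) (hXB : 8 * B * C0 ≤ X)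
    (b : Fin k → ℤ) (t : Fin d → ℤ) (hv : ∀ i, |S.val b 0 t i| ≤ 4 * (C0 : ℤ) * X) (i j : Fin k) :
    |S.minr b t i j| ≤ (X : ℤ) ^ 3 := by
  have hA0 : (0 : ℤ) ≤ B := Int.natCast_nonneg B
  have h3 : |S.minr b t i j| ≤ B * (4 * (C0 : ℤ) * X) + B * (4 * (C0 : ℤ) * X) := by
    unfold Sys.minr
    refine (abs_sub _ _).trans (add_le_add ?_ ?_)
    · rw [abs_mul]
      exact mul_le_mul (hB i) (hv j) (abs_nonneg _) hA0
    · rw [abs_mul]
      exact mul_le_mul (hB j) (hv i) (abs_nonneg _) hA0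
  have h4 : (8 * B * C0 : ℤ) ≤ X := by exact_mod_cast hXB
  have h5 : (1 : ℤ) ≤ X := by exact_mod_cast hX1
  calc |S.minr b t i j| ≤ B * (4 * (C0 : ℤ) * X) + B * (4 * (C0 : ℤ) * X) := h3
    _ = (8 * B * C0 : ℤ) * X := by ring
    _ ≤ X * X := mul_le_mul_of_nonneg_right h4 (by linarith)
    _ ≤ (X : ℤ) ^ 3 := by nlinarith [mul_nonneg (by linarith : (0 : ℤ) ≤ X) (by linarith : (0 : ℤ) ≤ X)]

/-- the total. -/
lemma n5_total (k d C0 : ℕ) (hd : 1 ≤ d) (κa κ : ℝ) (hκ : κ = min κa (1 / 2) / 2) (X T : ℕ) (hX1 : 1 ≤ X)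
    (hT : T ≤ C0 * X) (h2 : (2 : ℝ) ≤ (X : ℝ) ^ κ) (h3 : (2 * k * k * C0 ^ (d - 1) : ℝ) ≤ (X : ℝ) ^ (1 / 2 : ℝ))
    (n1 n2 n : ℕ) (hn : n ≤ n1 + n2) (hn1 : (n1 : ℝ) ≤ (X : ℝ) ^ (d - κa)) (hn2 : n2 ≤ k * k * T ^ (d - 1)) :
    (n : ℝ) ≤ (X : ℝ) ^ (d - κ) := by
  have hX1r : (1 : ℝ) ≤ X := by exact_mod_cast hX1
  have hX0r : (0 : ℝ) < X := by linarith
  have hκ1 : 2 * κ ≤ κa := by
    rw [hκ]
    have := min_le_left κa (1 / 2)
    linarith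
  have hκ2 : κ ≤ 1 / 4 := by
    rw [hκ]
    have := min_le_right κa (1 / 2)
    linarith
  have hpos : 0 < (X : ℝ) ^ (d - κ) := Real.rpow_pos_of_pos hX0r _
  have a1 : 2 * (X : ℝ) ^ (d - κa) ≤ (X : ℝ) ^ (d - κ) := by
    have b1 : (X : ℝ) ^ (d - κa) ≤ (X : ℝ) ^ ((d : ℝ) - κ - κ) :=
      Real.rpow_le_rpow_of_exponent_le hX1r (by linarith)
    have b2 : (X : ℝ) ^ (d - κ) = (X : ℝ) ^ κ * (X : ℝ) ^ ((d : ℝ) - κ - κ) := by
      rw [← Real.rpow_add hX0r]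
      congr 1
      ring
    rw [b2]
    have b3 : 0 < (X : ℝ) ^ ((d : ℝ) - κ - κ) := Real.rpow_pos_of_pos hX0r _
    calc 2 * (X : ℝ) ^ (d - κa) ≤ 2 * (X : ℝ) ^ ((d : ℝ) - κ - κ) := by linarith
      _ ≤ (X : ℝ) ^ κ * (X : ℝ) ^ ((d : ℝ) - κ - κ) := mul_le_mul_of_nonneg_right h2 b3.le
  have a2 : 2 * (n2 : ℝ) ≤ (X : ℝ) ^ (d - κ) := by
    have b1 : (n2 : ℝ) ≤ k * k * (T : ℝ) ^ (d - 1) := by exact_mod_cast hn2
    have b2 : (T : ℝ) ≤ C0 * X := by exact_mod_cast hT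
    have b3 : (T : ℝ) ^ (d - 1) ≤ (C0 : ℝ) ^ (d - 1) * (X : ℝ) ^ (d - 1) := by
      rw [← mul_pow]
      exact pow_le_pow_left₀ (Nat.cast_nonneg _) b2 _
    have b4 : (0 : ℝ) ≤ (k : ℝ) * k := by positivity
    have b5 : (X : ℝ) ^ (d - 1) = (X : ℝ) ^ ((d : ℝ) - 1) := by
      rw [← Real.rpow_natCast, Nat.cast_sub hd, Nat.cast_one]
    have b6 : 0 ≤ (X : ℝ) ^ ((d : ℝ) - 1) := Real.rpow_nonneg hX0r.le _
    calc 2 * (n2 : ℝ) ≤ 2 * (k * k * (T : ℝ) ^ (d - 1)) := by linarith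
      _ ≤ 2 * (k * k * ((C0 : ℝ) ^ (d - 1) * (X : ℝ) ^ (d - 1))) := by
          have := mul_le_mul_of_nonneg_left b3 b4
          linarith
      _ = (2 * k * k * C0 ^ (d - 1) : ℝ) * (X : ℝ) ^ ((d : ℝ) - 1) := by
          rw [b5]
          ring
      _ ≤ (X : ℝ) ^ (1 / 2 : ℝ) * (X : ℝ) ^ ((d : ℝ) - 1) := mul_le_mul_of_nonneg_right h3 b6
      _ = (X : ℝ) ^ ((1 / 2 : ℝ) + ((d : ℝ) - 1)) := (Real.rpow_add hX0r _ _).symm
      _ ≤ (X : ℝ) ^ (d - κ) := Real.rpow_le_rpow_of_exponent_le hX1r (by linarith)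
  have a3 : (n : ℝ) ≤ n1 + n2 := by exact_mod_cast hn
  linarith

/-- Proof. `ε' = min ε 1 / 16`. `N4_count` for `ε'` gives `K, E0`. `N1_level` with `C0`, `A`, `E = E0`, `K' = K` gives `Cr` and, for given `M0`, `M`, `Q`. `θ = 1/(100 (k+1) Cr)`; `κa, Xa` from `N4_count Cr θ C0`;
`M0' = max` of `M0` and all the thresholds. For `M ≤ X ≤ M^A` all `Y` with `X ≤ Y ≤ C0 X` are admitted in `N1_level`. `Q'` from `core_level` (`H9U/CORE.lean`, as in `D34_core`): `Q' ≥ (C0 X)^θ`, `Q'^(20 (k+1)) ≤ Q`, `Q' ≤ X`, so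
`Rgm K Cr θ Q Q' (Xs i)`. For `t` in the set: either `t` is in the set of `N4_count`, or a minor vanishes (`D31_minor`, at most `k² T^(d-1) ≤ X^(d-1/2)`; `MinP`), or: `NZ S b t X` (`|minr| ≤ X^3` from the values `≤ 4 C0 X` as in
`Z4B_low`), `N6_cmp` with `ε'`, `θ` (`z = Q'`, `z' = X`) and `N5_num` with `ε'` give: the number is `(1 + O(4ε')) L Dn`, contradiction. The total is at most `X^(d-κa) + k² (C0 X)^(d-1) ≤ X^(d-κ)`, `κ = min κa 1/2 / 2`,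
for `X` large. -/
theorem N5_core {k d : ℕ} (hk : 1 ≤ k) (hd : 1 ≤ d) (S : Sys k d) (ha : ∀ i, S.a i ≠ 0) (hM : MinP S) (hT : TelP S)
    (hL : LBig S) : ACore S := by
  intro C0 A hC0 hA ε hε
  obtain ⟨e, he⟩ : ∃ e : ℝ, e = min ε 1 / 16 := ⟨_, rfl⟩
  have he0 : 0 < e := by
    rw [he]
    have : 0 < min ε 1 := lt_min hε one_pos
    positivity
  obtain ⟨K, E0, hK, hE0, HN⟩ := N4_count hk hd S ha hM hT hL e he0
  obtain ⟨Cr, hCr, HL1⟩ := N1_level C0 A hC0 hA E0 K hE0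
  obtain ⟨θ, hθ⟩ : ∃ θ : ℝ, θ = 1 / (100 * ((k : ℝ) + 1) * Cr) := ⟨_, rfl⟩
  have hθ0 : 0 < θ := by rw [hθ]; positivity
  obtain ⟨κa, hκa, Xa, HNa⟩ := HN Cr θ hCr hθ0 C0
  obtain ⟨Xb, HL⟩ := core_level k C0 hC0 Cr hCr
  obtain ⟨Xc, HC⟩ := N6_cmp S ha e θ he0 hθ0
  obtain ⟨Xd, HD⟩ := N5_num S C0 hC0 e he0
  obtain ⟨B, hB⟩ : ∃ B : ℕ, ∀ i, |S.a i| ≤ (B : ℤ) := by
    refine ⟨∑ i, (S.a i).natAbs, fun i => ?_⟩
    rw [Int.abs_eq_natAbs]
    exact_mod_cast Finset.single_le_sum (f := fun i => (S.a i).natAbs) (fun _ _ => Nat.zero_le _) (mem_univ i)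
  obtain ⟨κ, hκ⟩ : ∃ κ : ℝ, κ = min κa (1 / 2) / 2 := ⟨_, rfl⟩
  have hκ0 : 0 < κ := by
    rw [hκ]
    have : 0 < min κa (1 / 2) := lt_min hκa (by norm_num)
    positivity
  obtain ⟨Xe, He⟩ := core_large κ 2 hκ0
  obtain ⟨Xf, Hf⟩ := core_large (1 / 2) (2 * k * k * C0 ^ (d - 1)) (by norm_num)
  refine ⟨κ, hκ0, ?_⟩
  intro M0
  obtain ⟨M, Q, hMM, HM⟩ := HL1 (max (max (max M0 Xa) (max Xb Xc)) (max (max Xd Xe) (max Xf (max 2 (8 * B * C0)))))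
  have m0 : max (max M0 Xa) (max Xb Xc) ≤ M := (le_max_left _ _).trans hMM
  have m1 : max (max Xd Xe) (max Xf (max 2 (8 * B * C0))) ≤ M := (le_max_right _ _).trans hMM
  have m00 : max M0 Xa ≤ M := (le_max_left _ _).trans m0
  have m01 : max Xb Xc ≤ M := (le_max_right _ _).trans m0
  have m10 : max Xd Xe ≤ M := (le_max_left _ _).trans m1
  have m11 : max Xf (max 2 (8 * B * C0)) ≤ M := (le_max_right _ _).trans m1
  have m12 : max 2 (8 * B * C0) ≤ M := (le_max_right _ _).trans m11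
  refine ⟨M, (le_max_left _ _).trans m00, ?_⟩
  intro X hMX hXM Xs hXs b L T hXL hL1 hTX hJ
  have ga : Xa ≤ X := ((le_max_right _ _).trans m00).trans hMX
  have gb : Xb ≤ X := ((le_max_left _ _).trans m01).trans hMX
  have gc : Xc ≤ X := ((le_max_right _ _).trans m01).trans hMX
  have gd : Xd ≤ X := ((le_max_left _ _).trans m10).trans hMX
  have ge : Xe ≤ X := ((le_max_right _ _).trans m10).trans hMX
  have gf : Xf ≤ X := ((le_max_left _ _).trans m11).trans hMX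
  have g2 : 2 ≤ X := ((le_max_left _ _).trans m12).trans hMX
  have gB : 8 * B * C0 ≤ X := ((le_max_right _ _).trans m12).trans hMX
  have hX1 : 1 ≤ X := by omega
  have hX1r : (1 : ℝ) ≤ X := by exact_mod_cast hX1
  have hX0r : (0 : ℝ) < X := by linarith
  have hC1 : (1 : ℝ) ≤ C0 := by exact_mod_cast hC0
  have hXC : X ≤ C0 * X := Nat.le_mul_of_pos_left _ hC0
  have hCM : C0 * X ≤ C0 * M ^ A := Nat.mul_le_mul_left C0 hXM
  have hrange : ∀ Y : ℕ, X ≤ Y → Y ≤ C0 * X →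
      RegP K Q Y ∧ Real.log Y ≤ Cr * Real.log Q ∧ MdB Q Y 1 E0 p0 (fun _ => 0) := fun Y h1 h2 =>
    HM Y (hMX.trans h1) (h2.trans hCM)
  have hlogQ : Real.log ((C0 : ℝ) * X) ≤ Cr * Real.log Q := by
    have := (hrange (C0 * X) hXC le_rfl).2.1
    push_cast at this
    exact this
  obtain ⟨Q', hQ'1, hQ'2, hQ'3⟩ := HL X gb Q hlogQ
  rw [← hθ] at hQ'1
  have hQ'X : (X : ℝ) ^ θ ≤ Q' := by
    refine (Real.rpow_le_rpow hX0r.le ?_ hθ0.le).trans hQ'1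
    nlinarith
  have hQ'one : (1 : ℝ) ≤ Q' := (Real.one_le_rpow hX1r hθ0.le).trans hQ'X
  have hQ'1n : 1 ≤ Q' := by exact_mod_cast hQ'one
  have hQ'Q : Q' ≤ Q := by
    refine le_trans ?_ hQ'2
    calc Q' = Q' ^ 1 := (pow_one _).symm
      _ ≤ Q' ^ (20 * (k + 1)) := Nat.pow_le_pow_right hQ'1n (by omega)
  have hR : ∀ i, Rgm K Cr θ Q Q' (Xs i) := by
    intro i
    obtain ⟨h1, h2, h3⟩ := hrange (Xs i) (hXs i).1 (hXs i).2
    refine ⟨h1, h2, ?_, hQ'Q⟩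
    refine le_trans ?_ hQ'1
    refine Real.rpow_le_rpow (Nat.cast_nonneg _) ?_ hθ0.le
    exact_mod_cast (hXs i).2
  have hMi : ∀ i, MdB Q (Xs i) 1 E0 p0 (fun _ => 0) := fun i => (hrange (Xs i) (hXs i).1 (hXs i).2).2.2
  have hXθX : (X : ℝ) ^ θ ≤ X := hQ'X.trans (by exact_mod_cast hQ'3)
  have hfin := HNa Q Q' X ga Xs hXs hR hQ'2 hMi b L T hXL hL1 hTX hJ
  have hlogX : 0 < Real.log X := Real.log_pos (by exact_mod_cast g2)
  rcases Nat.eq_zero_or_pos T with hT0 | hT0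
  · have hbx : bx d T = ∅ := by
      unfold bx
      rw [hT0, Finset.range_zero]
      have : Nonempty (Fin d) := ⟨⟨0, hd⟩⟩
      exact Fintype.piFinset_empty
    rw [hbx, Finset.filter_empty, Finset.card_empty, Nat.cast_zero]
    exact Real.rpow_nonneg hX0r.le _
  refine n5_total k d C0 hd κa κ hκ X T hX1 hTX (He X ge) (Hf X gf) _ _ _
    (n5_card _ _ (fun t => S.Adm b (iv t) ∧ e * (L * SSS S b (iv t) (pr Q')) <
      |∑ n ∈ range L, ∏ i, lp (S.val b n (iv t) i) - L * SSS S b (iv t) (pr Q')|)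
      (fun t => ∃ i j, i ≠ j ∧ S.minr b (iv t) i j = 0) ?_) hfin (Pool.Agent.HUK.D31_minor S hM hd b T hT0)
  intro t ht hbad
  obtain ⟨hAdm, hlt⟩ := hbad
  by_contra hcon
  push Not at hcon
  obtain ⟨hc1, hc2⟩ := hcon
  have hc3 := hc1 hAdm
  have h0L : 0 ∈ range L := mem_range.2 (by omega)
  have hNZ : NZ S b (iv t) X := by
    intro i j hij
    refine ⟨hc2 i j hij, ?_⟩
    refine n5_minr S B hB C0 X hX1 gB b (iv t) ?_ i j
    intro i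
    have h1 := hJ i 0 h0L t ht
    unfold JJ at h1
    rw [Finset.mem_Ico] at h1
    have h2 : (Xs i : ℤ) ≤ C0 * X := by exact_mod_cast (hXs i).2
    rw [Nat.cast_zero] at h1
    have h3 : (0 : ℤ) ≤ Xs i := Int.natCast_nonneg _
    have h4 : (0 : ℤ) ≤ 4 * (C0 : ℤ) * X := by positivity
    rw [abs_le]
    constructor
    · linarith [h1.1]
    · have h5 : S.val b 0 (iv t) i ≤ 4 * Xs i := by omega
      linarith
  have hs' : 0 ≤ SSS S b (iv t) (pr X) :=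
    (Real.exp_pos _).le.trans (T1S_low S b (iv t) hAdm (pr X) (Pool.Agent.Lib.H59P.c3_pr X))
  have hs : 0 ≤ SSS S b (iv t) (pr Q') :=
    (Real.exp_pos _).le.trans (T1S_low S b (iv t) hAdm (pr Q') (Pool.Agent.Lib.H59P.c3_pr Q'))
  have hcmp := HC X gc b (iv t) hAdm hNZ Q' X hQ'X hXθX hQ'3 le_rfl
  have hnum := HD X gd Xs hXs b (iv t) L (fun i n hn => hJ i n hn t ht) (SSS S b (iv t) (pr Q')) hs hc3
  have hreal := n5_real ε e (NPr S b (iv t) 0 L) L (SSS S b (iv t) (pr Q')) (SSS S b (iv t) (pr X))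
    ((Real.log X) ^ k) hε he (Nat.cast_nonneg _) hs' (by positivity) hcmp hnum
  exact absurd hlt (not_lt.2 hreal)

/-- All systems of finite complexity. -/
theorem N5_all {k d : ℕ} (hk : 1 ≤ k) (hd : 1 ≤ d) (S : Sys k d) (hS : SysFin S) (hP : PK (k + 1)) (hU : UCH (k + 1)) :
    ACore S :=
  N5_core hk hd S hS.1 (Pool.Agent.HUK.D14_min S hS) (Pool.Agent.HUK.D2_tel S hS hP) (Pool.Agent.HUK.D48_LB S hS hU)

end Pool.Agent.H9A
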