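import Pool.Agent.Lib.H9A.N0
import Pool.Agent.Lib.H9U.T4

/-!
# ASY, chunk N6b (M): the complete singular series
-/

open Finset Filter

namespace Pool.Agent.H9A

open Pool.Agent.H9U
open Pool.Agent.Lib.H59P (Ch cj uu gl pr SF)

/-- Telescoping over squares. -/
theorem n6b_tel (F : ℕ → ℝ) (N : ℕ) (hN : 2 ^ 8 ≤ N)
    (h : ∀ z1 z2 : ℕ, N ≤ z1 → z1 ≤ z2 → z2 ≤ z1 ^ 2 → |F z1 - F z2| ≤ 2 * (z1 : ℝ) ^ (-(1 / 8) : ℝ)) (n : ℕ) :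
    ∀ z1 z2 : ℕ, N ≤ z1 → z1 ≤ z2 → z2 ≤ z1 ^ (2 ^ n) → |F z1 - F z2| ≤ 4 * (z1 : ℝ) ^ (-(1 / 8) : ℝ) := by
  induction n with
  | zero =>
    intro z1 z2 h1 h2 h3
    have h4 : z1 = z2 := by
      rw [pow_zero, pow_one] at h3
      omega
    rw [h4, sub_self, abs_zero]
    positivity
  | succ n ih =>
    intro z1 z2 h1 h2 h3
    have hz1 : 2 ^ 8 ≤ z1 := hN.trans h1
    have hz : (0 : ℝ) < z1 := by
      have : 0 < z1 := by omega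
      exact_mod_cast this
    have hp : 0 ≤ (z1 : ℝ) ^ (-(1 / 8) : ℝ) := by positivity
    rcases le_total z2 (z1 ^ 2) with h4 | h4
    · have := h z1 z2 h1 h2 h4
      linarith
    · have h5 : z1 ≤ z1 ^ 2 := Nat.le_self_pow (by norm_num) z1
      have h6 := h z1 (z1 ^ 2) h1 h5 le_rfl
      have h7 : z2 ≤ (z1 ^ 2) ^ (2 ^ n) := by
        rw [← pow_mul]
        have h8 : 2 * 2 ^ n = 2 ^ (n + 1) := by ring
        rw [h8]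
        exact h3
      have h8 := ih (z1 ^ 2) z2 (h1.trans h5) h4 h7
      have h9 : ((z1 ^ 2 : ℕ) : ℝ) ^ (-(1 / 8) : ℝ) = (z1 : ℝ) ^ (-(1 / 8) : ℝ) * (z1 : ℝ) ^ (-(1 / 8) : ℝ) := by
        push_cast
        rw [sq, Real.mul_rpow hz.le hz.le]
      have h10 : (z1 : ℝ) ^ (-(1 / 8) : ℝ) ≤ 1 / 2 := by
        have h11 : ((2 : ℝ) ^ 8) ≤ z1 := by exact_mod_cast hz1
        calc (z1 : ℝ) ^ (-(1 / 8) : ℝ) ≤ ((2 : ℝ) ^ 8) ^ (-(1 / 8) : ℝ) :=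
              Real.rpow_le_rpow_of_nonpos (by positivity) h11 (by norm_num)
          _ = 1 / 2 := by
              rw [← Real.rpow_natCast (2 : ℝ) 8, ← Real.rpow_mul (by norm_num)]
              norm_num
      rw [h9] at h8
      have h11 : (z1 : ℝ) ^ (-(1 / 8) : ℝ) * (z1 : ℝ) ^ (-(1 / 8) : ℝ) ≤ (z1 : ℝ) ^ (-(1 / 8) : ℝ) * (1 / 2) :=
        mul_le_mul_of_nonneg_left h10 hp
      have h12 : |F z1 - F z2| ≤ |F z1 - F (z1 ^ 2)| + |F (z1 ^ 2) - F z2| := abs_sub_le _ _ _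
      linarith

theorem n6b_pr (Q : ℕ) : (pr Q).filter (fun l : ℕ => ¬ l ∣ 1) = pr Q := by
  refine Finset.filter_true_of_mem fun l hl h => ?_
  have h1 := (Pool.Agent.Lib.H59P.mem_pr.1 hl).2
  exact h1.one_lt.ne' (Nat.dvd_one.1 h)

/-- **The complete singular series.**

Proof. `T4S_tail` with `ε := 1/16` (bound `X1`). For `X1 ≤ X ≤ z1 ≤ z2 ≤ z1^2`: `T4S_tail` at `X := z2` (`|minr| ≤ X^3 ≤ z2^3`), `R = 1`, `E = z1`, for `Q := z1` and `Q := z2`: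
`|SSS(z1) - SSS(z2)| ≤ 2 z1^(-1/4) z2^(1/16) ≤ 2 z1^(-1/8)`. Hence (telescoping over `z, z^2, z^4, …`, `z ≥ 2^8` large) `|SSS(z1) - SSS(z2)| ≤ 8 z1^(-1/8)` for all `z2 ≥ z1 ≥ X`: a Cauchy sequence, with limit `s`,
`|SSS(X) - s| ≤ 8 X^(-1/8)`, `s ≥ exp(-4k)` (`T1S_low`), and `8 X^(-1/8) ≤ ε exp(-4k)` for `X` large. (Alternatively by `T2S_bd`: the product over `X < l ≤ z` is
`1 + O(log X/X)`.) -/
theorem N6_lim {k d : ℕ} (S : Sys k d) (ha : ∀ i, S.a i ≠ 0) (ε : ℝ) (hε : 0 < ε) : ∃ X0 : ℕ, ∀ X : ℕ, X0 ≤ X →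
    ∀ (b : Fin k → ℤ) (t : Fin d → ℤ), S.Adm b t → NZ S b t X →
    ∃ s : ℝ, 0 < s ∧ Tendsto (fun z : ℕ => SSS S b t (pr z)) atTop (nhds s) ∧ |SSS S b t (pr X) - s| ≤ ε * s := by
  obtain ⟨X1, hX1⟩ := T4S_tail S ha (1 / 16) (by norm_num)
  have ht0 : Tendsto (fun n : ℕ => 4 * (n : ℝ) ^ (-(1 / 8) : ℝ)) atTop (nhds 0) := by
    have h1 : Tendsto (fun n : ℕ => (n : ℝ) ^ (-(1 / 8) : ℝ)) atTop (nhds 0) :=
      (tendsto_rpow_neg_atTop (by norm_num)).comp tendsto_natCast_atTop_atTop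
    have h2 := h1.const_mul 4
    rwa [mul_zero] at h2
  have hpos : 0 < ε * Real.exp (-(4 * k : ℝ)) := by positivity
  obtain ⟨X2, hX2⟩ := Filter.eventually_atTop.1 (ht0.eventually (gt_mem_nhds hpos))
  refine ⟨max (max X1 X2) (2 ^ 8), fun X hX b t hadm hnz => ?_⟩
  have hXa : X1 ≤ X := ((le_max_left _ _).trans (le_max_left _ _)).trans hX
  have hXb : X2 ≤ X := ((le_max_right _ _).trans (le_max_left _ _)).trans hX
  have hXc : 2 ^ 8 ≤ X := (le_max_right _ _).trans hX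
  obtain ⟨F, hF⟩ : ∃ F : ℕ → ℝ, F = fun z => SSS S b t (pr z) := ⟨_, rfl⟩
  -- one step
  have hstep : ∀ z1 z2 : ℕ, X ≤ z1 → z1 ≤ z2 → z2 ≤ z1 ^ 2 → |F z1 - F z2| ≤ 2 * (z1 : ℝ) ^ (-(1 / 8) : ℝ) := by
    intro z1 z2 h1 h2 h3
    have hz1 : 1 ≤ z1 := by omega
    have hz2 : X ≤ z2 := h1.trans h2
    have hz : (0 : ℝ) < z1 := by exact_mod_cast hz1
    have hz20 : (0 : ℝ) ≤ z2 := Nat.cast_nonneg _
    have hm : ∀ i j, i ≠ j → S.minr b t i j ≠ 0 ∧ |S.minr b t i j| ≤ (z2 : ℤ) ^ 3 := by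
      intro i j hij
      refine ⟨(hnz i j hij).1, (hnz i j hij).2.trans ?_⟩
      have h4 : (X : ℤ) ≤ z2 := by exact_mod_cast hz2
      exact pow_le_pow_left₀ (by positivity) h4 3
    have e1 := hX1 z2 z1 (hXa.trans hz2) h2 b t hm 1 z1 hz1 le_rfl
    have e2 := hX1 z2 z2 (hXa.trans hz2) le_rfl b t hm 1 z1 hz1 h2
    rw [n6b_pr] at e1 e2
    have e3 : (z1 : ℝ) ^ (-(1 / 4) : ℝ) * (z2 : ℝ) ^ (1 / 16 : ℝ) ≤ (z1 : ℝ) ^ (-(1 / 8) : ℝ) := by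
      have h5 : (z2 : ℝ) ≤ (z1 : ℝ) ^ 2 := by exact_mod_cast h3
      have h6 : (z2 : ℝ) ^ (1 / 16 : ℝ) ≤ (z1 : ℝ) ^ (1 / 8 : ℝ) := by
        calc (z2 : ℝ) ^ (1 / 16 : ℝ) ≤ ((z1 : ℝ) ^ 2) ^ (1 / 16 : ℝ) := Real.rpow_le_rpow hz20 h5 (by norm_num)
          _ = (z1 : ℝ) ^ (1 / 8 : ℝ) := by
              rw [← Real.rpow_natCast (z1 : ℝ) 2, ← Real.rpow_mul hz.le]
              norm_num
      calc (z1 : ℝ) ^ (-(1 / 4) : ℝ) * (z2 : ℝ) ^ (1 / 16 : ℝ) ≤ (z1 : ℝ) ^ (-(1 / 4) : ℝ) * (z1 : ℝ) ^ (1 / 8 : ℝ) :=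
            mul_le_mul_of_nonneg_left h6 (by positivity)
        _ = (z1 : ℝ) ^ (-(1 / 8) : ℝ) := by
            rw [← Real.rpow_add hz]
            norm_num
    rw [abs_le] at e1 e2
    rw [hF]
    rw [abs_le]
    constructor
    · linarith [e1.1, e1.2, e2.1, e2.2]
    · linarith [e1.1, e1.2, e2.1, e2.2]
  have hall : ∀ z1 z2 : ℕ, X ≤ z1 → z1 ≤ z2 → |F z1 - F z2| ≤ 4 * (z1 : ℝ) ^ (-(1 / 8) : ℝ) := by
    intro z1 z2 h1 h2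
    refine n6b_tel F X hXc hstep z2 z1 z2 h1 h2 ?_
    have h3 : 2 ≤ z1 := by omega
    calc z2 ≤ 2 ^ z2 := Nat.lt_two_pow_self.le
      _ ≤ 2 ^ (2 ^ z2) := Nat.pow_le_pow_right (by norm_num) Nat.lt_two_pow_self.le
      _ ≤ z1 ^ (2 ^ z2) := Nat.pow_le_pow_left h3 _
  -- Cauchy
  have hcau : CauchySeq (fun n : ℕ => F (n + X)) := by
    refine cauchySeq_of_le_tendsto_0' (fun n : ℕ => 4 * ((n + X : ℕ) : ℝ) ^ (-(1 / 8) : ℝ)) (fun n m hnm => ?_) ?_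
    · rw [Real.dist_eq]
      exact hall (n + X) (m + X) (by omega) (by omega)
    · exact (tendsto_add_atTop_iff_nat (f := fun n : ℕ => 4 * (n : ℝ) ^ (-(1 / 8) : ℝ)) X).2 ht0
  obtain ⟨s, hs⟩ := cauchySeq_tendsto_of_complete hcau
  have hs' : Tendsto F atTop (nhds s) := (tendsto_add_atTop_iff_nat X).1 hs
  have hlow : Real.exp (-(4 * k : ℝ)) ≤ s := by
    refine ge_of_tendsto' hs' fun z => ?_
    rw [hF]
    exact T1S_low (S := S) (b := b) (t := t) hadm (pr z) fun l hl => (Pool.Agent.Lib.H59P.mem_pr.1 hl).2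
  have hspos : 0 < s := (Real.exp_pos _).trans_le hlow
  have hdiff : |F X - s| ≤ 4 * (X : ℝ) ^ (-(1 / 8) : ℝ) := by
    have h1 : Tendsto (fun z => |F X - F z|) atTop (nhds |F X - s|) := (tendsto_const_nhds.sub hs').abs
    refine le_of_tendsto h1 (Filter.eventually_atTop.2 ⟨X, fun z hz => hall X z le_rfl hz⟩)
  refine ⟨s, hspos, ?_, ?_⟩
  · rw [hF] at hs'
    exact hs'
  · have h1 := hX2 X hXb
    have h2 : ε * Real.exp (-(4 * k : ℝ)) ≤ ε * s := mul_le_mul_of_nonneg_left hlow hε.le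
    rw [hF] at hdiff
    exact hdiff.trans (h1.le.trans h2)

end Pool.Agent.H9A
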