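import Pool.Agent.Lib.H59.PolySieve
import Pool.Agent.Lib.H59.SchinzelUpper

/-!
# ASY, chunk N7a (M): upper bound sieve for a product of linear forms
-/

open Finset Polynomial

namespace Pool.Agent.H9A

open Pool.Agent.Lib.H59 (rootCount)

/-- The product of the forms `a_i x + c_i`. -/
noncomputable def n7H {k : ℕ} (a c : Fin k → ℤ) : ℤ[X] := ∏ i, (C (a i) * X + C (c i))

/-- Auxiliary: the value of the product of the forms. -/
theorem n7a_eval {k : ℕ} (a c : Fin k → ℤ) (x : ℤ) : (n7H a c).eval x = ∏ i, (a i * x + c i) := by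
  unfold n7H
  rw [eval_prod]
  refine Finset.prod_congr rfl fun i _ => ?_
  rw [eval_add, eval_mul, eval_C, eval_X, eval_C]

/-- The sieve step.

Proof. As `sieve_step` (`H59/SchinzelUpper.lean`). `H = n7H a c`, `rootCount H p = nuS S b' t p` for the translated system, so it is `≤ k` and `< p` (hypotheses `hν`). `poly_sieve` with `κ := k`. The `n ∈ [1, L]` with all values primes:
either no prime `p < Y` divides `H(n)`, or some value is a prime `q < Y`; for given `i` and `q` there is at most one such `n` (`a i ≠ 0`), in total at most `k Y ≤ k R^10`. -/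
theorem N7_step {k : ℕ} (a c : Fin k → ℤ) (ha : ∀ i, a i ≠ 0) (L Y : ℕ) (R : ℝ)
    (hν : ∀ p : ℕ, p.Prime → rootCount (n7H a c) p ≤ k ∧ rootCount (n7H a c) p < p)
    (hY : 2 ≤ Y) (hR : 1 ≤ R) (hRY : (Real.log 2 + 28 * k * Real.log 4) * Real.log Y ≤ Real.log R) (hL : R ^ 12 ≤ L)
    (hYR : (Y : ℝ) ≤ R ^ 10) :
    (((Icc 1 L).filter (fun n : ℕ => ∀ i, (a i * n + c i).toNat.Prime)).card : ℝ) ≤
      (4 + 2 * k) * (L * ∏ p ∈ Nat.primesBelow Y, (1 - (rootCount (n7H a c) p : ℝ) / p)) := by
  classical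
  obtain ⟨h1, h2⟩ := Pool.Agent.Lib.H59.poly_sieve (n7H a c) (κ := k) (Y := Y) (X := L) (R := R)
    (fun p hp _ => (hν p hp).1) (fun p hp _ => (hν p hp).2) hY hR hRY hL
  set T₁ := (Icc 1 L).filter fun n : ℕ => ∀ p ∈ Nat.primesBelow Y, ¬ (p : ℤ) ∣ (n7H a c).eval (n : ℤ)
    with hT₁
  set T₂ := (Finset.range Y).biUnion fun q =>
    (Finset.univ : Finset (Fin k)).biUnion fun i =>
      (Icc 1 L).filter fun n : ℕ => a i * (n : ℤ) + c i = (q : ℤ) with hT₂
  have hT₂card : T₂.card ≤ k * Y := by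
    have h3 : ∀ q ∈ Finset.range Y,
        ((Finset.univ : Finset (Fin k)).biUnion fun i =>
          (Icc 1 L).filter fun n : ℕ => a i * (n : ℤ) + c i = (q : ℤ)).card ≤ k := by
      intro q _
      refine card_biUnion_le.trans ?_
      have h4 : ∀ i ∈ (Finset.univ : Finset (Fin k)),
          ((Icc 1 L).filter fun n : ℕ => a i * (n : ℤ) + c i = (q : ℤ)).card ≤ 1 := by
        intro i _
        rw [Finset.card_le_one]
        intro x hx y hy
        rw [mem_filter] at hx hy
        have h5 : a i * (x : ℤ) = a i * (y : ℤ) := by linarith [hx.2, hy.2]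
        have h6 := mul_left_cancel₀ (ha i) h5
        exact_mod_cast h6
      refine (Finset.sum_le_sum h4).trans ?_
      simp
    refine card_biUnion_le.trans ((sum_le_sum h3).trans ?_)
    rw [sum_const, card_range, smul_eq_mul, mul_comm]
  have hsub : ((Icc 1 L).filter (fun n : ℕ => ∀ i, (a i * n + c i).toNat.Prime)) ⊆ T₁ ∪ T₂ := by
    intro n hn
    rw [mem_filter] at hn
    obtain ⟨hn1, hn2⟩ := hn
    have hval : ∀ i, (((a i * n + c i).toNat : ℕ) : ℤ) = a i * n + c i := by
      intro i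
      apply Int.toNat_of_nonneg
      by_contra hneg
      push Not at hneg
      have h0 : (a i * (n : ℤ) + c i).toNat = 0 := Int.toNat_of_nonpos hneg.le
      have := hn2 i
      rw [h0] at this
      exact Nat.not_prime_zero this
    rw [mem_union]
    by_cases hbig : ∀ i, Y ≤ (a i * (n : ℤ) + c i).toNat
    · left
      rw [hT₁, mem_filter]
      refine ⟨hn1, fun p hp hpd => ?_⟩
      have hpp := Nat.prime_of_mem_primesBelow hp
      have hpY := Nat.lt_of_mem_primesBelow hp
      have hpZ := Nat.prime_iff_prime_int.mp hpp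
      rw [n7a_eval] at hpd
      obtain ⟨i, _, hi⟩ := (hpZ.dvd_finsetProd_iff _).mp hpd
      rw [← hval i, Int.natCast_dvd_natCast, Nat.prime_dvd_prime_iff_eq hpp (hn2 i)] at hi
      have := hbig i
      omega
    · right
      push Not at hbig
      obtain ⟨i, hi⟩ := hbig
      rw [hT₂, mem_biUnion]
      refine ⟨(a i * (n : ℤ) + c i).toNat, Finset.mem_range.mpr hi, ?_⟩
      rw [mem_biUnion]
      refine ⟨i, Finset.mem_univ _, ?_⟩
      rw [mem_filter]
      exact ⟨hn1, (hval i).symm⟩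
  have hcount : ((Icc 1 L).filter (fun n : ℕ => ∀ i, (a i * n + c i).toNat.Prime)).card ≤
      T₁.card + k * Y := by
    refine (card_le_card hsub).trans ((card_union_le _ _).trans ?_)
    omega
  have hcount' : (((Icc 1 L).filter (fun n : ℕ => ∀ i, (a i * n + c i).toNat.Prime)).card : ℝ) ≤
      T₁.card + k * Y := by exact_mod_cast hcount
  have hk0 : (0 : ℝ) ≤ k := by positivity
  have h4 : (k : ℝ) * Y ≤
      k * (2 * L * ∏ p ∈ Nat.primesBelow Y, (1 - (rootCount (n7H a c) p : ℝ) / p)) :=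
    mul_le_mul_of_nonneg_left (hYR.trans h2) hk0
  calc (((Icc 1 L).filter (fun n : ℕ => ∀ i, (a i * n + c i).toNat.Prime)).card : ℝ)
      ≤ T₁.card + k * Y := hcount'
    _ ≤ 4 * L * ∏ p ∈ Nat.primesBelow Y, (1 - (rootCount (n7H a c) p : ℝ) / p) +
        k * (2 * L * ∏ p ∈ Nat.primesBelow Y, (1 - (rootCount (n7H a c) p : ℝ) / p)) :=
      add_le_add h1 h4
    _ = _ := by ring

end Pool.Agent.H9A
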