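import Pool.Agent.Lib.H9A.N6a
import Pool.Agent.Lib.H9A.N7a
import Pool.Agent.Lib.H59.MertensLower

/-!
# ASY, chunk N7 (M): upper bound sieve on short intervals, for every `t` without vanishing minors
-/

open Finset Polynomial

namespace Pool.Agent.H9A

open Pool.Agent.H9U
open Pool.Agent.Lib.H59P (pr)
open Pool.Agent.Lib.H59 (rootCount)

/-- Auxiliary: translation of a complete system of residues. -/
theorem n7_shift {p : ℕ} (hp : 0 < p) (P : ℤ → Prop) [DecidablePred P]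
    (hP : ∀ x y : ℤ, (p : ℤ) ∣ x - y → P x → P y) (s : ℤ) :
    ((range p).filter (fun n : ℕ => P ((n : ℤ) + s))).card = ((range p).filter (fun n : ℕ => P (n : ℤ))).card := by
  have hp0 : (p : ℤ) ≠ 0 := by exact_mod_cast hp.ne'
  have hp1 : (0 : ℤ) < p := by exact_mod_cast hp
  have key : ∀ m : ℤ, (((m % (p : ℤ)).toNat : ℕ) : ℤ) = m % p := fun m =>
    Int.toNat_of_nonneg (Int.emod_nonneg _ hp0)
  have hlt : ∀ m : ℤ, (m % (p : ℤ)).toNat < p := by
    intro m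
    have h1 := Int.emod_lt_of_pos m hp1
    have h2 := key m
    have h3 : (((m % (p : ℤ)).toNat : ℕ) : ℤ) < p := by rw [h2]; exact h1
    exact_mod_cast h3
  have hnat : ∀ n : ℕ, n < p → (n : ℤ) % p = n := fun n hn =>
    Int.emod_eq_of_lt (by positivity) (by exact_mod_cast hn)
  refine Finset.card_nbij' (fun n : ℕ => (((n : ℤ) + s) % p).toNat)
    (fun n : ℕ => (((n : ℤ) + -s) % p).toNat) ?_ ?_ ?_ ?_
  · intro n hn
    rw [mem_coe, mem_filter] at hn ⊢
    refine ⟨mem_range.mpr (hlt _), ?_⟩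
    have h1 : P (((((n : ℤ) + s) % p).toNat : ℕ) : ℤ) := by
      rw [key]
      exact hP _ _ Int.dvd_self_sub_emod hn.2
    exact h1
  · intro n hn
    rw [mem_coe, mem_filter] at hn ⊢
    refine ⟨mem_range.mpr (hlt _), ?_⟩
    have h1 : P ((((((n : ℤ) + -s) % p).toNat : ℕ) : ℤ) + s) := by
      rw [key]
      refine hP _ _ ?_ hn.2
      have h2 : (n : ℤ) - (((n : ℤ) + -s) % p + s) = ((n : ℤ) + -s) - ((n : ℤ) + -s) % p := by ring
      rw [h2]
      exact Int.dvd_self_sub_emod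
    exact h1
  · intro n hn
    rw [mem_coe, mem_filter, mem_range] at hn
    have h1 : ((((((n : ℤ) + s) % p).toNat : ℕ) : ℤ) + -s) % p = n := by
      rw [key, Int.emod_add_emod, show (n : ℤ) + s + -s = n by ring, hnat n hn.1]
    show (((((((n : ℤ) + s) % p).toNat : ℕ) : ℤ) + -s) % p).toNat = n
    rw [h1, Int.toNat_natCast]
  · intro n hn
    rw [mem_coe, mem_filter, mem_range] at hn
    have h1 : ((((((n : ℤ) + -s) % p).toNat : ℕ) : ℤ) + s) % p = n := by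
      rw [key, Int.emod_add_emod, show (n : ℤ) + -s + s = n by ring, hnat n hn.1]
    show (((((((n : ℤ) + -s) % p).toNat : ℕ) : ℤ) + s) % p).toNat = n
    rw [h1, Int.toNat_natCast]

/-- Auxiliary: the values along a translated progression. -/
theorem n7_val {k d : ℕ} (S : Sys k d) (b : Fin k → ℤ) (t : Fin d → ℤ) (m n0 : ℤ) (i : Fin k) :
    S.a i * m + S.val b n0 t i = S.val b (m + n0) t i := by
  simp only [Sys.val, Sys.lin]
  ring

/-- Auxiliary: the number of roots of the product of the forms. -/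
theorem n7_root {k d : ℕ} (S : Sys k d) (b : Fin k → ℤ) (t : Fin d → ℤ) (n0 : ℤ) (p : ℕ) (hp : p.Prime) :
    rootCount (n7H S.a (fun i => S.val b n0 t i)) p = nuS S b t p := by
  classical
  have hpZ := Nat.prime_iff_prime_int.mp hp
  rw [t1_nuS]
  have h1 : rootCount (n7H S.a (fun i => S.val b n0 t i)) p =
      ((range p).filter (fun n : ℕ => ∃ i, (p : ℤ) ∣ S.val b ((n : ℤ) + n0) t i)).card := by
    unfold rootCount
    congr 1
    refine Finset.filter_congr fun n _ => ?_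
    rw [n7a_eval, hpZ.dvd_finsetProd_iff]
    constructor
    · rintro ⟨i, _, hi⟩
      exact ⟨i, by rwa [n7_val] at hi⟩
    · rintro ⟨i, hi⟩
      exact ⟨i, Finset.mem_univ _, by rwa [n7_val]⟩
  rw [h1]
  refine n7_shift hp.pos (fun x : ℤ => ∃ i, (p : ℤ) ∣ S.val b x t i) ?_ n0
  rintro x y hxy ⟨i, hi⟩
  refine ⟨i, ?_⟩
  have h2 : S.val b y t i = S.val b x t i - S.a i * (x - y) := by
    simp only [Sys.val, Sys.lin]
    ring
  rw [h2]
  exact dvd_sub hi (Dvd.dvd.mul_left hxy _)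

/-- Auxiliary: the product of the sieve as a singular series. -/
theorem n7_prod {k d : ℕ} (S : Sys k d) (b : Fin k → ℤ) (t : Fin d → ℤ) (n0 : ℤ) (Y : ℕ) :
    ∏ p ∈ Nat.primesBelow Y, (1 - (rootCount (n7H S.a (fun i => S.val b n0 t i)) p : ℝ) / p) =
      SSS S b t (pr (Y - 1)) * (∏ p ∈ Nat.primesBelow Y, (1 - (p : ℝ)⁻¹)) ^ k := by
  have h0 : pr (Y - 1) = Nat.primesBelow Y := by
    ext p
    unfold pr
    rw [mem_filter, mem_Icc, Nat.mem_primesBelow]
    constructor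
    · rintro ⟨⟨h1, h2⟩, h3⟩
      exact ⟨by omega, h3⟩
    · rintro ⟨h1, h2⟩
      have := h2.pos
      exact ⟨⟨by omega, by omega⟩, h2⟩
  rw [SSS, h0, ← Finset.prod_pow, ← Finset.prod_mul_distrib]
  refine Finset.prod_congr rfl fun p hp => ?_
  have hpp := Nat.prime_of_mem_primesBelow hp
  have hp1 : (1 : ℝ) < p := by exact_mod_cast hpp.one_lt
  rw [n7_root S b t n0 p hpp, T0S_tp S b t p hpp, mul_assoc, ← mul_pow]
  have h2 : (p : ℝ) / ((p : ℝ) - 1) * (1 - (p : ℝ)⁻¹) = 1 := by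
    have h3 : (p : ℝ) - 1 ≠ 0 := by linarith
    have h4 : (p : ℝ) ≠ 0 := by linarith
    field_simp
  rw [h2, one_pow, mul_one]

/-- Auxiliary: the number of prime values in terms of the product of the forms. -/
theorem n7_npr {k d : ℕ} (S : Sys k d) (b : Fin k → ℤ) (t : Fin d → ℤ) (n0 : ℤ) (L : ℕ) :
    NPr S b t n0 L ≤
      ((Icc 1 L).filter (fun n : ℕ => ∀ i, (S.a i * n + (fun i => S.val b (n0 - 1) t i) i).toNat.Prime)).card := by
  unfold NPr
  refine Finset.card_le_card_of_injOn (fun n => n + 1) ?_ ?_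
  · intro n hn
    rw [mem_coe, mem_filter, mem_range] at hn
    rw [mem_coe, mem_filter, mem_Icc]
    refine ⟨⟨Nat.le_add_left 1 n, hn.1⟩, fun i => ?_⟩
    have h1 : S.a i * ((n + 1 : ℕ) : ℤ) + S.val b (n0 - 1) t i = S.val b (n0 + n) t i := by
      rw [n7_val]
      congr 1
      push_cast
      ring
    show (S.a i * ((n + 1 : ℕ) : ℤ) + S.val b (n0 - 1) t i).toNat.Prime
    rw [h1]
    exact hn.2 i
  · intro x _ y _ hxy
    have : x + 1 = y + 1 := hxy
    omega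

/-- Proof. `N7_step` with `a = S.a`, `c i = S.val b (n0 - 1) t i` (so `a_i n + c_i = val b (n0 + (n - 1)) t i`), `R = L^(1/12)`, `Y = ⌊X^c⌋` with `c = 1/(48 (log 2 + 28 k log 4))` (`c ≤ 1/24`). The number of roots of `H` modulo `p` is the number of
`n` in a complete system of residues with `p ∣ val b n t i` for some `i`, which is `nuS S b t p` (translation by `n0 - 1`), so `T0S_nu` gives `hν`, and by `T0S_tp`
`(1 - ν/p) = (1 + tpS p) (1 - 1/p)^k`. So the product is `SSS S b t (pr (Y - 1)) · (∏_{p < Y} (1 - 1/p))^k ≤ SSS S b t (pr (Y-1)) / (log Y)^k` (`prod_one_sub_inv_le` in `H59/MertensLower.lean`), and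
`SSS (pr (Y-1)) ≤ 2 SSS (pr X)` by `N6_cmp` (`ε = 1`, `θ = c/2`), `log Y ≥ (c/2) log X`. `C = (4 + 2k) · 2 · (2/c)^k`. -/
theorem N7_upper {k d : ℕ} (hk : 1 ≤ k) (S : Sys k d) (ha : ∀ i, S.a i ≠ 0) : ∃ C : ℝ, 0 < C ∧ ∃ X0 : ℕ, ∀ X : ℕ, X0 ≤ X →
    ∀ (b : Fin k → ℤ) (t : Fin d → ℤ), S.Adm b t → NZ S b t X → ∀ (n0 : ℤ) (L : ℕ), (X : ℝ) ^ (1 / 2 : ℝ) ≤ L →
    (NPr S b t n0 L : ℝ) ≤ C * (L * Dn S b t X) := by
  obtain ⟨K0, hK0⟩ : ∃ K0 : ℝ, K0 = Real.log 2 + 28 * k * Real.log 4 := ⟨_, rfl⟩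
  have hk1 : (1 : ℝ) ≤ k := by exact_mod_cast hk
  have hl2 : 0 < Real.log 2 := Real.log_pos one_lt_two
  have hl4 : 1 ≤ Real.log 4 := by
    have h1 : Real.log 4 = 2 * Real.log 2 := by
      rw [show (4 : ℝ) = 2 ^ 2 by norm_num, Real.log_pow]
      norm_num
    linarith [Real.log_two_gt_d9]
  have hK01 : 1 ≤ K0 := by
    have h1 : (1 : ℝ) ≤ k * Real.log 4 := by
      calc (1 : ℝ) = 1 * 1 := (one_mul 1).symm
        _ ≤ k * Real.log 4 := mul_le_mul hk1 hl4 zero_le_one (by linarith)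
    have h2 : K0 = Real.log 2 + 28 * (k * Real.log 4) := by rw [hK0]; ring
    linarith
  obtain ⟨c, hc⟩ : ∃ c : ℝ, c = 1 / (48 * K0) := ⟨_, rfl⟩
  have hcK : c * K0 = 1 / 48 := by rw [hc]; field_simp
  have hc0 : 0 < c := by rw [hc]; positivity
  have hc1 : c ≤ 1 / 48 := by
    have : c * 1 ≤ c * K0 := mul_le_mul_of_nonneg_left hK01 hc0.le
    linarith
  obtain ⟨X1, hX1⟩ := N6_cmp S ha 1 (c / 2) one_pos (by linarith)
  obtain ⟨X2, hX2⟩ : ∃ X2 : ℕ, X2 = ⌈Real.exp (2 / c)⌉₊ := ⟨_, rfl⟩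
  refine ⟨(4 + 2 * k) * (2 * (2 / c) ^ k), by positivity, max X1 X2, ?_⟩
  intro X hX b t hA hNZ n0 L hL
  have hXX1 : X1 ≤ X := (le_max_left _ _).trans hX
  have hXX2 : X2 ≤ X := (le_max_right _ _).trans hX
  have hXe : Real.exp (2 / c) ≤ X := by
    rw [hX2] at hXX2
    exact (Nat.le_ceil _).trans (by exact_mod_cast hXX2)
  have hX0 : (0 : ℝ) < X := lt_of_lt_of_le (Real.exp_pos _) hXe
  have hlX : 2 / c ≤ Real.log X := by
    rw [Real.le_log_iff_exp_le hX0]; exact hXe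
  have hlX0 : 0 < Real.log X := lt_of_lt_of_le (by positivity) hlX
  have hXone : (1 : ℝ) ≤ X := by
    have := Real.one_le_exp (show 0 ≤ 2 / c by positivity)
    linarith
  obtain ⟨u, hu⟩ : ∃ u : ℝ, u = (X : ℝ) ^ (c / 2) := ⟨_, rfl⟩
  have hu2 : 2 ≤ u := by
    rw [hu, Real.rpow_def_of_pos hX0]
    have h1 : 1 ≤ Real.log X * (c / 2) := by
      have h2 : 2 / c * (c / 2) ≤ Real.log X * (c / 2) := mul_le_mul_of_nonneg_right hlX (by linarith)
      have h3 : 2 / c * (c / 2) = 1 := by field_simp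
      linarith
    have h2 : Real.exp 1 ≤ Real.exp (Real.log X * (c / 2)) := Real.exp_le_exp.2 h1
    linarith [Real.exp_one_gt_d9]
  have huu : (X : ℝ) ^ c = u * u := by
    rw [hu, ← Real.rpow_add hX0]
    congr 1
    ring
  obtain ⟨Y, hY⟩ : ∃ Y : ℕ, Y = ⌊(X : ℝ) ^ c⌋₊ := ⟨_, rfl⟩
  have hYle : (Y : ℝ) ≤ (X : ℝ) ^ c := by rw [hY]; exact Nat.floor_le (by positivity)
  have hYge : (X : ℝ) ^ c - 1 ≤ Y := by
    have := Nat.lt_floor_add_one ((X : ℝ) ^ c)
    rw [← hY] at this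
    linarith
  have huu2 : 2 * u ≤ u * u := mul_le_mul_of_nonneg_right hu2 (by linarith)
  have hYu : u + 1 ≤ Y := by rw [huu] at hYge; linarith
  have hY2 : 2 ≤ Y := by
    have : (2 : ℝ) ≤ Y := by linarith
    exact_mod_cast this
  have hY0 : (0 : ℝ) < Y := by linarith
  -- the length
  have hL1 : (1 : ℝ) ≤ L := (Real.one_le_rpow hXone (by norm_num)).trans hL
  have hL0 : (0 : ℝ) < L := by linarith
  obtain ⟨R, hR⟩ : ∃ R : ℝ, R = (L : ℝ) ^ (1 / 12 : ℝ) := ⟨_, rfl⟩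
  have hR1 : 1 ≤ R := by rw [hR]; exact Real.one_le_rpow hL1 (by norm_num)
  have hR12 : R ^ 12 = L := by
    rw [hR, ← Real.rpow_natCast, ← Real.rpow_mul hL0.le]
    norm_num
  have hlogR : Real.log X / 24 ≤ Real.log R := by
    rw [hR, Real.log_rpow hL0]
    have h1 := Real.log_le_log (Real.rpow_pos_of_pos hX0 _) hL
    rw [Real.log_rpow hX0] at h1
    linarith
  have hlogY : Real.log Y ≤ c * Real.log X := by
    have := Real.log_le_log hY0 hYle
    rwa [Real.log_rpow hX0] at this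
  have hRY : (Real.log 2 + 28 * k * Real.log 4) * Real.log Y ≤ Real.log R := by
    rw [← hK0]
    have h1 : K0 * Real.log Y ≤ K0 * (c * Real.log X) := mul_le_mul_of_nonneg_left hlogY (by linarith)
    have h2 : K0 * (c * Real.log X) = (c * K0) * Real.log X := by ring
    rw [hcK] at h2
    linarith
  have hYR : (Y : ℝ) ≤ R ^ 10 := by
    have h1 : (X : ℝ) ^ (1 / 24 : ℝ) ≤ R := by
      rw [hR]
      have h2 := Real.rpow_le_rpow (by positivity) hL (show (0 : ℝ) ≤ 1 / 12 by norm_num)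
      rw [← Real.rpow_mul hX0.le] at h2
      norm_num at h2 ⊢
      exact h2
    have h2 : (X : ℝ) ^ c ≤ (X : ℝ) ^ (1 / 24 : ℝ) := Real.rpow_le_rpow_of_exponent_le hXone (by linarith)
    have h3 : R ≤ R ^ 10 := by
      calc R = R ^ 1 := (pow_one R).symm
        _ ≤ R ^ 10 := pow_le_pow_right₀ hR1 (by norm_num)
    linarith
  have hν : ∀ p : ℕ, p.Prime → rootCount (n7H S.a (fun i => S.val b (n0 - 1) t i)) p ≤ k ∧
      rootCount (n7H S.a (fun i => S.val b (n0 - 1) t i)) p < p := by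
    intro p hp
    rw [n7_root S b t (n0 - 1) p hp]
    exact T0S_nu S b t p hp hA
  have hstep := N7_step S.a (fun i => S.val b (n0 - 1) t i) ha L Y R hν hY2 hR1 hRY hR12.le hYR
  rw [n7_prod S b t (n0 - 1) Y] at hstep
  have hcard : (NPr S b t n0 L : ℝ) ≤ (4 + 2 * k) * (L * (SSS S b t (pr (Y - 1)) *
      (∏ p ∈ Nat.primesBelow Y, (1 - (p : ℝ)⁻¹)) ^ k)) := by
    refine le_trans ?_ hstep
    exact_mod_cast n7_npr S b t n0 L
  -- the singular series
  have hS1 : 0 < SSS S b t (pr (Y - 1)) := lt_of_lt_of_le (Real.exp_pos _)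
    (T1S_low S b t hA (pr (Y - 1)) (Pool.Agent.Lib.H59P.c3_pr _))
  have hS2 : 0 < SSS S b t (pr X) := lt_of_lt_of_le (Real.exp_pos _)
    (T1S_low S b t hA (pr X) (Pool.Agent.Lib.H59P.c3_pr _))
  have hYX : Y - 1 ≤ X := by
    have h1 : (X : ℝ) ^ c ≤ (X : ℝ) ^ (1 : ℝ) := Real.rpow_le_rpow_of_exponent_le hXone (by linarith)
    rw [Real.rpow_one] at h1
    have h2 : (Y : ℝ) ≤ X := hYle.trans h1
    have h3 : Y ≤ X := by exact_mod_cast h2
    omega
  have hz1 : (X : ℝ) ^ (c / 2) ≤ ((Y - 1 : ℕ) : ℝ) := by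
    rw [← hu, Nat.cast_sub (by omega), Nat.cast_one]
    linarith
  have hz2 : (X : ℝ) ^ (c / 2) ≤ X := by
    have h1 : (X : ℝ) ^ (c / 2) ≤ (X : ℝ) ^ (1 : ℝ) := Real.rpow_le_rpow_of_exponent_le hXone (by linarith)
    rwa [Real.rpow_one] at h1
  have hcmp := hX1 X hXX1 b t hA hNZ (Y - 1) X hz1 hz2 hYX le_rfl
  have hSS : SSS S b t (pr (Y - 1)) ≤ 2 * SSS S b t (pr X) := by
    have := (abs_le.mp hcmp).2
    linarith
  have hlogY2 : c / 2 * Real.log X ≤ Real.log Y := by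
    have h1 : u ≤ Y := by linarith
    have h2 := Real.log_le_log (by linarith) h1
    rwa [hu, Real.log_rpow hX0] at h2
  have hcl : 0 < c / 2 * Real.log X := by positivity
  have hlY0 : 0 < Real.log Y := lt_of_lt_of_le hcl hlogY2
  have hprod0 : 0 ≤ ∏ p ∈ Nat.primesBelow Y, (1 - (p : ℝ)⁻¹) := by
    refine Finset.prod_nonneg fun p hp => ?_
    have hpp := Nat.prime_of_mem_primesBelow hp
    have hp1 : (1 : ℝ) < p := by exact_mod_cast hpp.one_lt
    have := inv_lt_one_of_one_lt₀ hp1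
    linarith
  have hM : ∏ p ∈ Nat.primesBelow Y, (1 - (p : ℝ)⁻¹) ≤ 1 / (c / 2 * Real.log X) :=
    (Pool.Agent.Lib.H59.prod_one_sub_inv_le hY2).trans (one_div_le_one_div_of_le hcl hlogY2)
  have hMk : (∏ p ∈ Nat.primesBelow Y, (1 - (p : ℝ)⁻¹)) ^ k ≤ (2 / c) ^ k / (Real.log X) ^ k := by
    refine (pow_le_pow_left₀ hprod0 hM k).trans (le_of_eq ?_)
    rw [← div_pow]
    congr 1
    field_simp
  have hfin : SSS S b t (pr (Y - 1)) * (∏ p ∈ Nat.primesBelow Y, (1 - (p : ℝ)⁻¹)) ^ k ≤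
      2 * (2 / c) ^ k * Dn S b t X := by
    calc SSS S b t (pr (Y - 1)) * (∏ p ∈ Nat.primesBelow Y, (1 - (p : ℝ)⁻¹)) ^ k
        ≤ 2 * SSS S b t (pr X) * ((2 / c) ^ k / (Real.log X) ^ k) :=
          mul_le_mul hSS hMk (by positivity) (by linarith)
      _ = 2 * (2 / c) ^ k * Dn S b t X := by unfold Dn; ring
  calc (NPr S b t n0 L : ℝ)
      ≤ (4 + 2 * k) * (L * (SSS S b t (pr (Y - 1)) * (∏ p ∈ Nat.primesBelow Y, (1 - (p : ℝ)⁻¹)) ^ k)) := hcard
    _ ≤ (4 + 2 * k) * (L * (2 * (2 / c) ^ k * Dn S b t X)) :=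
        mul_le_mul_of_nonneg_left (mul_le_mul_of_nonneg_left hfin hL0.le) (by positivity)
    _ = (4 + 2 * k) * (2 * (2 / c) ^ k) * (L * Dn S b t X) := by ring

end Pool.Agent.H9A
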