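import Pool.Agent.Lib.H9A.N0
import Pool.Agent.Lib.H96U.F2
import Pool.Agent.Lib.H9U.M5

/-!
# ASY, chunk N8 (M): one cell of `n`, all `t`
-/

open Finset

namespace Pool.Agent.H9A

open Pool.Agent.H9U
open Pool.Agent.Lib.H59P (bx pr)

/-- The sum of a periodic function over a shifted period. -/
theorem n8_per (G : ℤ → ℝ) (l : ℕ) (hG : ∀ n, G (n + l) = G n) (m : ℤ) :
    ∑ n ∈ range l, G (m + n) = ∑ n ∈ range l, G n := by
  have hstep : ∀ m : ℤ, ∑ n ∈ range l, G (m + 1 + n) = ∑ n ∈ range l, G (m + n) := by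
    intro m
    have h1 := Finset.sum_range_succ (fun n : ℕ => G (m + n)) l
    have h2 := Finset.sum_range_succ' (fun n : ℕ => G (m + n)) l
    rw [h1] at h2
    have h3 : ∑ n ∈ range l, G (m + ((n + 1 : ℕ) : ℤ)) = ∑ n ∈ range l, G (m + 1 + n) := by
      refine Finset.sum_congr rfl fun n _ => ?_
      congr 1
      push_cast
      ring
    rw [h3, hG] at h2
    simp only [Nat.cast_zero, add_zero] at h2
    linarith
  induction m using Int.induction_on with
  | zero => simp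
  | succ i ih => rw [hstep, ih]
  | pred i ih =>
    have h1 := hstep (-(i : ℤ) - 1)
    rw [sub_add_cancel] at h1
    rw [← h1, ih]

/-- Proof. For every `l` the local factor `tpS` is the mean over `n < l` of a function of `n` with period `l` (`m5_g_per`, `m5_g_sum` in `H9U/M5.lean`; for `l = 0` both sides are the empty sum), and by
`Pool.Agent.H96U.f1_val` `S.val (fun i => S.val b n0 (iv u) i) n (iv t) = S.val b (n0 + n) (iv (u + t))`: a translation of `n` by `n0`. -/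
theorem N8_tr {k d : ℕ} (S : Sys k d) (b : Fin k → ℤ) (n0 : ℤ) (u t : Fin d → ℕ) (P : Finset ℕ) :
    SSS S (fun i => S.val b n0 (iv u) i) (iv t) P = SSS S b (iv (fun j => u j + t j)) P := by
  unfold SSS
  refine Finset.prod_congr rfl fun l _ => ?_
  have h : tpS S (fun i => S.val b n0 (iv u) i) (iv t) l = tpS S b (iv (fun j => u j + t j)) l := by
    unfold tpS
    obtain ⟨G, hG⟩ : ∃ G : ℤ → ℝ, G = fun m : ℤ => ∏ i, (1 + Lib.H59P.gl l (S.val b m (iv (fun j => u j + t j)) i)) := ⟨_, rfl⟩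
    have hper : ∀ n, G (n + l) = G n := by
      intro n
      rw [hG]
      refine Finset.prod_congr rfl fun i _ => ?_
      rw [m5_val, Lib.H59P.gl_per]
    have h1 : ∑ n ∈ range l, ∏ i, (1 + Lib.H59P.gl l (S.val (fun i => S.val b n0 (iv u) i) n (iv t) i)) =
        ∑ n ∈ range l, G (n0 + n) := by
      refine Finset.sum_congr rfl fun n _ => ?_
      rw [hG]
      refine Finset.prod_congr rfl fun i _ => ?_
      rw [H96U.f1_val S b n0 n u t i]
    rw [h1, n8_per G l hper n0, hG]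
  rw [h]

/-- Proof. Copy `F1_box` (`H96U/F1.lean`) with `Few` replaced by `Bad` and `CoreOf` by `ACore` (`L = X`, `C0 := max C0 1`, `A`, `ε`; `κ` from `ACore`, capped by `1`; the same `M`, with `M ≥ max M0 12`). The value `V i = S.val b n0 (iv u) i`; `Adm` and `Dn`, `NPr` for
`(V, t)` are those for `(b, u + t)` at `n0` (`N8_tr`; `f1_val` for `NPr`: `val V (0 + n) t = val b (n0 + n) (u + t)`; `Adm`: `F1_box` has the argument). -/
theorem N8_box {k d : ℕ} (S : Sys k d) (hA : ACore S) (C0 A : ℕ) (hA1 : 1 ≤ A)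
    (ε : ℝ) (hε : 0 < ε) : ∃ κ : ℝ, 0 < κ ∧ κ ≤ 1 ∧ ∀ M0 : ℕ, ∃ M : ℕ, M0 ≤ M ∧ ∀ X : ℕ, M ≤ X → X ≤ M ^ A →
    ∀ (b : Fin k → ℤ) (n0 : ℤ) (u : Fin d → ℕ),
    (∀ i, (19 * S.sa * X : ℕ) ≤ S.val b n0 (iv u) i ∧ S.val b n0 (iv u) i ≤ (C0 * X : ℕ)) →
    ∀ Z : Finset (Fin d → ℕ), (∀ t ∈ Z, t ∈ bx d (X / S.sc) ∧ Bad S b n0 X ε (fun j => u j + t j)) →
    (Z.card : ℝ) ≤ (X : ℝ) ^ (d - κ) := by
  classical
  obtain ⟨κ, hκ, hcore0⟩ := hA (max C0 1) A (le_max_right _ _) hA1 ε hε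
  refine ⟨min κ 1, lt_min hκ one_pos, min_le_right _ _, fun M0 => ?_⟩
  obtain ⟨M', hM', hcore⟩ := hcore0 (max M0 12)
  refine ⟨M', (le_max_left _ _).trans hM', ?_⟩
  intro X hX hXA b n0 u hV Z hZ
  have hX12 : 12 ≤ X := ((le_max_right _ _).trans hM').trans hX
  obtain ⟨V, hVd⟩ : ∃ V : Fin k → ℤ, V = fun i => S.val b n0 (iv u) i := ⟨_, rfl⟩
  have hV' : ∀ i, (19 * S.sa * X : ℕ) ≤ V i ∧ V i ≤ (C0 * X : ℕ) := fun i => by
    rw [hVd]
    exact hV i
  have hsa : 1 ≤ S.sa := by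
    unfold Sys.sa
    omega
  have hsX : (12 : ℤ) ≤ ((S.sa * X : ℕ) : ℤ) := by
    exact_mod_cast hX12.trans (Nat.le_mul_of_pos_left X hsa)
  have hXs1 : (X : ℤ) ≤ ((S.sa * X : ℕ) : ℤ) := by
    exact_mod_cast Nat.le_mul_of_pos_left X hsa
  obtain ⟨M, hM⟩ : ∃ M : ℤ, M = ((S.sa * X : ℕ) : ℤ) := ⟨_, rfl⟩
  have hV1 : ∀ i, 19 * M ≤ V i := fun i => by
    have h1 := (hV' i).1
    rw [hM]
    push_cast at h1 ⊢
    linarith
  rw [← hM] at hsX hXs1
  obtain ⟨Xs, hXs⟩ : ∃ Xs : Fin k → ℕ, Xs = fun i => ((V i - M) / 2).toNat := ⟨_, rfl⟩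
  have hXsc : ∀ i, ((Xs i : ℕ) : ℤ) = (V i - M) / 2 := fun i => by
    rw [hXs]
    have h1 := hV1 i
    exact Int.toNat_of_nonneg (by omega)
  have hXsb : ∀ i, X ≤ Xs i ∧ Xs i ≤ max C0 1 * X := by
    intro i
    have h1 := hV1 i
    have h2 := hXsc i
    have h3 := (hV' i).2
    constructor
    · omega
    · have h4 : (Xs i : ℤ) ≤ ((C0 * X : ℕ) : ℤ) := by omega
      have h5 : Xs i ≤ C0 * X := by exact_mod_cast h4
      exact h5.trans (Nat.mul_le_mul_right _ (le_max_left _ _))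
  have hXC : X ≤ max C0 1 * X := Nat.le_mul_of_pos_left X (by have := le_max_right C0 1; omega)
  have hJ : ∀ i, ∀ n ∈ range X, ∀ t ∈ bx d (X / S.sc), S.val V n (iv t) i ∈ JJ (Xs i) := by
    intro i n hn t ht
    have ht' : ∀ j, t j ≤ X / S.sc := fun j => by
      have h1 := Fintype.mem_piFinset.1 ht j
      exact (Finset.mem_range.1 h1).le
    have h1 := H96U.f1_abs S X n (Finset.mem_range.1 hn).le t ht' i
    rw [← hM, abs_le] at h1
    have h2 := hXsc i
    have h3 := hV1 i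
    have h4 : S.val V n (iv t) i = S.lin i n (iv t) + V i := rfl
    unfold JJ
    rw [Finset.mem_Ico, h4]
    omega
  have hc := hcore X hX hXA Xs hXsb V X (X / S.sc) le_rfl hXC ((Nat.div_le_self _ _).trans hXC) hJ
  have hX1 : (1 : ℝ) ≤ X := by exact_mod_cast (show 1 ≤ X by omega)
  have hpow : (X : ℝ) ^ ((d : ℝ) - κ) ≤ (X : ℝ) ^ ((d : ℝ) - min κ 1) :=
    Real.rpow_le_rpow_of_exponent_le hX1 (by linarith [min_le_left κ 1])
  refine le_trans ?_ (hc.trans hpow)
  refine Nat.cast_le.2 (Finset.card_le_card ?_)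
  intro t ht
  rw [Finset.mem_filter]
  obtain ⟨ht1, hadm, hcnt⟩ := hZ t ht
  have hDn : Dn S V (iv t) X = Dn S b (iv (fun j => u j + t j)) X := by
    unfold Dn
    rw [hVd, N8_tr]
  have hNPr : NPr S V (iv t) 0 X = NPr S b (iv (fun j => u j + t j)) n0 X := by
    unfold NPr
    congr 1
    refine Finset.filter_congr fun n _ => ?_
    have h1 : ∀ i, S.val V (0 + n) (iv t) i = S.val b (n0 + n) (iv (fun j => u j + t j)) i := fun i => by
      rw [hVd, zero_add, ← H96U.f1_val S b n0 n u t i]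
    simp only [h1]
  refine ⟨ht1, ?_, ?_⟩
  · intro l hl
    obtain ⟨n, hn⟩ := hadm l hl
    refine ⟨n - n0, fun i => ?_⟩
    have h1 := H96U.f1_val S b n0 (n - n0) u t i
    rw [add_sub_cancel] at h1
    rw [hVd, ← h1]
    exact hn i
  · rw [hDn, hNPr]
    exact hcnt

/-- Proof. Copy `F2_cover` (`H96U/F2.lean`) with `Few` replaced by `Bad` (`N8_box` with `C0 + 1`: `κ1`, `M`; enlarge `M0` by the thresholds of `F2_cover`, so that `M ≥` all of them), `κ = κ1/2`. -/
theorem N8_cover {k d : ℕ} (S : Sys k d) (hA : ACore S) (C0 A : ℕ) (hA1 : 1 ≤ A)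
    (ε : ℝ) (hε : 0 < ε) : ∃ κ : ℝ, 0 < κ ∧ κ ≤ 1 ∧ ∀ M0 : ℕ, ∃ M : ℕ, M0 ≤ M ∧ ∀ X : ℕ, M ≤ X → X ≤ M ^ A →
    ∀ (b : Fin k → ℤ) (n0 : ℤ) (T : ℕ), T ≤ C0 * X → ∀ Z : Finset (Fin d → ℕ),
    (∀ t ∈ Z, t ∈ bx d T ∧ (∀ i, (20 * S.sa * X : ℕ) ≤ S.val b n0 (iv t) i ∧ S.val b n0 (iv t) i ≤ (C0 * X : ℕ)) ∧
      Bad S b n0 X ε t) →
    (Z.card : ℝ) ≤ (X : ℝ) ^ (d - κ) := by
  classical
  obtain ⟨κ1, hκ1, hκ1', H0⟩ := N8_box S hA (C0 + 1) A hA1 ε hε
  obtain ⟨M, hM⟩ : ∃ M, M = 2 * (C0 + 1) * S.sc := ⟨_, rfl⟩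
  obtain ⟨X2, hX2⟩ := H96U.f2_large (κ1 / 2) ((M : ℝ) ^ d) (by positivity)
  refine ⟨κ1 / 2, by positivity, by linarith, fun M0 => ?_⟩
  obtain ⟨M', hM', H⟩ := H0 (max (max M0 X2) (max S.sc 1))
  refine ⟨M', ((le_max_left _ _).trans (le_max_left _ _)).trans hM', ?_⟩
  intro X hX' hXA b n0 T hT A' hA'
  have hX := hM'.trans hX'
  have g2 : X2 ≤ X := ((le_max_right _ _).trans (le_max_left _ _)).trans hX
  have g3 : S.sc ≤ X := ((le_max_left _ _).trans (le_max_right _ _)).trans hX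
  have g4 : 1 ≤ X := ((le_max_right _ _).trans (le_max_right _ _)).trans hX
  have hX0 : (0 : ℝ) < X := by exact_mod_cast g4
  have hsc : 1 ≤ S.sc := by
    unfold Sys.sc
    omega
  have hsa : 1 ≤ S.sa := by
    unfold Sys.sa
    omega
  obtain ⟨T', hT'⟩ : ∃ T', T' = X / S.sc := ⟨_, rfl⟩
  have hT'1 : 1 ≤ T' := by
    rw [hT']
    exact (Nat.one_le_div_iff (by omega)).2 g3
  have hT'X : S.sc * T' ≤ X := by
    rw [hT']
    exact Nat.mul_div_le X S.sc
  have hXT' : X ≤ 2 * S.sc * T' := by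
    have h1 : X < S.sc * (T' + 1) := by
      rw [hT']
      exact Nat.lt_mul_div_succ X (by omega)
    nlinarith
  have hmap : ∀ t ∈ A', (fun j => t j / T') ∈ bx d M := by
    intro t ht
    have h1 := Fintype.mem_piFinset.1 (hA' t ht).1
    refine Fintype.mem_piFinset.2 fun j => ?_
    have h2 := Finset.mem_range.1 (h1 j)
    rw [Finset.mem_range]
    apply Nat.div_lt_of_lt_mul
    calc t j < T := h2
      _ ≤ C0 * X := hT
      _ ≤ C0 * (2 * S.sc * T') := Nat.mul_le_mul_left _ hXT'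
      _ ≤ T' * M := by
        rw [hM]
        nlinarith [Nat.zero_le (S.sc * T')]
  have hfib : ∀ q ∈ bx d M, (((A'.filter (fun t => (fun j => t j / T') = q)).card : ℕ) : ℝ) ≤
      (X : ℝ) ^ ((d : ℝ) - κ1) := by
    intro q _
    rcases (A'.filter (fun t => (fun j => t j / T') = q)).eq_empty_or_nonempty with h0 | ⟨t0, ht0⟩
    · rw [h0, Finset.card_empty, Nat.cast_zero]
      exact Real.rpow_nonneg hX0.le _
    · obtain ⟨u, hu⟩ : ∃ u : Fin d → ℕ, u = fun j => T' * q j := ⟨_, rfl⟩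
      have hdec : ∀ t : Fin d → ℕ, (fun j => t j / T') = q → ∀ j, t j = u j + t j % T' := by
        intro t ht j
        rw [hu]
        change t j = T' * q j + t j % T'
        rw [← ht]
        exact (Nat.div_add_mod (t j) T').symm
      rw [Finset.mem_filter] at ht0
      obtain ⟨hA0, hq0⟩ := ht0
      obtain ⟨-, hc0, -⟩ := hA' t0 hA0
      have hinj : Set.InjOn (fun (t : Fin d → ℕ) (j : Fin d) => t j % T')
          ((A'.filter (fun t => (fun j => t j / T') = q) : Finset (Fin d → ℕ)) : Set (Fin d → ℕ)) := by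
        intro t ht t' ht' heq
        have h1 := (Finset.mem_filter.1 (Finset.mem_coe.1 ht)).2
        have h2 := (Finset.mem_filter.1 (Finset.mem_coe.1 ht')).2
        funext j
        rw [hdec t h1 j, hdec t' h2 j]
        exact congrArg (fun x => u j + x) (congrFun heq j)
      have hbox := H X hX' hXA b n0 u (by
        intro i
        have h1 := H96U.f2_val S b n0 t0 u T' (fun j => by
          have h2 := hdec t0 hq0 j
          have h3 := Nat.mod_lt (t0 j) (show T' > 0 by omega)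
          omega) i
        obtain ⟨h4, h5⟩ := hc0 i
        have h6 : ((S.sc * T' : ℕ) : ℤ) ≤ X := by exact_mod_cast hT'X
        rw [abs_le] at h1
        have h7 : X ≤ S.sa * X := Nat.le_mul_of_pos_left _ hsa
        have h8 : 19 * S.sa * X + X ≤ 20 * S.sa * X := by nlinarith
        have h9 : ((19 * S.sa * X : ℕ) : ℤ) + X ≤ ((20 * S.sa * X : ℕ) : ℤ) := by exact_mod_cast h8
        have h10 : (((C0 + 1) * X : ℕ) : ℤ) = ((C0 * X : ℕ) : ℤ) + X := by push_cast; ring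
        constructor
        · linarith
        · rw [h10]
          linarith) ((A'.filter (fun t => (fun j => t j / T') = q)).image (fun (t : Fin d → ℕ) (j : Fin d) => t j % T')) (by
        intro r hr
        obtain ⟨t, ht, rfl⟩ := Finset.mem_image.1 hr
        rw [Finset.mem_filter] at ht
        obtain ⟨htA, hq⟩ := ht
        obtain ⟨-, -, hf⟩ := hA' t htA
        refine ⟨?_, ?_⟩
        · rw [← hT']
          exact Fintype.mem_piFinset.2 fun j => Finset.mem_range.2 (Nat.mod_lt _ (by omega))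
        · have h2 : (fun j => u j + t j % T') = t := funext fun j => (hdec t hq j).symm
          change Bad S b n0 X ε (fun j => u j + t j % T')
          rw [h2]
          exact hf)
      rw [Finset.card_image_of_injOn hinj] at hbox
      exact hbox
  have hcard := Finset.card_eq_sum_card_fiberwise (f := fun t : Fin d → ℕ => fun j => t j / T') (s := A')
    (t := bx d M) (fun t ht => hmap t (Finset.mem_coe.1 ht))
  rw [hcard]
  push_cast
  refine (Finset.sum_le_sum hfib).trans ?_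
  rw [Finset.sum_const, H96U.f2_card_bx, nsmul_eq_mul]
  push_cast
  calc (M : ℝ) ^ d * (X : ℝ) ^ ((d : ℝ) - κ1) ≤ (X : ℝ) ^ (κ1 / 2) * (X : ℝ) ^ ((d : ℝ) - κ1) :=
        mul_le_mul_of_nonneg_right (hX2 X g2) (Real.rpow_nonneg hX0.le _)
    _ = (X : ℝ) ^ ((d : ℝ) - κ1 / 2) := by
        rw [← Real.rpow_add hX0]
        congr 1
        ring

end Pool.Agent.H9A
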