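import Pool.Agent.Lib.H9A.N0
import Pool.Agent.Lib.H96U.G1

/-!
# ASY, chunk N9a (M): all cells of `n` together, for one `t`
-/

open Finset

namespace Pool.Agent.H9A

open Pool.Agent.H9U
open Pool.Agent.H96U (gsys g1_val0 g1_valS)

/-- additivity of `NPr` -/
theorem n9a_add {k d : ℕ} (S : Sys k d) (b : Fin k → ℤ) (t : Fin d → ℤ) (n0 : ℤ) (L1 L2 : ℕ) :
    NPr S b t n0 (L1 + L2) = NPr S b t n0 L1 + NPr S b t (n0 + L1) L2 := by
  unfold NPr
  rw [Finset.card_filter, Finset.card_filter, Finset.card_filter, Finset.sum_range_add]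
  congr 1
  refine Finset.sum_congr rfl fun n _ => ?_
  have h : n0 + ((L1 + n : ℕ) : ℤ) = n0 + (L1 : ℤ) + (n : ℤ) := by push_cast; ring
  rw [h]

/-- monotonicity of `NPr` -/
theorem n9a_mono {k d : ℕ} (S : Sys k d) (b : Fin k → ℤ) (t : Fin d → ℤ) (n0 : ℤ) {L1 L2 : ℕ} (h : L1 ≤ L2) :
    NPr S b t n0 L1 ≤ NPr S b t n0 L2 := by
  obtain ⟨m, rfl⟩ := Nat.exists_eq_add_of_le h
  rw [n9a_add]
  exact Nat.le_add_right _ _

/-- the cells together -/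
theorem n9a_cells {k d : ℕ} (S : Sys k d) (b : Fin k → ℤ) (t : Fin d → ℤ) (X R J : ℕ) (D δ : ℝ)
    (h : ∀ j : ℕ, R ≤ j → j < J → |(NPr S b t ((j * X : ℕ) : ℤ) X : ℝ) - X * D| ≤ δ * (X * D)) :
    ∀ m : ℕ, R + m ≤ J → |(NPr S b t ((R * X : ℕ) : ℤ) (m * X) : ℝ) - m * (X * D)| ≤ δ * (m * (X * D)) := by
  intro m
  induction m with
  | zero =>
    intro _
    have h0 : NPr S b t ((R * X : ℕ) : ℤ) (0 * X) = 0 := by
      rw [Nat.zero_mul]
      unfold NPr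
      simp
    rw [h0]
    simp
  | succ m ih =>
    intro hm
    have h1 := ih (by omega)
    have h2 := h (R + m) (by omega) (by omega)
    have h3 : NPr S b t ((R * X : ℕ) : ℤ) ((m + 1) * X) =
        NPr S b t ((R * X : ℕ) : ℤ) (m * X) + NPr S b t (((R + m) * X : ℕ) : ℤ) X := by
      have h4 : (m + 1) * X = m * X + X := by ring
      rw [h4, n9a_add]
      congr 2
      push_cast
      ring
    rw [h3]
    push_cast at h1 h2 ⊢
    rw [abs_le] at h1 h2 ⊢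
    constructor <;> linarith [h1.1, h1.2, h2.1, h2.2]

/-- The cells of length `X` together, for one `t`; `D` is the density, `Cs` the constant of the sieve bound.

Proof. `S = gsys γ f c`, `R = 20 S.sa`, `W = ⌈4 γ (Cs (2R+1) + 2R + 4) (1 + 1/ε)⌉ + 1`, `X = N / W`; `N` large: `X ≥ |γ0| + 1` and `|γ0| ≤ N/γ`, `N ≥ |γ0| + (R+1)(γ+1) X` (true as `W ≥ (R+1)(γ+1) + 1`, enlarge `W`), `√X ≤ X`. `J = (N - γ0 - R X) / (γ X)` (natural number,
`J ≥ R`), so `J γ X ≤ N - γ0 - R X < (J + 1) γ X`. Split `{1, …, N + |γ0|}` (this is `NPr .. 1 (N + |γ0|)`) into `n < R X`, the cells `[jX, (j+1)X)`, `R ≤ j < J` (all contained in it, since `γ J X ≤ N - γ0`, so `J X ≤ N + |γ0|`), and `n ≥ J X`;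
in the last part `N - γ0 - γ n > 0` (the value of the first form is a prime), so `n < J X + (R + 1) X`. The cells give `(J - R) X D` up to `(ε/4)(J - R) X D` (for `j < J` the condition `R X ≤ N - γ0 - γ j X` holds), the first and the last part at most
`Cs (2R + 1) X D`, and `|(J - R) X - N/γ| ≤ (2R + 2) X + |γ0| ≤ (2R + 3) X`. With `X ≤ N/W` the total error is at most `ε (N/γ) D`. -/
theorem N9a_comb {g d : ℕ} (γ : ℕ) (hγ : 0 < γ) (γ0 : ℤ) (f : Fin g → ℤ) (hf : ∀ i, 0 < f i) (c : Fin g → Fin d → ℤ)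
    (ε Cs : ℝ) (hε : 0 < ε) (hCs : 0 < Cs) : ∃ W : ℕ, 1 ≤ W ∧ ∃ N0 : ℕ, ∀ N : ℕ, N0 ≤ N → ∀ (b : Fin g → ℤ) (t : Fin d → ℤ)
    (D : ℝ), 0 ≤ D →
    (∀ j : ℕ, 20 * (gsys γ f c).sa ≤ j → ((20 * (gsys γ f c).sa * (N / W) : ℕ) : ℤ) ≤ N - γ0 - γ * ((j * (N / W) : ℕ) : ℤ) →
      |(NPr (gsys γ f c) (Fin.cons ((N : ℤ) - γ0) b) t ((j * (N / W) : ℕ) : ℤ) (N / W) : ℝ) - (N / W : ℕ) * D| ≤
        ε / 4 * ((N / W : ℕ) * D)) →
    (∀ (n0 : ℤ) (L : ℕ), ((N / W : ℕ) : ℝ) ^ (1 / 2 : ℝ) ≤ L →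
      (NPr (gsys γ f c) (Fin.cons ((N : ℤ) - γ0) b) t n0 L : ℝ) ≤ Cs * (L * D)) →
    |(NPr (gsys γ f c) (Fin.cons ((N : ℤ) - γ0) b) t 1 (N + γ0.natAbs) : ℝ) - N / γ * D| ≤ ε * (N / γ * D) := by
  obtain ⟨S, hSd⟩ : ∃ S : Sys (g + 1) d, S = gsys γ f c := ⟨_, rfl⟩
  obtain ⟨R, hR⟩ : ∃ R : ℕ, R = 20 * (gsys γ f c).sa := ⟨_, rfl⟩
  have hR1 : 1 ≤ R := by
    rw [hR]
    unfold Sys.sa
    omega
  obtain ⟨W1, hW1⟩ : ∃ W1 : ℕ, (4 * γ * (Cs * (2 * R + 1) + 2 * R + 4) * (1 + 1 / ε) : ℝ) ≤ W1 := exists_nat_ge _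
  obtain ⟨W, hW⟩ : ∃ W : ℕ, W = W1 + (R + 1) * (γ + 1) + 1 := ⟨_, rfl⟩
  refine ⟨W, by omega, W * (γ0.natAbs + 1), fun N hN b t D hD hcell hsieve => ?_⟩
  obtain ⟨X, hX⟩ : ∃ X : ℕ, X = N / W := ⟨_, rfl⟩
  rw [← hX, ← hR] at hcell
  rw [← hX] at hsieve
  rw [← hSd] at hcell hsieve ⊢
  have hW0 : 0 < W := by omega
  have hXge : γ0.natAbs + 1 ≤ X := by
    rw [hX, Nat.le_div_iff_mul_le hW0, Nat.mul_comm]
    exact hN
  have hXN : W * X ≤ N := by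
    rw [hX]
    exact Nat.mul_div_le N W
  have hRW : (R + 1) * (γ + 1) * X ≤ N := by
    refine le_trans (Nat.mul_le_mul_right _ ?_) hXN
    omega
  -- `J`
  have hpos : 0 ≤ (N : ℤ) - γ0 - (R * X : ℕ) := by
    have h1 : R * X + X ≤ (R + 1) * (γ + 1) * X := by
      have h2 : R * X + X = (R + 1) * X := by ring
      rw [h2]
      exact Nat.mul_le_mul_right _ (Nat.le_mul_of_pos_right _ (by omega))
    omega
  obtain ⟨Z, hZ⟩ : ∃ Z : ℕ, (Z : ℤ) = (N : ℤ) - γ0 - (R * X : ℕ) := ⟨((N : ℤ) - γ0 - (R * X : ℕ)).toNat, by omega⟩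
  obtain ⟨J, hJ⟩ : ∃ J : ℕ, J = Z / (γ * X) := ⟨_, rfl⟩
  have hγX : 0 < γ * X := Nat.mul_pos hγ (by omega)
  have hJ1 : J * (γ * X) ≤ Z := by
    rw [hJ]
    exact Nat.div_mul_le_self _ _
  have hJ2 : Z < (J + 1) * (γ * X) := by
    rw [hJ]
    exact (Nat.div_lt_iff_lt_mul hγX).1 (Nat.lt_succ_self _)
  have hRJ : R ≤ J := by
    rw [hJ, Nat.le_div_iff_mul_le hγX]
    have h1 : R * (γ * X) + R * X + X ≤ (R + 1) * (γ + 1) * X := by nlinarith
    omega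
  obtain ⟨m, rfl⟩ := Nat.exists_eq_add_of_le hRJ
  -- the parts
  have hJX : (R + m) * X ≤ Z := by
    refine le_trans ?_ hJ1
    have : X ≤ γ * X := Nat.le_mul_of_pos_left _ hγ
    exact Nat.mul_le_mul_left _ this
  have hRX1 : 1 ≤ R * X := Nat.mul_pos hR1 (by omega)
  have hZN : Z ≤ N + γ0.natAbs := by omega
  obtain ⟨r, hr⟩ : ∃ r : ℕ, N + γ0.natAbs = (R * X - 1) + (m * X + r) := by
    refine ⟨N + γ0.natAbs - ((R * X - 1) + m * X), ?_⟩
    have : (R + m) * X = R * X + m * X := by ring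
    omega
  obtain ⟨b', hb'⟩ : ∃ b' : Fin (g + 1) → ℤ, b' = Fin.cons ((N : ℤ) - γ0) b := ⟨_, rfl⟩
  rw [← hb'] at hcell hsieve ⊢
  have hsplit : NPr S b' t 1 (N + γ0.natAbs) = NPr S b' t 1 (R * X - 1) + (NPr S b' t ((R * X : ℕ) : ℤ) (m * X) +
      NPr S b' t (((R + m) * X : ℕ) : ℤ) r) := by
    rw [hr, n9a_add, n9a_add]
    have e1 : (1 : ℤ) + ((R * X - 1 : ℕ) : ℤ) = ((R * X : ℕ) : ℤ) := by omega
    rw [e1]
    congr 3
    push_cast
    ring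
  have hX1 : (1 : ℝ) ≤ X := by
    have : 1 ≤ X := by omega
    exact_mod_cast this
  have hsq : (X : ℝ) ^ (1 / 2 : ℝ) ≤ X := by
    calc (X : ℝ) ^ (1 / 2 : ℝ) ≤ (X : ℝ) ^ (1 : ℝ) := Real.rpow_le_rpow_of_exponent_le hX1 (by norm_num)
      _ = X := Real.rpow_one _
  have hR1' : (1 : ℝ) ≤ R := by exact_mod_cast hR1
  have hXX : (0 : ℝ) ≤ X := by linarith
  -- first part
  have p1 : (NPr S b' t 1 (R * X - 1) : ℝ) ≤ Cs * (R * X * D) := by
    have h1 := hsieve 1 (R * X) (by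
      push_cast
      nlinarith)
    have h2 : (NPr S b' t 1 (R * X - 1) : ℝ) ≤ NPr S b' t 1 (R * X) := by
      exact_mod_cast n9a_mono S b' t 1 (Nat.sub_le _ _)
    push_cast at h1
    linarith
  -- last part
  have p3 : (NPr S b' t (((R + m) * X : ℕ) : ℤ) r : ℝ) ≤ Cs * ((R + 1) * X * D) := by
    have h1 := hsieve (((R + m) * X : ℕ) : ℤ) ((R + 1) * X) (by
      push_cast
      nlinarith)
    have h2 : NPr S b' t (((R + m) * X : ℕ) : ℤ) r ≤ NPr S b' t (((R + m) * X : ℕ) : ℤ) ((R + 1) * X) := by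
      unfold NPr
      refine card_le_card ?_
      intro n hn
      rw [mem_filter, mem_range] at hn ⊢
      refine ⟨?_, hn.2⟩
      have h3 := hn.2 0
      rw [hSd, hb', g1_val0] at h3
      have h4 : 0 < (N : ℤ) - γ0 - γ * ((((R + m) * X : ℕ) : ℤ) + n) := by
        have := h3.pos
        omega
      have h5 : (N : ℤ) - γ0 < ((γ * ((R + m) * X + (R + 1) * X) : ℕ) : ℤ) := by
        have h6 : (Z : ℤ) < (((R + m + 1) * (γ * X) : ℕ) : ℤ) := by exact_mod_cast hJ2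
        have h7 : (((R * X : ℕ)) : ℤ) ≤ ((R * (γ * X) : ℕ) : ℤ) := by
          have : X ≤ γ * X := Nat.le_mul_of_pos_left _ hγ
          exact_mod_cast Nat.mul_le_mul_left R this
        have h8 : ((γ * ((R + m) * X + (R + 1) * X) : ℕ) : ℤ) = (((R + m + 1) * (γ * X) : ℕ) : ℤ) + ((R * (γ * X) : ℕ) : ℤ) := by
          push_cast
          ring
        rw [h8]
        omega
      have h9 : (γ : ℤ) * ((((R + m) * X : ℕ) : ℤ) + n) < (γ : ℤ) * (((R + m) * X + (R + 1) * X : ℕ) : ℤ) := by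
        have h10 : ((γ * ((R + m) * X + (R + 1) * X) : ℕ) : ℤ) = (γ : ℤ) * (((R + m) * X + (R + 1) * X : ℕ) : ℤ) := by
          push_cast
          ring
        rw [← h10]
        linarith
      have h11 := lt_of_mul_lt_mul_left h9 (Int.natCast_nonneg γ)
      omega
    have h2' : (NPr S b' t (((R + m) * X : ℕ) : ℤ) r : ℝ) ≤ NPr S b' t (((R + m) * X : ℕ) : ℤ) ((R + 1) * X) := by
      exact_mod_cast h2
    push_cast at h1 h2' ⊢
    linarith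
  -- the cells
  have p2 := n9a_cells S b' t X R (R + m) D (ε / 4) (fun j hj hj2 => hcell j hj (by
    have h1 : ((j * (γ * X) : ℕ) : ℤ) ≤ (((R + m) * (γ * X) : ℕ) : ℤ) := by
      exact_mod_cast Nat.mul_le_mul_right (γ * X) hj2.le
    have h2 : (((R + m) * (γ * X) : ℕ) : ℤ) ≤ Z := by exact_mod_cast hJ1
    have h3 : (γ : ℤ) * ((j * X : ℕ) : ℤ) = ((j * (γ * X) : ℕ) : ℤ) := by push_cast; ring
    rw [h3]
    omega)) m le_rfl
  -- the length
  have hγ' : (1 : ℝ) ≤ γ := by exact_mod_cast hγ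
  have hγ0 : (0 : ℝ) < γ := by linarith
  have hZr : (Z : ℝ) = (N : ℝ) - γ0 - R * X := by
    have : ((Z : ℤ) : ℝ) = (((N : ℤ) - γ0 - (R * X : ℕ) : ℤ) : ℝ) := by rw [hZ]
    push_cast at this
    exact this
  have hg0 : |(γ0 : ℝ)| ≤ X := by
    have h1 : (γ0.natAbs : ℝ) ≤ X := by
      have : γ0.natAbs ≤ X := by omega
      exact_mod_cast this
    have h2 : (γ0.natAbs : ℝ) = |(γ0 : ℝ)| := by
      rw [Nat.cast_natAbs, Int.cast_abs]
    rw [← h2]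
    exact h1
  have hg0' := abs_le.1 hg0
  have q1 : (m : ℝ) * X ≤ N / γ + X := by
    have h1 : (((R + m) * (γ * X) : ℕ) : ℝ) ≤ Z := by exact_mod_cast hJ1
    push_cast at h1
    have h2 : γ * ((m : ℝ) * X) ≤ γ * (N / γ + X) := by
      have h3 : γ * ((N : ℝ) / γ + X) = N + γ * X := by
        field_simp
      rw [h3]
      nlinarith [mul_nonneg (mul_nonneg (by linarith : (0:ℝ) ≤ R) hγ0.le) hXX, mul_nonneg (by linarith : (0:ℝ) ≤ R) hXX]
    exact le_of_mul_le_mul_left h2 hγ0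
  have q2 : (N : ℝ) / γ - (2 * R + 2) * X ≤ (m : ℝ) * X := by
    have h1 : (Z : ℝ) ≤ (((R + m + 1) * (γ * X) : ℕ) : ℝ) := by exact_mod_cast hJ2.le
    push_cast at h1
    have h2 : γ * ((N : ℝ) / γ - (2 * R + 2) * X) ≤ γ * ((m : ℝ) * X) := by
      have h3 : γ * ((N : ℝ) / γ - (2 * R + 2) * X) = N - γ * ((2 * R + 2) * X) := by
        field_simp
      rw [h3]
      have h4 : (R : ℝ) * X ≤ R * (γ * X) := by
        refine mul_le_mul_of_nonneg_left ?_ (by linarith)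
        nlinarith
      nlinarith
    exact le_of_mul_le_mul_left h2 hγ0
  -- the total
  have hND : 0 ≤ (X : ℝ) * D := mul_nonneg hXX hD
  have hWr : (W : ℝ) * X ≤ N := by exact_mod_cast hXN
  have hfin : (Cs * (2 * R + 1) + (2 * R + 2) + ε / 4) * X ≤ 3 * ε / 4 * (N / γ) := by
    have h1 : (Cs * (2 * R + 1) + (2 * R + 2) + ε / 4) * γ ≤ 3 * ε / 4 * W := by
      have h2 : ε * (4 * γ * (Cs * (2 * R + 1) + 2 * R + 4) * (1 + 1 / ε)) ≤ ε * W := by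
        refine mul_le_mul_of_nonneg_left ?_ hε.le
        have : (W1 : ℝ) ≤ W := by
          have : W1 ≤ W := by omega
          exact_mod_cast this
        linarith
      have h3 : ε * (4 * γ * (Cs * (2 * R + 1) + 2 * R + 4) * (1 + 1 / ε)) =
          4 * γ * (Cs * (2 * R + 1) + 2 * R + 4) * (ε + 1) := by
        field_simp
      rw [h3] at h2
      have h4 : 0 ≤ Cs * (2 * R + 1) := by positivity
      have h5 : 0 ≤ γ * (Cs * (2 * R + 1)) := by positivity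
      nlinarith [mul_nonneg h5 hε.le, mul_nonneg (mul_nonneg hγ0.le (by linarith : (0:ℝ) ≤ R)) hε.le, mul_pos hγ0 hε]
    have h6 : (Cs * (2 * R + 1) + (2 * R + 2) + ε / 4) * X * γ ≤ 3 * ε / 4 * N := by
      calc (Cs * (2 * R + 1) + (2 * R + 2) + ε / 4) * X * γ = (Cs * (2 * R + 1) + (2 * R + 2) + ε / 4) * γ * X := by ring
        _ ≤ 3 * ε / 4 * W * X := mul_le_mul_of_nonneg_right h1 hXX
        _ = 3 * ε / 4 * (W * X) := by ring
        _ ≤ 3 * ε / 4 * N := mul_le_mul_of_nonneg_left hWr (by positivity)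
    have h7 : 3 * ε / 4 * ((N : ℝ) / γ) = 3 * ε / 4 * N / γ := by ring
    rw [h7, le_div_iff₀ hγ0]
    exact h6
  have hfinD : (Cs * (2 * R + 1) + (2 * R + 2) + ε / 4) * X * D ≤ 3 * ε / 4 * (N / γ) * D :=
    mul_le_mul_of_nonneg_right hfin hD
  have q1D : (m : ℝ) * X * D ≤ (N / γ + X) * D := mul_le_mul_of_nonneg_right q1 hD
  have q2D : ((N : ℝ) / γ - (2 * R + 2) * X) * D ≤ (m : ℝ) * X * D := mul_le_mul_of_nonneg_right q2 hD
  have hsplit' : (NPr S b' t 1 (N + γ0.natAbs) : ℝ) = NPr S b' t 1 (R * X - 1) + (NPr S b' t ((R * X : ℕ) : ℤ) (m * X) +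
      NPr S b' t (((R + m) * X : ℕ) : ℤ) r) := by exact_mod_cast hsplit
  have n1 : (0 : ℝ) ≤ NPr S b' t 1 (R * X - 1) := Nat.cast_nonneg _
  have n3 : (0 : ℝ) ≤ NPr S b' t (((R + m) * X : ℕ) : ℤ) r := Nat.cast_nonneg _
  rw [hsplit']
  rw [abs_le] at p2 ⊢
  have hεq : ε / 4 * ((m : ℝ) * (X * D)) ≤ ε / 4 * ((N / γ + X) * D) := by
    refine mul_le_mul_of_nonneg_left ?_ (by positivity)
    linarith
  have hc0 : 0 ≤ Cs * (2 * R + 1) * (X * D) := by positivity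
  have hc1 : 0 ≤ (2 * R + 1 : ℝ) * (X * D) := by positivity
  constructor
  · linarith [p2.1, p2.2]
  · linarith [p2.1, p2.2]

end Pool.Agent.H9A
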