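import Pool.Agent.Lib.H9A.N6b
import Pool.Agent.Lib.H9A.N7
import Pool.Agent.Lib.H9A.N8
import Pool.Agent.Lib.H9A.N9a
import Pool.Agent.Lib.HUK.D31

/-!
# ASY, chunk N9 (M/L): all `n`, few `t` without the asymptotic formula
-/

open Finset Filter

namespace Pool.Agent.H9A

open Pool.Agent.H9U
open Pool.Agent.H96U (gsys g1_val0 g1_valS)
open Pool.Agent.HUK (MinP)
open Pool.Agent.Lib.H59P (bx pr)

/-- powers of logarithms -/
theorem n9_log (W k : ℕ) (ε : ℝ) (hε : 0 < ε) : ∃ X2 : ℕ, ∀ X N : ℕ, X2 ≤ X → X ≤ N → N ≤ 2 * W * X →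
    0 < (Real.log X) ^ k ∧ (Real.log X) ^ k ≤ (Real.log N) ^ k ∧ (Real.log N) ^ k ≤ (1 + ε) * (Real.log X) ^ k := by
  obtain ⟨L, hL⟩ : ∃ L : ℝ, L = Real.log (2 * W + 1) := ⟨_, rfl⟩
  have hW0 : (0 : ℝ) ≤ W := Nat.cast_nonneg W
  have hL0 : 0 ≤ L := by
    rw [hL]
    exact Real.log_nonneg (by linarith)
  have h1 : Tendsto (fun X : ℕ => Real.log (X : ℝ)) atTop atTop :=
    Real.tendsto_log_atTop.comp tendsto_natCast_atTop_atTop
  have h2 : Tendsto (fun X : ℕ => (1 + L / Real.log (X : ℝ)) ^ k) atTop (nhds ((1 + 0) ^ k)) :=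
    ((h1.const_div_atTop L).const_add 1).pow k
  have h3 : ((1 : ℝ) + 0) ^ k < 1 + ε := by
    rw [add_zero, one_pow]
    linarith
  have h4 := h2.eventually (gt_mem_nhds h3)
  obtain ⟨X2, hX2⟩ := Filter.eventually_atTop.1 h4
  refine ⟨X2 + 3, fun X N hX hXN hN => ?_⟩
  have h5 := hX2 X (by omega)
  have hX3 : (3 : ℝ) ≤ X := by
    have : 3 ≤ X := by omega
    exact_mod_cast this
  have hlX : 0 < Real.log X := Real.log_pos (by linarith)
  have hNX : (X : ℝ) ≤ N := by exact_mod_cast hXN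
  have hlog : Real.log X ≤ Real.log N := Real.log_le_log (by linarith) hNX
  refine ⟨pow_pos hlX k, pow_le_pow_left₀ hlX.le hlog k, ?_⟩
  have hN2 : (N : ℝ) ≤ (2 * W + 1) * X := by
    have h6 : (N : ℝ) ≤ 2 * W * X := by exact_mod_cast hN
    nlinarith
  have h7 : Real.log N ≤ L + Real.log X := by
    rw [hL, ← Real.log_mul (by positivity) (by positivity)]
    exact Real.log_le_log (by linarith) hN2
  have h8 : L + Real.log X = Real.log X * (1 + L / Real.log X) := by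
    field_simp
    ring
  calc (Real.log N) ^ k ≤ (Real.log X * (1 + L / Real.log X)) ^ k := by
        rw [← h8]
        exact pow_le_pow_left₀ (hlX.le.trans hlog) h7 k
    _ = (Real.log X) ^ k * (1 + L / Real.log X) ^ k := mul_pow _ _ _
    _ ≤ (Real.log X) ^ k * (1 + ε) := mul_le_mul_of_nonneg_left h5.le (pow_nonneg hlX.le k)
    _ = (1 + ε) * (Real.log X) ^ k := mul_comm _ _

/-- a large power of `N` -/
theorem n9_pow (B κ : ℝ) (hκ : 0 < κ) : ∃ N1 : ℕ, ∀ N : ℕ, N1 ≤ N → B ≤ (N : ℝ) ^ κ := by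
  have h := (tendsto_rpow_atTop hκ).comp tendsto_natCast_atTop_atTop
  obtain ⟨N1, h1⟩ := Filter.eventually_atTop.1 (h.eventually_ge_atTop B)
  exact ⟨N1, fun N hN => h1 N hN⟩

/-- replacing the truncated series by the complete one, and `log X` by `log N` -/
theorem n9_calc (P Y Sx s lX lN e ε : ℝ) (hY : 0 ≤ Y) (hs : 0 < s) (hlX : 0 < lX) (h1 : lX ≤ lN)
    (h2 : lN ≤ (1 + e) * lX) (he : 0 < e) (he1 : 16 * e ≤ 1) (heε : 16 * e ≤ ε) (h3 : |Sx - s| ≤ e * s)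
    (h4 : |P - Y * (Sx / lX)| ≤ e * (Y * (Sx / lX))) : |P - Y * (s / lN)| ≤ ε * (Y * (s / lN)) := by
  have hlN : 0 < lN := lt_of_lt_of_le hlX h1
  obtain ⟨D, hD⟩ : ∃ D : ℝ, D = Sx / lX := ⟨_, rfl⟩
  obtain ⟨r, hr⟩ : ∃ r : ℝ, r = s / lN := ⟨_, rfl⟩
  rw [← hD] at h4
  rw [← hr]
  have h5 := abs_le.1 h3
  have hr0 : 0 < r := by
    rw [hr]
    exact div_pos hs hlN
  have hDr : D * lX = Sx := by
    rw [hD]
    exact div_mul_cancel₀ _ hlX.ne'
  have hrs : r * lN = s := by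
    rw [hr]
    exact div_mul_cancel₀ _ hlN.ne'
  have hD1 : D ≤ (1 + e) * (1 + e) * r := by
    have h6 : D * lX ≤ ((1 + e) * (1 + e) * r) * lX := by
      rw [hDr]
      calc Sx ≤ (1 + e) * s := by linarith
        _ = (1 + e) * (r * lN) := by rw [hrs]
        _ ≤ (1 + e) * (r * ((1 + e) * lX)) :=
          mul_le_mul_of_nonneg_left (mul_le_mul_of_nonneg_left h2 hr0.le) (by linarith)
        _ = ((1 + e) * (1 + e) * r) * lX := by ring
    exact le_of_mul_le_mul_right h6 hlX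
  have hD2 : (1 - e) * r ≤ D := by
    have h6 : ((1 - e) * r) * lX ≤ D * lX := by
      rw [hDr]
      calc ((1 - e) * r) * lX = (1 - e) * (r * lX) := by ring
        _ ≤ (1 - e) * (r * lN) :=
          mul_le_mul_of_nonneg_left (mul_le_mul_of_nonneg_left h1 hr0.le) (by linarith)
        _ = (1 - e) * s := by rw [hrs]
        _ ≤ Sx := by linarith
    exact le_of_mul_le_mul_right h6 hlX
  have hD3 : D - r ≤ 3 * e * r := by
    have : (1 + e) * (1 + e) ≤ 1 + 3 * e := by nlinarith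
    nlinarith
  have hD4 : -(3 * e * r) ≤ D - r := by nlinarith
  have hD5 : D ≤ 2 * r := by nlinarith
  have h7 : |Y * D - Y * r| ≤ Y * (3 * e * r) := by
    rw [← mul_sub, abs_mul, abs_of_nonneg hY]
    exact mul_le_mul_of_nonneg_left (abs_le.2 ⟨hD4, hD3⟩) hY
  have h8 : Y * D ≤ Y * (2 * r) := mul_le_mul_of_nonneg_left hD5 hY
  have h9 : 0 ≤ Y * r := mul_nonneg hY hr0.le
  calc |P - Y * r| ≤ |P - Y * D| + |Y * D - Y * r| := abs_sub_le _ _ _
    _ ≤ e * (Y * D) + Y * (3 * e * r) := add_le_add h4 h7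
    _ ≤ e * (Y * (2 * r)) + Y * (3 * e * r) := by
        have := mul_le_mul_of_nonneg_left h8 he.le
        linarith
    _ = (5 * e) * (Y * r) := by ring
    _ ≤ ε * (Y * r) := mul_le_mul_of_nonneg_right (by linarith) h9

/-- the linear forms in `t` are at most `sc N` -/
theorem n9_abs {g d : ℕ} (γ : ℤ) (f : Fin g → ℤ) (c : Fin g → Fin d → ℤ) (N : ℕ) (t : Fin d → ℕ)
    (ht : ∀ j, t j ≤ N) (i : Fin g) : |∑ j, c i j * (t j : ℤ)| ≤ (((gsys γ f c).sc * N : ℕ) : ℤ) := by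
  have hsc : ∑ j, (c i j).natAbs ≤ (gsys γ f c).sc := by
    have h3 : (gsys γ f c).sc = 1 + ∑ i : Fin (g + 1), ∑ j, ((gsys γ f c).c i j).natAbs := rfl
    rw [h3, Fin.sum_univ_succ]
    have h2 : ∑ j, (c i j).natAbs ≤ ∑ i, ∑ j, (c i j).natAbs :=
      Finset.single_le_sum (f := fun i => ∑ j, (c i j).natAbs) (fun _ _ => Nat.zero_le _) (mem_univ i)
    have h4 : ∑ i : Fin g, ∑ j, ((gsys γ f c).c i.succ j).natAbs = ∑ i, ∑ j, (c i j).natAbs := rfl
    rw [h4]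
    omega
  calc |∑ j, c i j * (t j : ℤ)| ≤ ∑ j, |c i j * (t j : ℤ)| := Finset.abs_sum_le_sum_abs _ _
    _ ≤ ∑ j, |c i j| * N := by
      refine Finset.sum_le_sum fun j _ => ?_
      rw [abs_mul, abs_of_nonneg (Int.natCast_nonneg (t j))]
      exact mul_le_mul_of_nonneg_left (by exact_mod_cast ht j) (abs_nonneg _)
    _ = (∑ j, |c i j|) * N := by rw [Finset.sum_mul]
    _ ≤ (gsys γ f c).sc * N := by
      refine mul_le_mul_of_nonneg_right ?_ (Int.natCast_nonneg N)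
      have h1 : (∑ j, |c i j|) = ((∑ j, (c i j).natAbs : ℕ) : ℤ) := by
        push_cast
        rfl
      rw [h1]
      exact_mod_cast hsc
    _ = (((gsys γ f c).sc * N : ℕ) : ℤ) := by push_cast; rfl

/-- the minors are not zero, and not large -/
theorem n9_nz {g d : ℕ} (γ : ℕ) (γ0 : ℤ) (f : Fin g → ℤ) (c : Fin g → Fin d → ℤ) (C N X W : ℕ) (b : Fin g → ℤ)
    (hb : ∀ i, |b i| ≤ (C * N : ℕ)) (t : Fin d → ℕ) (ht : ∀ j, t j ≤ N) (hγ0 : γ0.natAbs ≤ N) (hN : N ≤ 2 * W * X)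
    (hX1 : 1 ≤ X) (hX : 4 * W * (gsys γ f c).sa * (C + (gsys γ f c).sc + 2) ≤ X)
    (hm : ∀ i j, i ≠ j → (gsys γ f c).minr (Fin.cons ((N : ℤ) - γ0) b) (iv t) i j ≠ 0) :
    NZ (gsys γ f c) (Fin.cons ((N : ℤ) - γ0) b) (iv t) X := by
  obtain ⟨S, hSd⟩ : ∃ S : Sys (g + 1) d, S = gsys γ f c := ⟨_, rfl⟩
  have hval : ∀ i, |(gsys γ f c).val (Fin.cons ((N : ℤ) - γ0) b) 0 (iv t) i| ≤
      (((C + (gsys γ f c).sc + 2) * N : ℕ) : ℤ) := by
    intro i
    refine Fin.cases ?_ (fun i => ?_) i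
    · rw [g1_val0]
      have h1 : (((C + (gsys γ f c).sc + 2) * N : ℕ) : ℤ) = (((C + (gsys γ f c).sc) * N : ℕ) : ℤ) + 2 * (N : ℤ) := by
        push_cast
        ring
      rw [h1, mul_zero, sub_zero, abs_le]
      have h2 : (0 : ℤ) ≤ (((C + (gsys γ f c).sc) * N : ℕ) : ℤ) := Int.natCast_nonneg _
      constructor <;> omega
    · rw [g1_valS, mul_zero, zero_add]
      have h1 := hb i
      have h2 := n9_abs γ f c N t ht i
      have hiv : ∀ j, iv t j = (t j : ℤ) := fun j => rfl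
      simp only [hiv]
      refine (abs_add_le _ _).trans ((add_le_add h1 h2).trans ?_)
      have h3 : (((C + (gsys γ f c).sc + 2) * N : ℕ) : ℤ) = ((C * N : ℕ) : ℤ) + (((gsys γ f c).sc * N : ℕ) : ℤ) + 2 * (N : ℤ) := by
        push_cast
        ring
      rw [h3]
      have h4 : (0 : ℤ) ≤ (N : ℤ) := Int.natCast_nonneg _
      linarith
  have ha : ∀ i, |(gsys γ f c).a i| ≤ (((gsys γ f c).sa : ℕ) : ℤ) := by
    intro i
    have h1 : ((gsys γ f c).a i).natAbs ≤ ∑ i, ((gsys γ f c).a i).natAbs :=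
      Finset.single_le_sum (f := fun i => ((gsys γ f c).a i).natAbs) (fun _ _ => Nat.zero_le _) (mem_univ i)
    have h2 : ((gsys γ f c).a i).natAbs ≤ (gsys γ f c).sa := by
      unfold Sys.sa
      omega
    rw [Int.abs_eq_natAbs]
    exact_mod_cast h2
  intro i j hij
  refine ⟨hm i j hij, ?_⟩
  have h1 : ∀ i j, |(gsys γ f c).a i * (gsys γ f c).val (Fin.cons ((N : ℤ) - γ0) b) 0 (iv t) j| ≤
      (((gsys γ f c).sa * ((C + (gsys γ f c).sc + 2) * N) : ℕ) : ℤ) := by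
    intro i j
    rw [abs_mul]
    have := mul_le_mul (ha i) (hval j) (abs_nonneg _) (Int.natCast_nonneg _)
    exact_mod_cast this
  have h2 : |(gsys γ f c).minr (Fin.cons ((N : ℤ) - γ0) b) (iv t) i j| ≤
      (((gsys γ f c).sa * ((C + (gsys γ f c).sc + 2) * N) : ℕ) : ℤ) +
      (((gsys γ f c).sa * ((C + (gsys γ f c).sc + 2) * N) : ℕ) : ℤ) := by
    unfold Sys.minr
    exact (abs_sub _ _).trans (add_le_add (h1 i j) (h1 j i))
  have h3 : (gsys γ f c).sa * ((C + (gsys γ f c).sc + 2) * N) + (gsys γ f c).sa * ((C + (gsys γ f c).sc + 2) * N) ≤ X ^ 3 := by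
    calc (gsys γ f c).sa * ((C + (gsys γ f c).sc + 2) * N) + (gsys γ f c).sa * ((C + (gsys γ f c).sc + 2) * N)
        ≤ (gsys γ f c).sa * ((C + (gsys γ f c).sc + 2) * (2 * W * X)) + (gsys γ f c).sa * ((C + (gsys γ f c).sc + 2) * (2 * W * X)) := by
          have h5 := Nat.mul_le_mul_left ((gsys γ f c).sa) (Nat.mul_le_mul_left (C + (gsys γ f c).sc + 2) hN)
          omega
      _ = (4 * W * (gsys γ f c).sa * (C + (gsys γ f c).sc + 2)) * X := by ring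
      _ ≤ X * X := Nat.mul_le_mul_right _ hX
      _ ≤ X * X * X := Nat.le_mul_of_pos_right _ hX1
      _ = X ^ 3 := by ring
  refine h2.trans ?_
  exact_mod_cast h3

open Classical in
/-- Proof. `S = gsys γ f c`, `k = g + 1`, `ε' = min ε 1 / 16`. `Cs` from `N7_upper`, `W` from `N9a_comb ε' Cs`, `X = N / W`. `C1` a constant (of `W, γ, f, c, C, S.sa`) such that `N + 1 ≤ C1 X` and all values at `n ≤ N + |γ0|`, `t ∈ [0, N]^d` are at most `C1 X`
for `N` large (compare the bounds in `G1_main`, `H96U/G1.lean`). `N8_cover` with `C0 := C1`, `A := A + 1`, `ε := ε'/4` gives `κ`; given `M0` take `M1` from it for a bound `M0' ≥ M0`, all thresholds and `(2 W)^A`; `M = W (M1 + 1)`: for `M ≤ N ≤ M^A`, `M1 ≤ X ≤ N ≤ M1^(A+1)`.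
Let `t` be in the set. If a minor vanishes: at most `(g+1)² (N+1)^(d-1)` of them (`D31_minor`). Otherwise `NZ S b' t X` (`|minr| ≤ 2 max|a_i| max|val| ≤ C' N ≤ X^3`). If for all `j` with `R ≤ j`, `R X ≤ N - γ0 - γ j X` the point `t` is not `Bad` at `n0 = j X` (with `ε'/4`), then
`N9a_comb` (with `D = Dn S b' t X`, `N7_upper`) and `N6_lim` (`ε'`), `(log X)^k ≤ (log N)^k ≤ (1 + ε') (log X)^k` give the formula with `ε`, contradiction. So `t` is `Bad` at `j X` for one of these `j`; there are at most `2 W + 2` of them (`γ j X ≤ N + |γ0|`), and for each `j`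
the values satisfy `R X ≤ val b' (jX) t i ≤ C1 X` (`i = 0`: condition on `j`; `i ≥ 1`: `f_i j X + shift ≥ j X ≥ R X`, `S.sa ≥ 1`), so at most `X^(d-κ)` such `t`. The total `(2W+2) N^(d-κ) + (g+1)² (N+1)^(d-1) ≤ N^(d-η)`, `η = κ/2`. -/
theorem N9b_main {g d : ℕ} (hd : 1 ≤ d) (γ : ℕ) (hγ : 0 < γ) (γ0 : ℤ) (f : Fin g → ℤ) (hf : ∀ i, 0 < f i)
    (c : Fin g → Fin d → ℤ) (hC : ACore (gsys γ f c)) (hM : MinP (gsys γ f c)) (C A : ℕ) (hA : 1 ≤ A) (ε : ℝ) (hε : 0 < ε) :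
    ∃ η : ℝ, 0 < η ∧ ∀ M0 : ℕ, ∃ M : ℕ, M0 ≤ M ∧ ∀ N : ℕ, M ≤ N → N ≤ M ^ A → ∀ b : Fin g → ℤ, (∀ i, |b i| ≤ (C * N : ℕ)) →
    (((bx d (N + 1)).filter (fun t => (∀ i, 0 ≤ b i + ∑ j, c i j * t j) ∧
      (gsys γ f c).Adm (Fin.cons ((N : ℤ) - γ0) b) (iv t) ∧
      ¬ ∃ s : ℝ, 0 < s ∧ Tendsto (fun z : ℕ => SSS (gsys γ f c) (Fin.cons ((N : ℤ) - γ0) b) (iv t) (pr z)) atTop (nhds s) ∧
        |(NPr (gsys γ f c) (Fin.cons ((N : ℤ) - γ0) b) (iv t) 1 (N + γ0.natAbs) : ℝ) - N / γ * (s / Real.log N ^ (g + 1))| ≤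
          ε * (N / γ * (s / Real.log N ^ (g + 1))))).card : ℝ) ≤ (N : ℝ) ^ (d - η) := by
  have ha : ∀ i, (gsys (γ : ℤ) f c).a i ≠ 0 := by
    intro i
    refine Fin.cases ?_ (fun i => ?_) i
    · show (-(γ : ℤ)) ≠ 0
      omega
    · show f i ≠ 0
      exact (hf i).ne'
  obtain ⟨e, he⟩ : ∃ e : ℝ, e = min ε 1 / 16 := ⟨_, rfl⟩
  have he0 : 0 < e := by
    rw [he]
    have : 0 < min ε 1 := lt_min hε one_pos
    linarith
  have he1 : 16 * e ≤ 1 := by
    rw [he]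
    have := min_le_right ε 1
    linarith
  have heε : 16 * e ≤ ε := by
    rw [he]
    have := min_le_left ε 1
    linarith
  obtain ⟨Cs, hCs, X7, h7⟩ := N7_upper (k := g + 1) (by omega) (gsys (γ : ℤ) f c) ha
  obtain ⟨W, hW, N9, h9⟩ := N9a_comb γ hγ γ0 f hf c e Cs he0 hCs
  obtain ⟨X6, h6⟩ := N6_lim (gsys (γ : ℤ) f c) ha e he0
  obtain ⟨X2, h2⟩ := n9_log W (g + 1) e he0
  obtain ⟨Fs, hFs⟩ : ∃ Fs : ℕ, Fs = ∑ i, (f i).natAbs := ⟨_, rfl⟩
  obtain ⟨C1, hC1⟩ : ∃ C1 : ℕ, C1 = Fs * (4 * W) + (C + (gsys (γ : ℤ) f c).sc + 2) * (2 * W) := ⟨_, rfl⟩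
  obtain ⟨κ, hκ, hκ1, h8⟩ := N8_cover (gsys (γ : ℤ) f c) hC C1 (A + 1) (by omega) (e / 4) (by linarith)
  obtain ⟨B, hB⟩ : ∃ B : ℕ, B = 4 * W + (g + 1) * (g + 1) * 2 ^ (d - 1) := ⟨_, rfl⟩
  obtain ⟨N1, hN1⟩ := n9_pow B (κ / 2) (by linarith)
  refine ⟨κ / 2, by linarith, fun M0 => ?_⟩
  obtain ⟨M1, hM1, h8'⟩ := h8 (M0 + X7 + N9 + X6 + X2 + N1 + γ0.natAbs +
    4 * W * (gsys (γ : ℤ) f c).sa * (C + (gsys (γ : ℤ) f c).sc + 2) + (2 * W) ^ A + 1)
  refine ⟨W * (M1 + 1), ?_, fun N hMN hNM b hb => ?_⟩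
  · have : M1 + 1 ≤ W * (M1 + 1) := Nat.le_mul_of_pos_left _ hW
    omega
  obtain ⟨X, hX⟩ : ∃ X : ℕ, X = N / W := ⟨_, rfl⟩
  have hXM : M1 + 1 ≤ X := by
    rw [hX, Nat.le_div_iff_mul_le (by omega), Nat.mul_comm]
    exact hMN
  have hXN : X ≤ N := by
    rw [hX]
    exact Nat.div_le_self _ _
  have hX1 : 1 ≤ X := by omega
  have hNX : N + 1 ≤ 2 * W * X := by
    have h1 := Nat.div_add_mod N W
    have h2 := Nat.mod_lt N (show 0 < W by omega)
    rw [← hX] at h1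
    nlinarith
  have hXA : X ≤ M1 ^ (A + 1) := by
    calc X ≤ N := hXN
      _ ≤ (W * (M1 + 1)) ^ A := hNM
      _ ≤ (2 * W * M1) ^ A := by
        have h1 : W * 1 ≤ W * M1 := Nat.mul_le_mul_left _ (by omega)
        refine Nat.pow_le_pow_left ?_ A
        have h2 : W * (M1 + 1) = W * M1 + W * 1 := by ring
        have h3 : 2 * W * M1 = W * M1 + W * M1 := by ring
        omega
      _ = (2 * W) ^ A * M1 ^ A := mul_pow _ _ _
      _ ≤ M1 * M1 ^ A := Nat.mul_le_mul_right _ (by omega)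
      _ = M1 ^ (A + 1) := by ring
  have hγ0N : γ0.natAbs ≤ N := by omega
  have h8N := h8' X (by omega) hXA (Fin.cons ((N : ℤ) - γ0) b)
  have h9N := h9 N (by omega) b
  rw [← hX] at h9N
  obtain ⟨hl1, hl2, hl3⟩ := h2 X N (by omega) hXN (by omega)
  have hC1X : C1 * X = Fs * (4 * W * X) + (C + (gsys (γ : ℤ) f c).sc) * (2 * W * X) + 2 * (2 * W * X) := by
    rw [hC1]
    ring
  have hNC1 : N + 1 ≤ C1 * X := by
    rw [hC1X]
    have h1 := Nat.zero_le (Fs * (4 * W * X))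
    have h3 := Nat.zero_le ((C + (gsys (γ : ℤ) f c).sc) * (2 * W * X))
    omega
  obtain ⟨Zj, hZj⟩ : ∃ Zj : ℕ → Finset (Fin d → ℕ), Zj = fun j => (bx d (N + 1)).filter (fun t =>
      (∀ i, (20 * (gsys (γ : ℤ) f c).sa * X : ℕ) ≤ (gsys (γ : ℤ) f c).val (Fin.cons ((N : ℤ) - γ0) b) ((j * X : ℕ) : ℤ) (iv t) i ∧
        (gsys (γ : ℤ) f c).val (Fin.cons ((N : ℤ) - γ0) b) ((j * X : ℕ) : ℤ) (iv t) i ≤ (C1 * X : ℕ)) ∧
      Bad (gsys (γ : ℤ) f c) (Fin.cons ((N : ℤ) - γ0) b) ((j * X : ℕ) : ℤ) X (e / 4) t) := ⟨_, rfl⟩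
  have hZ : ∀ j, ((Zj j).card : ℝ) ≤ (X : ℝ) ^ (d - κ) := by
    intro j
    refine h8N ((j * X : ℕ) : ℤ) (N + 1) hNC1 (Zj j) fun t ht => ?_
    rw [hZj] at ht
    obtain ⟨ht1, ht2⟩ := mem_filter.1 ht
    exact ⟨ht1, ht2.1, ht2.2⟩
  obtain ⟨Zm, hZm⟩ : ∃ Zm : Finset (Fin d → ℕ), Zm = (bx d (N + 1)).filter (fun t => ∃ i j, i ≠ j ∧
      (gsys (γ : ℤ) f c).minr (Fin.cons ((N : ℤ) - γ0) b) (iv t) i j = 0) := ⟨_, rfl⟩
  have hZmc : Zm.card ≤ (g + 1) * (g + 1) * (N + 1) ^ (d - 1) := by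
    rw [hZm]
    exact Pool.Agent.HUK.D31_minor (gsys (γ : ℤ) f c) hM hd (Fin.cons ((N : ℤ) - γ0) b) (N + 1) (by omega)
  have hsub : (bx d (N + 1)).filter (fun t => (∀ i, 0 ≤ b i + ∑ j, c i j * t j) ∧
      (gsys γ f c).Adm (Fin.cons ((N : ℤ) - γ0) b) (iv t) ∧
      ¬ ∃ s : ℝ, 0 < s ∧ Tendsto (fun z : ℕ => SSS (gsys γ f c) (Fin.cons ((N : ℤ) - γ0) b) (iv t) (pr z)) atTop (nhds s) ∧
        |(NPr (gsys γ f c) (Fin.cons ((N : ℤ) - γ0) b) (iv t) 1 (N + γ0.natAbs) : ℝ) - N / γ * (s / Real.log N ^ (g + 1))| ≤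
          ε * (N / γ * (s / Real.log N ^ (g + 1)))) ⊆ Zm ∪ (range (4 * W)).biUnion Zj := by
    intro t ht
    rw [mem_filter] at ht
    obtain ⟨ht1, ht2, ht3, ht4⟩ := ht
    rw [mem_union]
    by_contra hno
    rw [not_or] at hno
    obtain ⟨hno1, hno2⟩ := hno
    have htj : ∀ j, t j ≤ N := by
      intro j
      have := Fintype.mem_piFinset.1 ht1 j
      rw [mem_range] at this
      omega
    have hm : ∀ i j, i ≠ j → (gsys (γ : ℤ) f c).minr (Fin.cons ((N : ℤ) - γ0) b) (iv t) i j ≠ 0 := by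
      intro i j hij h0
      apply hno1
      rw [hZm]
      exact mem_filter.2 ⟨ht1, i, j, hij, h0⟩
    have hNZ := n9_nz γ γ0 f c C N X W b hb t htj hγ0N (by omega) hX1 (by omega) hm
    obtain ⟨s, hs0, hs1, hs2⟩ := h6 X (by omega) (Fin.cons ((N : ℤ) - γ0) b) (iv t) ht3 hNZ
    apply ht4
    refine ⟨s, hs0, hs1, ?_⟩
    have hD0 : 0 ≤ Dn (gsys (γ : ℤ) f c) (Fin.cons ((N : ℤ) - γ0) b) (iv t) X := by
      refine div_nonneg ?_ hl1.le
      have h1 := (abs_le.1 hs2).1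
      nlinarith
    have hmain := h9N (iv t) (Dn (gsys (γ : ℤ) f c) (Fin.cons ((N : ℤ) - γ0) b) (iv t) X) hD0 ?_ ?_
    · refine n9_calc _ _ (SSS (gsys (γ : ℤ) f c) (Fin.cons ((N : ℤ) - γ0) b) (iv t) (pr X)) s
        ((Real.log X) ^ (g + 1)) ((Real.log N) ^ (g + 1)) e ε (by positivity) hs0 hl1 hl2 hl3 he0 he1 heε hs2 hmain
    · intro j hj1 hj2
      by_contra hbad
      rw [not_le] at hbad
      apply hno2
      rw [mem_biUnion]
      have hjX0 : (0 : ℤ) ≤ ((j * X : ℕ) : ℤ) := Int.natCast_nonneg _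
      have hjγ : ((j * X : ℕ) : ℤ) ≤ (γ : ℤ) * ((j * X : ℕ) : ℤ) := by
        have : (1 : ℤ) ≤ γ := by exact_mod_cast hγ
        nlinarith
      have hRX0 : (0 : ℤ) ≤ ((20 * (gsys (γ : ℤ) f c).sa * X : ℕ) : ℤ) := Int.natCast_nonneg _
      have hjN : ((j * X : ℕ) : ℤ) ≤ 2 * (N : ℤ) := by omega
      have hjN' : j * X ≤ 2 * N := by exact_mod_cast hjN
      refine ⟨j, ?_, ?_⟩
      · rw [mem_range]
        by_contra hge
        rw [not_lt] at hge
        have h1 : 4 * W * X ≤ j * X := Nat.mul_le_mul_right _ hge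
        have h3 : 4 * W * X = 2 * (2 * W * X) := by ring
        omega
      · rw [hZj]
        refine mem_filter.2 ⟨ht1, fun i => ?_, ht3, hbad⟩
        have h4W : 4 * W * X = 2 * (2 * W * X) := by ring
        refine Fin.cases ?_ (fun i => ?_) i
        · rw [g1_val0]
          refine ⟨hj2, ?_⟩
          rw [hC1X]
          have h1 := Nat.zero_le (Fs * (4 * W * X))
          have h3 := Nat.zero_le ((C + (gsys (γ : ℤ) f c).sc) * (2 * W * X))
          omega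
        · rw [g1_valS]
          have hiv : ∀ j, iv t j = (t j : ℤ) := fun j => rfl
          simp only [hiv]
          have h10 := ht2 i
          have h11 : ((j * X : ℕ) : ℤ) ≤ f i * ((j * X : ℕ) : ℤ) := by
            have : 1 ≤ f i := hf i
            nlinarith
          have h12 : ((20 * (gsys (γ : ℤ) f c).sa * X : ℕ) : ℤ) ≤ ((j * X : ℕ) : ℤ) := by
            exact_mod_cast Nat.mul_le_mul_right X hj1
          refine ⟨by linarith, ?_⟩
          have h13 := (abs_le.1 (hb i)).2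
          have h14 := (abs_le.1 (n9_abs γ f c N t htj i)).2
          have h15 : f i * ((j * X : ℕ) : ℤ) ≤ ((Fs * (j * X) : ℕ) : ℤ) := by
            push_cast
            refine mul_le_mul_of_nonneg_right ?_ (by positivity)
            have h16 : (f i).natAbs ≤ Fs := by
              rw [hFs]
              exact Finset.single_le_sum (f := fun i => (f i).natAbs) (fun _ _ => Nat.zero_le _) (mem_univ i)
            have h17 : f i ≤ ((f i).natAbs : ℤ) := Int.le_natAbs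
            exact h17.trans (by exact_mod_cast h16)
          have h18 : Fs * (j * X) + (C * N + (gsys (γ : ℤ) f c).sc * N) ≤ C1 * X := by
            rw [hC1X]
            have h19 : Fs * (j * X) ≤ Fs * (4 * W * X) := Nat.mul_le_mul_left _ (by omega)
            have h20 : (C + (gsys (γ : ℤ) f c).sc) * N ≤ (C + (gsys (γ : ℤ) f c).sc) * (2 * W * X) :=
              Nat.mul_le_mul_left _ (by omega)
            have h21 : (C + (gsys (γ : ℤ) f c).sc) * N = C * N + (gsys (γ : ℤ) f c).sc * N := Nat.add_mul _ _ _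
            omega
          have h22 : ((Fs * (j * X) : ℕ) : ℤ) + (((C * N : ℕ) : ℤ) + (((gsys (γ : ℤ) f c).sc * N : ℕ) : ℤ)) ≤
              ((C1 * X : ℕ) : ℤ) := by exact_mod_cast h18
          linarith
    · intro n0 L hL
      exact h7 X (by omega) (Fin.cons ((N : ℤ) - γ0) b) (iv t) ht3 hNZ n0 L hL
  have hcard : (((Zm ∪ (range (4 * W)).biUnion Zj).card : ℕ) : ℝ) ≤ (B : ℝ) * (N : ℝ) ^ (d - κ) := by
    have hN1' : (1 : ℝ) ≤ N := by exact_mod_cast hX1.trans hXN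
    have h1 : ((((range (4 * W)).biUnion Zj).card : ℕ) : ℝ) ≤ (4 * W : ℕ) * (N : ℝ) ^ (d - κ) := by
      calc ((((range (4 * W)).biUnion Zj).card : ℕ) : ℝ) ≤ ((∑ j ∈ range (4 * W), (Zj j).card : ℕ) : ℝ) := by
            exact_mod_cast card_biUnion_le
        _ = ∑ j ∈ range (4 * W), ((Zj j).card : ℝ) := by push_cast; rfl
        _ ≤ ∑ j ∈ range (4 * W), (N : ℝ) ^ (d - κ) := by
            refine Finset.sum_le_sum fun j _ => (hZ j).trans ?_
            have hd' : (1 : ℝ) ≤ d := by exact_mod_cast hd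
            exact Real.rpow_le_rpow (Nat.cast_nonneg _) (by exact_mod_cast hXN) (by linarith)
        _ = (4 * W : ℕ) * (N : ℝ) ^ (d - κ) := by
            rw [Finset.sum_const, card_range, nsmul_eq_mul]
    have h3 : ((Zm.card : ℕ) : ℝ) ≤ ((g + 1) * (g + 1) * 2 ^ (d - 1) : ℕ) * (N : ℝ) ^ (d - κ) := by
      calc ((Zm.card : ℕ) : ℝ) ≤ (((g + 1) * (g + 1) * (N + 1) ^ (d - 1) : ℕ) : ℝ) := by exact_mod_cast hZmc
        _ ≤ (((g + 1) * (g + 1) * (2 * N) ^ (d - 1) : ℕ) : ℝ) := by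
            have : (N + 1) ^ (d - 1) ≤ (2 * N) ^ (d - 1) := Nat.pow_le_pow_left (by omega) _
            exact_mod_cast Nat.mul_le_mul_left _ this
        _ = ((g + 1) * (g + 1) * 2 ^ (d - 1) : ℕ) * (N : ℝ) ^ (d - 1) := by
            push_cast
            rw [mul_pow]
            ring
        _ ≤ ((g + 1) * (g + 1) * 2 ^ (d - 1) : ℕ) * (N : ℝ) ^ (d - κ) := by
            refine mul_le_mul_of_nonneg_left ?_ (Nat.cast_nonneg _)
            rw [← Real.rpow_natCast]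
            refine Real.rpow_le_rpow_of_exponent_le hN1' ?_
            rw [Nat.cast_sub hd, Nat.cast_one]
            linarith
    calc (((Zm ∪ (range (4 * W)).biUnion Zj).card : ℕ) : ℝ) ≤ ((Zm.card + ((range (4 * W)).biUnion Zj).card : ℕ) : ℝ) := by
          exact_mod_cast card_union_le _ _
      _ = ((Zm.card : ℕ) : ℝ) + ((((range (4 * W)).biUnion Zj).card : ℕ) : ℝ) := by push_cast; rfl
      _ ≤ ((g + 1) * (g + 1) * 2 ^ (d - 1) : ℕ) * (N : ℝ) ^ (d - κ) + (4 * W : ℕ) * (N : ℝ) ^ (d - κ) := add_le_add h3 h1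
      _ = (B : ℝ) * (N : ℝ) ^ (d - κ) := by
          rw [hB]
          push_cast
          ring
  refine (Nat.cast_le.2 (card_le_card hsub)).trans (hcard.trans ?_)
  have hN0 : (0 : ℝ) < N := by
    have : 1 ≤ N := hX1.trans hXN
    exact_mod_cast this
  have h23 : (N : ℝ) ^ (d - κ / 2) = (N : ℝ) ^ (κ / 2) * (N : ℝ) ^ (d - κ) := by
    rw [← Real.rpow_add hN0]
    congr 1
    ring
  rw [h23]
  exact mul_le_mul_of_nonneg_right (hN1 N (by omega)) (Real.rpow_nonneg hN0.le _)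

end Pool.Agent.H9A
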